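import Pool.Agent.Lib.MP_3e612f_nt.EM.Defs
import Pool.Agent.Lib.MP_3e612f_nt.PI.OneM
import Pool.Agent.Lib.MP_3e612f_nt.PI.Fou

/-!
The base of the induction: frozen factors alone.

PROOF of `base`. `β` is a function on `(ℤ/m)^I`, a combination of the `ee (∑_i τ_i N_i)`,
`N_i = n / q ^ i`. As `N_i = ∑_{i ≤ j < L} (digit j) q ^ (j - i)` for `n < q ^ L`, the phase
`∑_i τ_i N_i` modulo `m` is a phase without interactions with windows of one digit: `PI.one_main`.
-/

set_option autoImplicit false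

namespace Pool.Agent.Lib.MP_3e612f_nt.EM

open Finset
open Pool.Agent.Lib.MP_3e612f_nt.PI (ee mc loc wd)

/-- the number above a position, from the digits -/
theorem Base_div {q : ℕ} (n i k : ℕ) :
    n / q ^ i = (∑ j ∈ range (i + k), if i ≤ j then n / q ^ j % q * q ^ (j - i) else 0) +
      q ^ k * (n / q ^ (i + k)) := by
  induction k with
  | zero =>
    rw [Nat.add_zero, Finset.sum_eq_zero, pow_zero, one_mul, zero_add]
    intro j hj
    rw [if_neg]
    have := mem_range.1 hj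
    omega
  | succ k ih =>
    rw [← Nat.add_assoc, Finset.sum_range_succ, if_pos (Nat.le_add_right i k),
      Nat.add_sub_cancel_left, pow_succ q (i + k), ← Nat.div_div_eq_div_mul, Nat.add_assoc]
    have h := Nat.mod_add_div (n / q ^ (i + k)) q
    have h2 : n / q ^ (i + k) % q * q ^ k + q ^ (k + 1) * (n / q ^ (i + k) / q) =
        q ^ k * (n / q ^ (i + k)) := by
      conv_rhs => rw [← h]
      ring
    rw [h2]
    exact ih

/-- the number above a position, from the digits -/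
theorem Base_sum {q : ℕ} {n L : ℕ} (hn : n < q ^ L) (i : ℕ) :
    n / q ^ i = ∑ j ∈ range L, if i ≤ j then n / q ^ j % q * q ^ (j - i) else 0 := by
  rcases Nat.lt_or_ge i L with h | h
  · obtain ⟨k, rfl⟩ := Nat.exists_eq_add_of_le h.le
    have h1 := Base_div (q := q) n i k
    rw [Nat.div_eq_of_lt hn, Nat.mul_zero, Nat.add_zero] at h1
    exact h1
  · rcases Nat.eq_zero_or_pos q with h0 | h0
    · subst h0
      rcases Nat.eq_zero_or_pos L with hL | hL
      · subst hL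
        rw [pow_zero] at hn
        have : n = 0 := by omega
        subst this
        simp
      · rw [zero_pow (by omega)] at hn
        omega
    · rw [Finset.sum_eq_zero]
      · rw [Nat.div_eq_zero_iff]
        right
        exact lt_of_lt_of_le hn (Nat.pow_le_pow_right h0 h)
      · intro j hj
        rw [if_neg]
        have := mem_range.1 hj
        omega

/-- combinations of the numbers `n / q ^ i` are phases without interactions -/
theorem Base_loc {q m : ℕ} {I : Finset ℕ} (τ : {i // i ∈ I} → ZMod m) {n L : ℕ} (hn : n < q ^ L) :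
    ∑ i : {i // i ∈ I}, τ i * ((n / q ^ (i : ℕ) : ℕ) : ZMod m) =
      loc q 0 L (fun j w => ∑ i : {i // i ∈ I},
        if (i : ℕ) ≤ j then τ i * ((w * q ^ (j - i) : ℕ) : ZMod m) else 0) n := by
  unfold loc
  rw [Finset.sum_comm]
  refine Finset.sum_congr rfl fun i _ => ?_
  rw [Base_sum hn i, Nat.cast_sum, Finset.mul_sum]
  refine Finset.sum_congr rfl fun j _ => ?_
  unfold wd
  rw [Nat.zero_add, pow_one]
  split_ifs
  · rfl
  · rw [Nat.cast_zero, mul_zero]

/-- frozen factors are orthogonal to the Moebius function, uniformly -/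
theorem base_mod {q : ℕ} (hq : 2 ≤ q) {m : ℕ} (hm : 1 ≤ m) (B : ℕ) {ε : ℝ} (hε : 0 < ε) :
    ∃ N0 : ℕ, ∀ N ≥ N0, ∀ (s : ℕ) (I : Finset ℕ) (β : ℕ → ℂ), I.card ≤ B → (∀ n, ‖β n‖ ≤ 1) →
      DepL q m I β → ‖∑ n ∈ Icc 1 N, mc n * β (n + s)‖ ≤ ε * N := by
  classical
  have : NeZero m := ⟨by omega⟩
  set C : ℕ := m ^ B with hC
  have hC0 : 0 < C := Nat.pow_pos (by omega)
  have hCr : (0 : ℝ) < C := by exact_mod_cast hC0
  obtain ⟨N0, hN0⟩ := PI.one_main q 0 m hq (show 0 < ε / C by positivity)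
  refine ⟨N0, fun N hN s I β hI hβ hdep => ?_⟩
  -- the function on `(ℤ/m)^I`
  let z : ℕ → {i // i ∈ I} → ZMod m := fun n i => ((n / q ^ (i : ℕ) : ℕ) : ZMod m)
  let φ : ({i // i ∈ I} → ZMod m) → ℂ := fun y => if h : ∃ n, z n = y then β h.choose else 0
  have hφ : ∀ y, ‖φ y‖ ≤ 1 := by
    intro y
    show ‖(if h : ∃ n, z n = y then β h.choose else 0 : ℂ)‖ ≤ 1
    split_ifs with h
    · exact hβ _
    · rw [norm_zero]
      exact zero_le_one
  have hφβ : ∀ n, β n = φ (z n) := by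
    intro n
    have h : ∃ n', z n' = z n := ⟨n, rfl⟩
    show _ = (if h : ∃ n', z n' = z n then β h.choose else 0 : ℂ)
    rw [dif_pos h]
    refine hdep _ _ fun i hi => ?_
    have h1 := congrFun h.choose_spec ⟨i, hi⟩
    have h2 : ((h.choose / q ^ i : ℕ) : ZMod m) = ((n / q ^ i : ℕ) : ZMod m) := h1
    exact ((ZMod.natCast_eq_natCast_iff' _ _ _).1 h2).symm
  obtain ⟨a, ha, hexp⟩ := PI.fourier_exists m φ hφ
  obtain ⟨L, hL⟩ : ∃ L, N + s < q ^ L := ⟨_, Nat.lt_pow_self (by omega)⟩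
  let c : ({i // i ∈ I} → ZMod m) → ℕ → ℕ → ZMod m := fun τ j w => ∑ i : {i // i ∈ I},
        if (i : ℕ) ≤ j then τ i * ((w * q ^ (j - i) : ℕ) : ZMod m) else 0
  have hsum : ∑ n ∈ Icc 1 N, mc n * β (n + s) =
      ∑ τ, a τ * ∑ n ∈ Icc 1 N, mc n * ee (loc q 0 L (c τ) (n + s)) := by
    simp_rw [Finset.mul_sum]
    rw [Finset.sum_comm]
    refine Finset.sum_congr rfl fun n hn => ?_
    have hn' : n + s < q ^ L := by
      have := (mem_Icc.1 hn).2
      omega
    rw [hφβ, hexp, Finset.mul_sum]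
    refine Finset.sum_congr rfl fun τ _ => ?_
    have h1 : ∑ k, τ k * z (n + s) k = loc q 0 L (c τ) (n + s) := Base_loc τ hn'
    rw [h1]
    ring
  rw [hsum]
  refine (norm_sum_le _ _).trans ?_
  have hcard : (Fintype.card ({i // i ∈ I} → ZMod m) : ℝ) ≤ C := by
    have h2 : Fintype.card ({i // i ∈ I} → ZMod m) ≤ C := by
      rw [Fintype.card_fun, ZMod.card, Fintype.card_coe, hC]
      exact Nat.pow_le_pow_right (by omega) hI
    exact_mod_cast h2
  have hNr : (0 : ℝ) ≤ N := Nat.cast_nonneg N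
  calc ∑ τ, ‖a τ * ∑ n ∈ Icc 1 N, mc n * ee (loc q 0 L (c τ) (n + s))‖
      ≤ ∑ _τ : {i // i ∈ I} → ZMod m, ε / C * N := by
        refine Finset.sum_le_sum fun τ _ => ?_
        rw [norm_mul]
        calc _ ≤ 1 * (ε / C * N) :=
              mul_le_mul (ha τ) (hN0 N hN L s (c τ)) (norm_nonneg _) zero_le_one
          _ = _ := one_mul _
    _ = Fintype.card ({i // i ∈ I} → ZMod m) * (ε / C * N) := by
        rw [Finset.sum_const, card_univ, nsmul_eq_mul]
    _ ≤ C * (ε / C * N) := mul_le_mul_of_nonneg_right hcard (by positivity)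
    _ = ε * N := by field_simp

/-- the base, at level `T` -/
theorem base {q : ℕ} (hq : 2 ≤ q) {T : ℕ} (hT : 1 ≤ T) (B : ℕ) {ε : ℝ} (hε : 0 < ε) :
    ∃ N0 : ℕ, ∀ N ≥ N0, ∀ (s : ℕ) (I : Finset ℕ) (β : ℕ → ℂ), I.card ≤ B → (∀ n, ‖β n‖ ≤ 1) →
      DepL q (q * T) I β → ‖∑ n ∈ Icc 1 N, mc n * β (n + s)‖ ≤ ε * N :=
  base_mod hq (Nat.mul_pos (by omega) hT) B hε

/-- the theorem for phases of degree `0` with a frozen factor -/
theorem base_cls {q : ℕ} (hq : 2 ≤ q) {T : ℕ} (hT : 1 ≤ T) (M B : ℕ) [NeZero M] {ε : ℝ}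
    (hε : 0 < ε) : ∃ N0 : ℕ, ∀ N ≥ N0, ∀ (s L : ℕ) (F : ℕ → ℂ), Cls q 0 T M B L F →
      ‖∑ n ∈ Icc 1 N, mc n * F (n + s)‖ ≤ ε * N := by
  obtain ⟨N0, hN0⟩ := base hq hT B hε
  refine ⟨N0, fun N hN s L F hF => ?_⟩
  obtain ⟨I, β, f, hI, hβ, hdep, ⟨t, ht, hf⟩, hFe⟩ := hF
  have h1 : ∀ n, f n = t ∅ := by
    intro n
    rw [hf n]
    unfold FP
    rw [Finset.sum_eq_single ∅]
    · intro S _ hS
      exact ht S (Finset.card_pos.2 (Finset.nonempty_iff_ne_empty.2 hS))
    · intro h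
      exact absurd (Finset.empty_mem_powerset _) h
  have h2 : ∀ n, F n = β n * ee (t ∅) := fun n => by rw [hFe, h1]
  simp only [h2]
  have h3 : ∑ n ∈ Icc 1 N, mc n * (β (n + s) * ee (t ∅)) =
      (∑ n ∈ Icc 1 N, mc n * β (n + s)) * ee (t ∅) := by
    rw [Finset.sum_mul]
    exact Finset.sum_congr rfl fun n _ => (mul_assoc _ _ _).symm
  rw [h3, norm_mul, PI.Kat_norm_ee, mul_one]
  exact hN0 N hN s I β hI hβ hdep

end Pool.Agent.Lib.MP_3e612f_nt.EM
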