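import Pool.Agent.Lib.MP_3e612f_nt.EM.Defs

/-!
Letters of `t * n + u` under a set of gadgets (T-form).

`ltr_cells`: if the gadgets of `A` all have their first contents in `n`, then switching on those with
`β i = 1` changes the letters of `t n + u` only in the cells of the gadgets of `A`, and there the letters
are those of the content `uT + β i * (t * T)`. `letter_out`: windows at the positions outside the cells
do not change.
-/

set_option autoImplicit false

namespace Pool.Agent.Lib.MP_3e612f_nt.EM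

open Finset

/-- the letters at the positions of the block -/
def cell (q T l L A : ℕ) : Finset (Lt (q * T) L) :=
  univ.filter fun x => A ≤ (x.1 : ℕ) ∧ (x.1 : ℕ) < A + l

section
variable {q T g l H p r L : ℕ} {z0 x0 : ℕ → ℕ → ℕ}

private theorem Cells_mem_cell {A : ℕ} {x : Lt (q * T) L} :
    x ∈ cell q T l L A ↔ A ≤ (x.1 : ℕ) ∧ (x.1 : ℕ) < A + l := by
  simp [cell]

private theorem Cells_mem_ltr {n : ℕ} {x : Lt (q * T) L} :
    x ∈ ltr q (q * T) L n ↔ n / q ^ (x.1 : ℕ) % (q * T) = x.2 := by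
  simp [ltr]

private theorem Cells_mem_blk {A U : ℕ} {x : Lt (q * T) L} :
    x ∈ blk q T l L A U ↔ A ≤ (x.1 : ℕ) ∧ (x.1 : ℕ) < A + l ∧
      U / q ^ ((x.1 : ℕ) - A) % (q * T) = x.2 := by
  simp [blk]

/-- one gadget: the positions outside the cell -/
private theorem Cells_out (hq : 2 ≤ q) (hG : GadT q T g l H p r z0 x0) (s s' : ℕ) {t u : ℕ}
    (htu : (t = p ∧ u = s) ∨ (t = r ∧ u = s')) {o : ℕ × ℕ} (ho : o.2 < H) {β : ℕ}
    (hβ : β = 0 ∨ β = 1) {n : ℕ}
    (hn : n / q ^ o.1 % (q ^ (g + l) * T) = zT q T g l z0 x0 s s' o) {i : ℕ}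
    (hi : i < o.1 + g ∨ o.1 + g + l ≤ i) :
    (t * (n + β * (T * q ^ (o.1 + g))) + u) / q ^ i % (q * T) =
      (t * n + u) / q ^ i % (q * T) := by
  rcases hβ with rfl | rfl
  · simp
  rw [one_mul]
  rcases hi with hi | hi
  · exact gad_low (by omega) hi
  · rw [gad_high (by omega) hG s s' htu ho hn hi]

/-- one gadget: the content of the cell -/
private theorem Cells_in (hq : 2 ≤ q) (hT : 1 ≤ T) (hG : GadT q T g l H p r z0 x0) (s s' : ℕ)
    {t u : ℕ} (htu : (t = p ∧ u = s) ∨ (t = r ∧ u = s')) {o : ℕ × ℕ} (ho : o.2 < H) {β : ℕ}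
    (hβ : β = 0 ∨ β = 1) {n : ℕ}
    (hn : n / q ^ o.1 % (q ^ (g + l) * T) = zT q T g l z0 x0 s s' o) :
    (t * (n + β * (T * q ^ (o.1 + g))) + u) / q ^ (o.1 + g) % (q ^ l * T) =
      uT q T g l z0 x0 s s' u t o + β * (t * T) := by
  have hq0 : 0 < q := by omega
  rcases hβ with rfl | rfl
  · simpa using carryT hq0 hG s s' htu o hn
  rw [one_mul, one_mul]
  refine carryT' hq0 (by omega) hG s s' htu ho ?_
  have h1 : (n + T * q ^ (o.1 + g)) / q ^ o.1 = n / q ^ o.1 + T * q ^ g := by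
    rw [show n + T * q ^ (o.1 + g) = n + q ^ o.1 * (T * q ^ g) by rw [pow_add]; ring,
      Nat.add_mul_div_left _ _ (Nat.pow_pos hq0)]
  have h2 := zT_lt hG s s' ho
  have h3 : q ^ (g + l) ≤ q ^ (g + l) * T := Nat.le_mul_of_pos_right _ (by omega)
  rw [h1, ← Nat.mod_add_mod, hn]
  exact Nat.mod_eq_of_lt (by omega)

/-- one gadget -/
private theorem Cells_one (hq : 2 ≤ q) (hT : 1 ≤ T) (hG : GadT q T g l H p r z0 x0) (s s' : ℕ)
    {t u : ℕ} (htu : (t = p ∧ u = s) ∨ (t = r ∧ u = s')) {o : ℕ × ℕ} (ho : o.2 < H) {β : ℕ}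
    (hβ : β = 0 ∨ β = 1) {n : ℕ}
    (hn : n / q ^ o.1 % (q ^ (g + l) * T) = zT q T g l z0 x0 s s' o) :
    ltr q (q * T) L (t * (n + β * (T * q ^ (o.1 + g))) + u) =
      ((ltr q (q * T) L (t * n + u)).filter fun x => x ∉ cell q T l L (o.1 + g)) ∪
        blk q T l L (o.1 + g) (uT q T g l z0 x0 s s' u t o + β * (t * T)) := by
  ext x
  rw [mem_union, mem_filter, Cells_mem_ltr, Cells_mem_ltr, Cells_mem_blk, Cells_mem_cell]
  by_cases hx : o.1 + g ≤ (x.1 : ℕ) ∧ (x.1 : ℕ) < o.1 + g + l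
  · obtain ⟨k, hk⟩ := Nat.exists_eq_add_of_le hx.1
    have hkl : k < l := by omega
    have h1 := letter_cell (q := q) (T := T) (A := o.1 + g)
      (m := t * (n + β * (T * q ^ (o.1 + g))) + u) hkl
    rw [Cells_in hq hT hG s s' htu ho hβ hn, ← hk] at h1
    have e : (x.1 : ℕ) - (o.1 + g) = k := by omega
    rw [h1, e]
    constructor
    · intro h
      exact Or.inr ⟨hx.1, hx.2, h⟩
    · rintro (h | h)
      · exact absurd hx h.2
      · exact h.2.2
  · have hx' : (x.1 : ℕ) < o.1 + g ∨ o.1 + g + l ≤ (x.1 : ℕ) := by omega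
    rw [Cells_out hq hG s s' htu ho hβ hn hx']
    constructor
    · intro h
      exact Or.inl ⟨h, hx⟩
    · rintro (h | h)
      · exact h.1
      · exact absurd ⟨h.1, h.2.1⟩ hx

/-- the contents of the other windows are not changed -/
private theorem Cells_content (hq : 2 ≤ q) (hG : GadT q T g l H p r z0 x0) (s s' : ℕ)
    {o : ℕ × ℕ} (ho : o.2 < H) {β : ℕ} (hβ : β = 0 ∨ β = 1) {n : ℕ}
    (hn : n / q ^ o.1 % (q ^ (g + l) * T) = zT q T g l z0 x0 s s' o) {a : ℕ}
    (h : o.1 + (g + l) ≤ a ∨ a + (g + l) ≤ o.1) :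
    (n + β * (T * q ^ (o.1 + g))) / q ^ a % (q ^ (g + l) * T) =
      n / q ^ a % (q ^ (g + l) * T) := by
  have hq0 : 0 < q := by omega
  rcases hβ with rfl | rfl
  · simp
  rw [one_mul]
  rcases h with h | h
  · congr 1
    have h2 := zT_lt hG s s' ho
    have h3 := carry_high (q := q) (T := T) (l := g + l) (A := o.1) (t := q ^ g) (m := n) hq0 hn
      (by
        rw [Nat.mod_eq_of_lt (by omega)]
        rw [mul_comm (q ^ g) T]
        exact h2) h
    rw [← h3]
    congr 1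
    rw [pow_add]
    ring
  · obtain ⟨e, he⟩ := Nat.exists_eq_add_of_le h
    have e1 : T * q ^ (o.1 + g) = q ^ a * (q ^ (g + l) * T * q ^ (e + g)) := by
      rw [he]
      simp only [pow_add]
      ring
    rw [e1, Nat.add_mul_div_left _ _ (Nat.pow_pos hq0), Nat.add_mul_mod_self_left]

theorem ltr_cells (hq : 2 ≤ q) (hT : 1 ≤ T) (hG : GadT q T g l H p r z0 x0) (s s' : ℕ) {t u : ℕ}
    (htu : (t = p ∧ u = s) ∨ (t = r ∧ u = s')) {ι : Type} [Fintype ι] [DecidableEq ι]
    (o : ι → ℕ × ℕ) (ho : ∀ i, (o i).2 < H)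
    (hsep : ∀ i j, i ≠ j → (o i).1 + (g + l) ≤ (o j).1 ∨ (o j).1 + (g + l) ≤ (o i).1)
    (A : Finset ι) (β : ι → ℕ) (hβ : ∀ i ∈ A, β i = 0 ∨ β i = 1) {n : ℕ}
    (hn : ∀ i ∈ A, n / q ^ (o i).1 % (q ^ (g + l) * T) = zT q T g l z0 x0 s s' (o i)) :
    ltr q (q * T) L (t * (n + ∑ i ∈ A, β i * (T * q ^ ((o i).1 + g))) + u) =
      ((ltr q (q * T) L (t * n + u)).filter fun x => ∀ i ∈ A, x ∉ cell q T l L ((o i).1 + g)) ∪
        A.biUnion fun i =>
          blk q T l L ((o i).1 + g) (uT q T g l z0 x0 s s' u t (o i) + β i * (t * T)) := by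
  classical
  induction A using Finset.induction_on generalizing n with
  | empty => simp
  | insert j A hj ih =>
    have hnj := hn j (Finset.mem_insert_self j A)
    have hβj := hβ j (Finset.mem_insert_self j A)
    set n' := n + β j * (T * q ^ ((o j).1 + g)) with hn'
    have hA : ∀ i ∈ A, n' / q ^ (o i).1 % (q ^ (g + l) * T) = zT q T g l z0 x0 s s' (o i) := by
      intro i hi
      have hij : j ≠ i := fun h => hj (h ▸ hi)
      rw [hn', Cells_content hq hG s s' (ho j) hβj hnj (hsep j i hij)]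
      exact hn i (Finset.mem_insert_of_mem hi)
    have h1 := ih (fun i hi => hβ i (Finset.mem_insert_of_mem hi)) hA
    have h2 := Cells_one (L := L) hq hT hG s s' htu (ho j) hβj hnj
    rw [← hn'] at h2
    have e : n + ∑ i ∈ insert j A, β i * (T * q ^ ((o i).1 + g)) =
        n' + ∑ i ∈ A, β i * (T * q ^ ((o i).1 + g)) := by
      rw [Finset.sum_insert hj, hn', Nat.add_assoc n]
    rw [e, h1, h2, Finset.filter_union, Finset.filter_filter, Finset.biUnion_insert,
      Finset.union_assoc]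
    congr 1
    · ext x
      simp only [Finset.mem_filter, Finset.mem_insert, forall_eq_or_imp]
    · congr 1
      apply Finset.filter_true_of_mem
      intro x hx i hi
      have hij : j ≠ i := fun h => hj (h ▸ hi)
      have h3 := Cells_mem_blk.1 hx
      intro h4
      have h5 := Cells_mem_cell.1 h4
      have h6 := hsep j i hij
      omega

/-- windows outside the cells do not change -/
theorem letter_out (hq : 2 ≤ q) (hT : 1 ≤ T) (hG : GadT q T g l H p r z0 x0) (s s' : ℕ) {t u : ℕ}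
    (htu : (t = p ∧ u = s) ∨ (t = r ∧ u = s')) {ι : Type} [Fintype ι] [DecidableEq ι]
    (o : ι → ℕ × ℕ) (ho : ∀ i, (o i).2 < H)
    (hsep : ∀ i j, i ≠ j → (o i).1 + (g + l) ≤ (o j).1 ∨ (o j).1 + (g + l) ≤ (o i).1)
    (A : Finset ι) (β : ι → ℕ) (hβ : ∀ i ∈ A, β i = 0 ∨ β i = 1) {n : ℕ}
    (hn : ∀ i ∈ A, n / q ^ (o i).1 % (q ^ (g + l) * T) = zT q T g l z0 x0 s s' (o i)) {i : ℕ}
    (hi : ∀ j ∈ A, i < (o j).1 + g ∨ (o j).1 + g + l ≤ i) :
    (t * (n + ∑ j ∈ A, β j * (T * q ^ ((o j).1 + g))) + u) / q ^ i % (q * T) =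
      (t * n + u) / q ^ i % (q * T) := by
  classical
  have hq0 : 0 < q := by omega
  set m := t * (n + ∑ j ∈ A, β j * (T * q ^ ((o j).1 + g))) + u with hm
  have hlt : (t * n + u) / q ^ i % (q * T) < q * T := Nat.mod_lt _ (by positivity)
  have h1 := ltr_cells (L := i + 1) hq hT hG s s' htu o ho hsep A β hβ hn
  rw [← hm] at h1
  set x : Lt (q * T) (i + 1) := (⟨i, by omega⟩, ⟨(t * n + u) / q ^ i % (q * T), hlt⟩) with hx
  have h2 : x ∈ ltr q (q * T) (i + 1) m := by
    rw [h1, mem_union, mem_filter]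
    refine Or.inl ⟨Cells_mem_ltr.2 rfl, fun j hj hc => ?_⟩
    have h3 := Cells_mem_cell.1 hc
    have h4 := hi j hj
    simp only [hx] at h3
    omega
  exact Cells_mem_ltr.1 h2

theorem cell_disjoint {A A' : ℕ} (h : A + l ≤ A' ∨ A' + l ≤ A) :
    Disjoint (cell q T l L A) (cell q T l L A') := by
  rw [Finset.disjoint_left]
  intro x hx hx'
  have h1 := Cells_mem_cell.1 hx
  have h2 := Cells_mem_cell.1 hx'
  omega

end

end Pool.Agent.Lib.MP_3e612f_nt.EM
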