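import Pool.Agent.Lib.MP_3e612f_nt.PI.Avg

/-!
Averaging over the contents of disjoint windows; the upper `h` digits of every window are free and are
used for making the state (the part of the number above the lower `W` digits, modulo `T`) equal to `0`.

`avg_state` is the analogue of `avg_exists`. The windows are treated from the top to the bottom. In a
window with the content `x = z + q ^ W * φ` and the state `σ` (above the window) the content is replaced
by `z + q ^ W * ((φ + f σ) % q ^ h)`, where `f σ < T ≤ q ^ h` and `f σ + q ^ h * σ = 0` modulo `T`. This is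
a bijection of the contents for every `σ`, and for `φ = 0` the state above the lower `W` digits is `0`. A
change of the content by a multiple of `T` does not change the states of the lower windows.
-/

set_option autoImplicit false

namespace Pool.Agent.Lib.MP_3e612f_nt.EM

open Finset Function
open Pool.Agent.Lib.MP_3e612f_nt.PI

/-- the free part which makes the state vanish -/
def Law_f (q h T σ : ℕ) : ℕ := (T - q ^ h * σ % T) % T

theorem Law_f_lt {q h T σ : ℕ} (hT : 1 ≤ T) (hTh : T ≤ q ^ h) : Law_f q h T σ < q ^ h :=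
  lt_of_lt_of_le (Nat.mod_lt _ hT) hTh

theorem Law_f_mod {q h T σ : ℕ} (hT : 1 ≤ T) : (Law_f q h T σ + q ^ h * σ) % T = 0 := by
  unfold Law_f
  have h1 : q ^ h * σ % T < T := Nat.mod_lt _ hT
  rw [Nat.mod_add_mod, ← Nat.add_mod_mod]
  have h2 : T - q ^ h * σ % T + q ^ h * σ % T = T := by omega
  rw [h2, Nat.mod_self]

/-- the new content -/
def Law_p (q W h f x : ℕ) : ℕ := x % q ^ W + q ^ W * ((x / q ^ W + f) % q ^ h)

theorem Law_p_lt {q W h f x : ℕ} (hq : 2 ≤ q) : Law_p q W h f x < q ^ (W + h) := by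
  have h1 : x % q ^ W < q ^ W := Nat.mod_lt _ (by positivity)
  have h2 : (x / q ^ W + f) % q ^ h < q ^ h := Nat.mod_lt _ (by positivity)
  have h3 := Nat.mul_le_mul_left (q ^ W) (Nat.succ_le_of_lt h2)
  unfold Law_p
  rw [pow_add]
  rw [Nat.succ_eq_add_one, mul_add, mul_one] at h3
  omega

theorem Law_p_small {q W h f x : ℕ} (hx : x < q ^ W) (hf : f < q ^ h) :
    Law_p q W h f x = x + q ^ W * f := by
  unfold Law_p
  rw [Nat.mod_eq_of_lt hx, Nat.div_eq_of_lt hx, zero_add, Nat.mod_eq_of_lt hf]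

theorem Law_p_inj {q W h f x y : ℕ} (hq : 2 ≤ q) (hx : x < q ^ (W + h)) (hy : y < q ^ (W + h))
    (hxy : Law_p q W h f x = Law_p q W h f y) : x = y := by
  have hW : 0 < q ^ W := by positivity
  have h1 : x % q ^ W < q ^ W := Nat.mod_lt _ hW
  have h2 : y % q ^ W < q ^ W := Nat.mod_lt _ hW
  unfold Law_p at hxy
  have h3 : x % q ^ W = y % q ^ W := by
    have h4 := congrArg (fun n => n % q ^ W) hxy
    simpa using h4
  have h4 : (x / q ^ W + f) % q ^ h = (y / q ^ W + f) % q ^ h := by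
    rw [h3] at hxy
    exact Nat.eq_of_mul_eq_mul_left hW (Nat.add_left_cancel hxy)
  have h5 : x / q ^ W ≡ y / q ^ W [MOD q ^ h] := Nat.ModEq.add_right_cancel' f h4
  have h6 : x / q ^ W < q ^ h := by
    rw [Nat.div_lt_iff_lt_mul hW, ← pow_add, add_comm]
    exact hx
  have h7 : y / q ^ W < q ^ h := by
    rw [Nat.div_lt_iff_lt_mul hW, ← pow_add, add_comm]
    exact hy
  have h8 : x / q ^ W = y / q ^ W := Nat.ModEq.eq_of_lt_of_lt h5 h6 h7
  rw [← Nat.div_add_mod x (q ^ W), ← Nat.div_add_mod y (q ^ W), h3, h8]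

theorem Law_single {q W h a K : ℕ} (hq : 2 ≤ q) (hK : a + (W + h) ≤ K) (f : ℕ → ℕ) (Ψ : ℕ → ℂ) :
    ∑ v ∈ range (q ^ K), ∑ x : Fin (q ^ (W + h)), Ψ (Avg_R q (W + h) a v (Law_p q W h (f v) x)) =
      ((q ^ (W + h) : ℕ) : ℂ) * ∑ v ∈ range (q ^ K), Ψ v := by
  rw [← Avg_single hq hK Ψ]
  refine Finset.sum_congr rfl fun v _ => ?_
  let e : Fin (q ^ (W + h)) → Fin (q ^ (W + h)) := fun x => ⟨Law_p q W h (f v) x, Law_p_lt hq⟩
  have he : Function.Bijective e := by
    rw [← Finite.injective_iff_bijective]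
    intro x y hxy
    exact Fin.ext (Law_p_inj hq x.2 y.2 (congrArg Fin.val hxy))
  exact he.sum_comp fun y : Fin (q ^ (W + h)) => Ψ (Avg_R q (W + h) a v y)

/-- a multiple of `q ^ (a + W)` is added -/
theorem Law_R_add {q W a v x b y : ℕ} (hq : 2 ≤ q) (hb : a + W ≤ b) :
    Avg_R q W a (v + y * q ^ b) x = Avg_R q W a v x + y * q ^ b := by
  obtain ⟨d, rfl⟩ := Nat.exists_eq_add_of_le hb
  have h1 : (v + y * q ^ (a + W + d)) / q ^ a % q ^ W = v / q ^ a % q ^ W := by
    have h2 : v + y * q ^ (a + W + d) = v + q ^ a * (q ^ W * (y * q ^ d)) := by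
      rw [pow_add, pow_add]; ring
    rw [h2, Nat.add_mul_div_left _ _ (by positivity), Nat.add_mul_mod_self_left]
  have h3 := Avg_content_le q W a v
  unfold Avg_R
  rw [h1]
  omega

theorem Law_state_add {q T n b c y : ℕ} (hq : 2 ≤ q) (hb : b ≤ c) (hy : T ∣ y) :
    (n + y * q ^ c) / q ^ b % T = n / q ^ b % T := by
  obtain ⟨d, rfl⟩ := Nat.exists_eq_add_of_le hb
  obtain ⟨e, rfl⟩ := hy
  have h2 : n + T * e * q ^ (b + d) = n + q ^ b * (T * (e * q ^ d)) := by
    rw [pow_add]; ring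
  rw [h2, Nat.add_mul_div_left _ _ (by positivity), Nat.add_mul_mod_self_left]

theorem Law_div_base {q K b u v : ℕ} (hq : 2 ≤ q) (hb : b ≤ K) :
    (q ^ K * u + v) / q ^ b = q ^ (K - b) * u + v / q ^ b := by
  obtain ⟨d, rfl⟩ := Nat.exists_eq_add_of_le hb
  rw [Nat.add_sub_cancel_left, pow_add, mul_assoc, Nat.mul_add_div (by positivity)]

theorem Law_quot {q W h a K u v z f : ℕ} (hq : 2 ≤ q) (hK : a + (W + h) ≤ K) (hz : z < q ^ W) :
    (q ^ K * u + Avg_R q (W + h) a v (z + q ^ W * f)) / q ^ (a + W) =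
      q ^ h * ((q ^ K * u + v) / q ^ (a + (W + h))) + f := by
  obtain ⟨d, rfl⟩ := Nat.exists_eq_add_of_le hK
  rw [Law_div_base hq hK, Nat.add_sub_cancel_left, Avg_R_eq]
  have h1 : q ^ (a + (W + h) + d) * u + (v / q ^ (a + (W + h)) * q ^ (a + (W + h)) +
      (z + q ^ W * f) * q ^ a + v % q ^ a) =
      q ^ (a + W) * (q ^ h * (q ^ d * u + v / q ^ (a + (W + h))) + f) + (z * q ^ a + v % q ^ a) := by
    rw [pow_add, pow_add _ a, pow_add _ W, pow_add _ a]
    ring
  rw [h1, Nat.mul_add_div (by positivity), Nat.div_eq_of_lt (Avg_low_lt hq hz), add_zero]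

theorem Law_main (q W h T K : ℕ) (hq : 2 ≤ q) (hT : 1 ≤ T) (hTh : T ≤ q ^ h) {ι : Type} [Fintype ι]
    [DecidableEq ι] (a : ι → ℕ)
    (hsep : ∀ i j, i ≠ j → a i + (W + h) ≤ a j ∨ a j + (W + h) ≤ a i) (hK : ∀ i, a i + (W + h) ≤ K)
    (u : ℕ) (s : Finset ι) :
    ∃ S : ℕ → (ι → Fin (q ^ (W + h))) → ℕ,
      (∀ v c, v < q ^ K → S v c < q ^ K) ∧
      (∀ v c, ∀ i ∈ s, (c i : ℕ) < q ^ W → S v c / q ^ a i % q ^ W = (c i : ℕ) ∧
        (q ^ K * u + S v c) / q ^ (a i + W) % T = 0) ∧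
      (∀ v c, ∀ i ∈ s, ∀ x : Fin (q ^ (W + h)), (c i : ℕ) < q ^ W → (x : ℕ) < q ^ W →
        (c i : ℕ) ≤ x → T ∣ (x : ℕ) - c i →
        S v (update c i x) = S v c + ((x : ℕ) - c i) * q ^ a i) ∧
      (∀ v c, ∀ i ∉ s, ∀ x : Fin (q ^ (W + h)), S v (update c i x) = S v c) ∧
      ∀ Ψ : ℕ → ℂ, (((q ^ (W + h)) ^ Fintype.card ι : ℕ) : ℂ) * ∑ v ∈ range (q ^ K), Ψ v =
        ∑ v ∈ range (q ^ K), ∑ c, Ψ (S v c) := by
  classical
  induction s using Finset.induction_on_min_value a with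
  | empty =>
    refine ⟨fun v _ => v, fun v _ h => h, fun v c i h => absurd h (notMem_empty i),
      fun v c i h => absurd h (notMem_empty i), fun v c i _ x => rfl, ?_⟩
    intro Ψ
    simp only [Finset.sum_const, card_univ, Fintype.card_fun, Fintype.card_fin, nsmul_eq_mul]
    rw [Finset.mul_sum]
  | insert i0 s hi0 hmin ih =>
    obtain ⟨S, hlt, hin, hup, hind, havg⟩ := ih
    have habove : ∀ i ∈ s, a i0 + (W + h) ≤ a i := by
      intro i hi
      have hne : i0 ≠ i := fun h => hi0 (h ▸ hi)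
      have h1 := hmin i hi
      rcases hsep i0 i hne with h2 | h2
      · exact h2
      · omega
    let σ : ℕ → ℕ := fun v => (q ^ K * u + v) / q ^ (a i0 + (W + h)) % T
    let f : ℕ → ℕ := fun v => Law_f q h T (σ v)
    have hf : ∀ v, f v < q ^ h := fun v => Law_f_lt hT hTh
    have hp : ∀ v x, Law_p q W h (f v) x < q ^ (W + h) := fun v x => Law_p_lt hq
    refine ⟨fun v c => Avg_R q (W + h) (a i0) (S v c) (Law_p q W h (f (S v c)) (c i0)),
      ?_, ?_, ?_, ?_, ?_⟩
    · intro v c hv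
      exact Avg_R_lt hq (hp _ _) (hK i0) (hlt v c hv)
    · intro v c i hi hc
      rcases mem_insert.1 hi with rfl | hi
      · have h1 : Law_p q W h (f (S v c)) (c i) = (c i : ℕ) + q ^ W * f (S v c) :=
          Law_p_small hc (hf _)
        constructor
        · have h2 := Avg_R_content (q := q) (W := W + h) (a := a i) (v := S v c) hq
            (hp (S v c) (c i))
          have h3 : ∀ n : ℕ, n / q ^ a i % q ^ W = n / q ^ a i % q ^ (W + h) % q ^ W := fun n =>
            (Nat.mod_mod_of_dvd _ (pow_dvd_pow q (Nat.le_add_right W h))).symm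
          show Avg_R q (W + h) (a i) (S v c) (Law_p q W h (f (S v c)) (c i)) / q ^ a i % q ^ W = _
          rw [h3, h2, h1, Nat.add_mul_mod_self_left, Nat.mod_eq_of_lt hc]
        · show (q ^ K * u + Avg_R q (W + h) (a i) (S v c) (Law_p q W h (f (S v c)) (c i))) /
            q ^ (a i + W) % T = 0
          rw [h1, Law_quot hq (hK i) hc, add_comm]
          have h2 : Law_f q h T (σ (S v c)) + q ^ h * σ (S v c) ≡
              Law_f q h T (σ (S v c)) + q ^ h * ((q ^ K * u + S v c) / q ^ (a i + (W + h)))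
              [MOD T] := Nat.ModEq.add_left _ (Nat.ModEq.mul_left _ (Nat.mod_modEq _ _))
          exact Eq.trans (show _ % T = _ % T from h2.symm) (Law_f_mod hT)
      · obtain ⟨h1, h2⟩ := hin v c i hi hc
        have h3 := habove i hi
        constructor
        · show Avg_R q (W + h) (a i0) (S v c) (Law_p q W h (f (S v c)) (c i0)) / q ^ a i % q ^ W = _
          rw [Avg_R_div hq (hp _ _) h3]
          exact h1
        · show (q ^ K * u + Avg_R q (W + h) (a i0) (S v c) (Law_p q W h (f (S v c)) (c i0))) /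
            q ^ (a i + W) % T = 0
          have h4 : a i + W ≤ K := by
            have := hK i
            omega
          rw [Law_div_base hq h4, Avg_R_div hq (hp _ _) (by omega), ← Law_div_base hq h4]
          exact h2
    · intro v c i hi x hc hx hcx hTx
      show Avg_R q (W + h) (a i0) (S v (update c i x))
        (Law_p q W h (f (S v (update c i x))) (update c i x i0)) =
        Avg_R q (W + h) (a i0) (S v c) (Law_p q W h (f (S v c)) (c i0)) + ((x : ℕ) - c i) * q ^ a i
      rcases mem_insert.1 hi with rfl | hi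
      · rw [hind v c i hi0 x, update_self, Law_p_small hc (hf _), Law_p_small hx (hf _)]
        have h1 : ((x : ℕ) + q ^ W * f (S v c)) * q ^ a i =
            ((c i : ℕ) + q ^ W * f (S v c)) * q ^ a i + ((x : ℕ) - c i) * q ^ a i := by
          rw [← add_mul]
          congr 1
          omega
        unfold Avg_R
        rw [h1]
        omega
      · have hne : i0 ≠ i := fun h => hi0 (h ▸ hi)
        rw [update_of_ne hne, hup v c i hi x hc hx hcx hTx]
        have h1 : f (S v c + ((x : ℕ) - c i) * q ^ a i) = f (S v c) := by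
          show Law_f q h T ((q ^ K * u + (S v c + ((x : ℕ) - c i) * q ^ a i)) /
            q ^ (a i0 + (W + h)) % T) = _
          rw [← add_assoc, Law_state_add hq (habove i hi) hTx]
        rw [h1, Law_R_add hq (habove i hi)]
    · intro v c i hi x
      rw [mem_insert, not_or] at hi
      show Avg_R q (W + h) (a i0) (S v (update c i x))
        (Law_p q W h (f (S v (update c i x))) (update c i x i0)) = _
      rw [hind v c i hi.2 x, update_of_ne (Ne.symm hi.1)]
    · intro Ψ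
      have hm : ((q ^ (W + h) : ℕ) : ℂ) ≠ 0 := by
        have : 0 < q ^ (W + h) := by positivity
        exact_mod_cast this.ne'
      have h1 : ∀ v, ((q ^ (W + h) : ℕ) : ℂ) * ∑ c : ι → Fin (q ^ (W + h)),
          Ψ (Avg_R q (W + h) (a i0) (S v c) (Law_p q W h (f (S v c)) (c i0))) =
          ∑ c : ι → Fin (q ^ (W + h)), ∑ x : Fin (q ^ (W + h)),
            Ψ (Avg_R q (W + h) (a i0) (S v c) (Law_p q W h (f (S v c)) x)) := by
        intro v
        rw [Avg_coord i0]
        refine Finset.sum_congr rfl fun c _ => Finset.sum_congr rfl fun x _ => ?_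
        rw [hind v c i0 hi0 x, update_self]
      have h2 := havg (fun u => ∑ x : Fin (q ^ (W + h)),
        Ψ (Avg_R q (W + h) (a i0) u (Law_p q W h (f u) x)))
      rw [Law_single hq (hK i0)] at h2
      have h3 : ((q ^ (W + h) : ℕ) : ℂ) * ((((q ^ (W + h)) ^ Fintype.card ι : ℕ) : ℂ) *
          ∑ v ∈ range (q ^ K), Ψ v) = ((q ^ (W + h) : ℕ) : ℂ) *
          ∑ v ∈ range (q ^ K), ∑ c : ι → Fin (q ^ (W + h)),
            Ψ (Avg_R q (W + h) (a i0) (S v c) (Law_p q W h (f (S v c)) (c i0))) := by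
        have h4 : ((q ^ (W + h) : ℕ) : ℂ) *
            ∑ v ∈ range (q ^ K), ∑ c : ι → Fin (q ^ (W + h)),
              Ψ (Avg_R q (W + h) (a i0) (S v c) (Law_p q W h (f (S v c)) (c i0))) =
            ∑ v ∈ range (q ^ K), ∑ c : ι → Fin (q ^ (W + h)), ∑ x : Fin (q ^ (W + h)),
              Ψ (Avg_R q (W + h) (a i0) (S v c) (Law_p q W h (f (S v c)) x)) := by
          rw [Finset.mul_sum]
          exact Finset.sum_congr rfl fun v _ => h1 v
        rw [h4, ← h2]
        ring
      exact mul_left_cancel₀ hm h3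

theorem avg_state (q W h T K : ℕ) (hq : 2 ≤ q) (hT : 1 ≤ T) (hTh : T ≤ q ^ h) {ι : Type}
    [Fintype ι] [DecidableEq ι] (a : ι → ℕ)
    (hsep : ∀ i j, i ≠ j → a i + (W + h) ≤ a j ∨ a j + (W + h) ≤ a i)
    (hK : ∀ i, a i + (W + h) ≤ K) (u : ℕ) :
    ∃ S : ℕ → (ι → Fin (q ^ (W + h))) → ℕ,
      (∀ v c, v < q ^ K → S v c < q ^ K) ∧
      (∀ v c i, (c i : ℕ) < q ^ W → S v c / q ^ a i % q ^ W = (c i : ℕ) ∧
        (q ^ K * u + S v c) / q ^ (a i + W) % T = 0) ∧
      (∀ v c i (x : Fin (q ^ (W + h))), (c i : ℕ) < q ^ W → (x : ℕ) < q ^ W →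
        (c i : ℕ) ≤ x → T ∣ (x : ℕ) - c i →
        S v (update c i x) = S v c + ((x : ℕ) - c i) * q ^ a i) ∧
      ∀ Ψ : ℕ → ℂ, (((q ^ (W + h)) ^ Fintype.card ι : ℕ) : ℂ) * ∑ v ∈ range (q ^ K), Ψ v =
        ∑ v ∈ range (q ^ K), ∑ c, Ψ (S v c) := by
  obtain ⟨S, h1, h2, h3, -, h5⟩ := Law_main q W h T K hq hT hTh a hsep hK u univ
  exact ⟨S, h1, fun v c i => h2 v c i (mem_univ i), fun v c i => h3 v c i (mem_univ i), h5⟩

end Pool.Agent.Lib.MP_3e612f_nt.EM
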