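import Pool.Agent.Lib.MP_3e612f_nt.DI.AllM.RepS
import Pool.Agent.Lib.MP_3e612f_nt.DI.Ph
import Pool.Agent.Lib.MP_3e612f_nt.DI.BMul

/-!
The average of a phase with a frozen factor over the contents of finitely many windows; the mixed
differences of the phase are given by a multilinear form of gadget vectors.
-/

set_option autoImplicit false
set_option linter.unusedSectionVars false

namespace Pool.Agent.Lib.MP_3e612f_nt.EM

open Finset
open Pool.Agent.Lib.MP_3e612f_nt.PI (ee)
open Pool.Agent.Lib.MP_3e612f_nt.DI (MAdd emb emb_add ee_emb av vec bi mixD dltD prod_degS)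

/-- restriction to the indices with `P` -/
def ProdF_cut {ι E : Type} [AddCommGroup E] (P : ι → Prop) [DecidablePred P] :
    (ι → E) →+ (ι → E) where
  toFun u i := if P i then u i else 0
  map_zero' := by
    funext i
    simp
  map_add' u v := by
    funext i
    by_cases h : P i <;> simp [h]

theorem ProdF_madd {ℓ : ℕ} {C E R : Type} [Fintype C] [DecidableEq C] [AddCommGroup E] [CommRing R]
    (T : R →+ ZMod ℓ) (F : C → E →+ R) : MAdd univ fun u : C → E => T (∏ j, F j (u j)) := by
  intro x j
  refine ⟨fun _ u v => ?_, fun h => absurd (mem_univ j) h⟩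
  have h1 : ∀ u : E, ∏ i, F i (Function.update x j u i) = F j u * ∏ i ∈ univ.erase j, F i (x i) := by
    intro u
    rw [← mul_prod_erase univ _ (mem_univ j), Function.update_self]
    congr 1
    refine prod_congr rfl fun i hi => ?_
    rw [Function.update_of_ne (ne_of_mem_erase hi)]
  simp only [h1, map_add, add_mul]

theorem prod_cubeF (M Q ℓ : ℕ) [NeZero M] [NeZero ℓ] (hℓ : ℓ ∣ M) (hQ : 2 ≤ Q) : ∃ R0 : ℕ, 1 ≤ R0 ∧
    ∀ (m1 d : ℕ), 0 < d → ∀ (ι R : Type) [Fintype ι] [DecidableEq ι] [CommRing R]
      [Algebra (ZMod ℓ) R] (z z' : ι → Fin Q) (col : ι → Fin d) (β : (ι → Fin Q) → ℂ)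
      (Φ : (ι → Fin Q) → ZMod M) (𝔅 : (Fin d → ι → ℤ) → ZMod M) (T : R →+ ZMod ℓ) (G : ι → R),
      (∀ i, z i ≠ z' i) → (∀ c, ‖β c‖ ≤ 1) → MAdd univ 𝔅 →
      (∀ x, m1 • 𝔅 x = emb M (T (∏ j, ∑ i, (x j i : ZMod ℓ) • G i))) →
      (∀ c c' : ι → Fin Q,
        (∀ i, c i = c' i ∨ ((c i = z i ∨ c i = z' i) ∧ (c' i = z i ∨ c' i = z' i))) →
        β c = β c' ∧
        ∑ I : Finset (Fin d), (-1 : ℤ) ^ I.card • Φ (fun i => if col i ∈ I then c' i else c i) =
          𝔅 fun j i => if col i = j then
            (if c i = z' i then 1 else 0) - (if c' i = z' i then 1 else 0) else 0) →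
      ∀ (k s : ℕ) (ε' : ℝ), 0 ≤ ε' → ∀ blk : ι → Fin k,
        (∀ b, (univ.filter fun i => blk i = b).card ≤ s) →
        (∀ b, bi T univ (fun j => vec (ℓ := ℓ) G (univ.filter fun i => blk i = b ∧ col i = j)) ≤
          ε') →
        ‖av fun c => β c * ee (Φ c)‖ ^ 2 ^ d ≤ (1 - ((R0 : ℝ) ^ s)⁻¹) ^ k + ε' := by
  classical
  obtain ⟨R0, hR, hprod⟩ := prod_degS M Q ℓ hQ
  refine ⟨R0, hR, ?_⟩
  intro m1 d hd ι R _ _ _ _ z z' col β Φ 𝔅 T G hz hβ h𝔅 hm1 hc k s ε' hε blk hs hb
  have : Nonempty (Fin d) := ⟨⟨0, hd⟩⟩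
  let BB : (Fin d → ι → ℤ) → ZMod M := fun x => 𝔅 fun j => ProdF_cut (fun i => col i = j) (x j)
  let F : Fin d → (ι → ZMod ℓ) →+ R := fun j =>
    (vec (ℓ := ℓ) G univ).comp (ProdF_cut fun i => col i = j)
  let Bb : (Fin d → ι → ZMod ℓ) → ZMod ℓ := fun u => T (∏ j, F j (u j))
  have hmix : ∀ (c : ι → Fin Q) (b : Fin d → ι → Bool) (i : ι), (mixD col z z' c b i = c i) ∨
      ((c i = z i ∨ c i = z' i) ∧ (mixD col z z' c b i = z i ∨ mixD col z z' c b i = z' i)) := by
    intro c b i
    unfold mixD
    by_cases h : c i = z i ∨ c i = z' i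
    · right
      refine ⟨h, ?_⟩
      rw [if_pos h]
      by_cases h2 : b (col i) i = true
      · rw [if_pos h2]
        exact Or.inr rfl
      · rw [if_neg h2]
        exact Or.inl rfl
    · left
      rw [if_neg h]
  have hrelmix : ∀ (c : ι → Fin Q) (b b' : Fin d → ι → Bool), ∀ i,
      mixD col z z' c b i = mixD col z z' c b' i ∨
      ((mixD col z z' c b i = z i ∨ mixD col z z' c b i = z' i) ∧
        (mixD col z z' c b' i = z i ∨ mixD col z z' c b' i = z' i)) := by
    intro c b b' i
    rcases hmix c b i with h | h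
    · rcases hmix c b' i with h' | h'
      · left
        rw [h, h']
      · right
        rw [h]
        exact h'
    · rcases hmix c b' i with h' | h'
      · right
        rw [h']
        exact ⟨h.2, h.1⟩
      · exact Or.inr ⟨h.2, h'.2⟩
  have key := hprod (Fin d) ι (fun _ => Fin Q) (fun _ => le_of_eq (Fintype.card_fin Q)) k s m1 col
    blk hs z z' hz Φ β hβ ?_ BB ?_ ?_ Bb (ProdF_madd T F) ?_ ?_ ε' hε ?_
  · rwa [Fintype.card_fin] at key
  · intro c b
    refine (hc _ _ fun i => ?_).1
    rcases hmix c b i with h | h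
    · exact Or.inl h
    · exact Or.inr ⟨h.2, h.1⟩
  · exact h𝔅.comp fun j => ProdF_cut fun i => col i = j
  · intro x y hxy
    have h1 : (fun j => ProdF_cut (fun i => col i = j) (x j)) =
        fun j => ProdF_cut (fun i => col i = j) (y j) := by
      funext j i
      change (if col i = j then x j i else 0) = if col i = j then y j i else 0
      by_cases h : col i = j
      · rw [if_pos h, if_pos h, ← h, hxy]
      · rw [if_neg h, if_neg h]
    change 𝔅 _ = 𝔅 _
    rw [h1]
  · intro x
    change ee (m1 • 𝔅 fun j => ProdF_cut (fun i => col i = j) (x j)) = ee (T _)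
    rw [hm1, ee_emb hℓ]
    congr 3
    funext j
    change _ = ∑ i, (if col i = j then ((x j i : ℤ) : ZMod ℓ) else 0) • G i
    refine sum_congr rfl fun i _ => ?_
    change (((if col i = j then x j i else 0 : ℤ) : ZMod ℓ)) • G i = _
    by_cases h : col i = j
    · rw [if_pos h, if_pos h]
    · rw [if_neg h, if_neg h, Int.cast_zero]
  · intro c b b'
    have h1 := (hc _ _ (hrelmix c b b')).2
    have h2 : ∀ I : Finset (Fin d), (fun i => if col i ∈ I then mixD col z z' c b' i else
        mixD col z z' c b i) = mixD col z z' c (I.piecewise b' b) := by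
      intro I
      funext i
      unfold mixD
      by_cases h : col i ∈ I
      · rw [if_pos h, piecewise_eq_of_mem _ _ _ h]
      · rw [if_neg h, piecewise_eq_of_notMem _ _ _ h]
    simp only [h2] at h1
    rw [h1]
    change _ = 𝔅 _
    congr 1
    funext j i
    change _ = if col i = j then dltD z z' c b b' j i else 0
    by_cases h : col i = j
    · rw [if_pos h, if_pos h]
      subst h
      unfold mixD dltD
      by_cases h3 : c i = z i ∨ c i = z' i
      · rw [if_pos h3, if_pos h3, if_pos h3]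
        by_cases h4 : b (col i) i = true <;> by_cases h5 : b' (col i) i = true <;>
          simp [h4, h5, hz i]
      · rw [if_neg h3, if_neg h3, if_neg h3, sub_self]
    · rw [if_neg h, if_neg h]
  · intro b
    refine le_trans (le_of_eq ?_) (hb b)
    unfold bi
    congr 2
    funext u
    change ee (T (∏ j, F j fun v => if blk v = b then u j v else 0)) = ee (T _)
    congr 2
    refine Finset.prod_congr rfl fun j _ => ?_
    change ∑ i, (if col i = j then (if blk i = b then u j i else 0) else 0) • G i =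
      ∑ i ∈ univ.filter (fun i => blk i = b ∧ col i = j), u j i • G i
    rw [sum_filter]
    refine sum_congr rfl fun i _ => ?_
    by_cases h : col i = j
    · by_cases h' : blk i = b
      · rw [if_pos h, if_pos h', if_pos ⟨h', h⟩]
      · rw [if_pos h, if_neg h', if_neg fun h2 => h' h2.1, zero_smul]
    · rw [if_neg h, if_neg fun h2 => h h2.2, zero_smul]

end Pool.Agent.Lib.MP_3e612f_nt.EM
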