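import Pool.Agent.Lib.MP_3e612f_nt.EM.Cube
import Pool.Agent.Lib.MP_3e612f_nt.EM.Law
import Pool.Agent.Lib.MP_3e612f_nt.EM.ProdF
import Pool.Agent.Lib.MP_3e612f_nt.DI.CorrG

/-!
Many boxes of gadgets of small bias make the correlation of a pair of functions small (T-form).
-/

set_option autoImplicit false

namespace Pool.Agent.Lib.MP_3e612f_nt.EM

open Finset
open Pool.Agent.Lib.MP_3e612f_nt.PI (ee mc)
open Pool.Agent.Lib.MP_3e612f_nt.DI (MAdd mlt emb emb_add Tm pt av vec bi madd_mlt Tm_mlt mlt_map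
  bi_restrict CorrG_emb CorrG_sum CorrG_pull)

set_option linter.unusedSectionVars false

section
variable {q T g l L : ℕ} {z0 x0 : ℕ → ℕ → ℕ} {s s' : ℕ} {ι : Type} [Fintype ι]

/-- the combination of the gadget vectors, as a homomorphism -/
def Corr_hom (q T g l L : ℕ) (z0 x0 : ℕ → ℕ → ℕ) (s s' u t : ℕ) (o : ι → ℕ × ℕ) :
    (ι → ℤ) →+ (Lt (q * T) L → ℤ) where
  toFun δ x := ∑ i, δ i * gv q T g l L z0 x0 s s' u t (o i) x
  map_zero' := by
    funext x
    simp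
  map_add' δ δ' := by
    funext x
    simp only [Pi.add_apply, add_mul, sum_add_distrib]

theorem Corr_madd {G : Type} [AddCommGroup G] {d : ℕ} (p r : ℕ) (o : ι → ℕ × ℕ)
    (t t' : Finset (Lt (q * T) L) → G) :
    MAdd univ (BB q T g l L z0 x0 s s' p r (d := d) o t t') := by
  refine MAdd.add ?_ ?_
  · exact (madd_mlt t).comp fun _ => Corr_hom q T g l L z0 x0 s s' s p o
  · exact (madd_mlt t').comp fun _ => Corr_hom q T g l L z0 x0 s s' s' r o

theorem Corr_BB {M ℓ m1 d : ℕ} [NeZero ℓ] [NeZero M] (hℓ : ℓ ∣ M) (p r : ℕ)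
    {P H : ℕ} (v : ι → Fin P × Fin H) (t t' : Finset (Lt (q * T) L) → ZMod M)
    (τ τ' : Finset (Lt (q * T) L) → ZMod ℓ) (ht : ∀ S, m1 • t S = emb M (τ S))
    (ht' : ∀ S, m1 • t' S = emb M (τ' S)) (x : Fin d → ι → ℤ) :
    m1 • BB q T g l L z0 x0 s s' p r (fun i => (((v i).1 : ℕ), ((v i).2 : ℕ))) t t' x =
      emb M (T2 (Tm d τ) (Tm d τ')
        (∏ j, ∑ i, (x j i : ZMod ℓ) • Gv q T g l L z0 x0 s s' p r ℓ (v i))) := by
  have h1 : ∀ (t : Finset (Lt (q * T) L) → ZMod M) (τ : Finset (Lt (q * T) L) → ZMod ℓ),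
      (∀ S, m1 • t S = emb M (τ S)) → ∀ h : Fin d → Lt (q * T) L → ℤ, m1 • mlt t h =
      CorrG_emb hℓ (Tm d τ (∏ j, ∑ y, (h j y : ZMod ℓ) • pt y)) := by
    intro t τ ht h
    rw [Tm_mlt (by simp), ← mlt_map]
    have h2 : m1 • mlt t h = nsmulAddMonoidHom m1 (mlt t h) := rfl
    rw [h2, ← mlt_map]
    congr 1
    funext S
    exact ht S
  have h3 : ∀ u w : ℕ, ∀ j, (∑ i, (x j i : ZMod ℓ) •
      ∑ y, (gv q T g l L z0 x0 s s' u w (((v i).1 : ℕ), ((v i).2 : ℕ)) y : ZMod ℓ) • pt y) =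
      ∑ y, ((∑ i, x j i * gv q T g l L z0 x0 s s' u w (((v i).1 : ℕ), ((v i).2 : ℕ)) y : ℤ) :
        ZMod ℓ) • (pt y : MvPolynomial (Lt (q * T) L) (ZMod ℓ)) := by
    intro u w j
    simp only [smul_sum, smul_smul]
    rw [sum_comm]
    refine sum_congr rfl fun y _ => ?_
    rw [← sum_smul]
    push_cast
    rfl
  have hfst : (∏ j, ∑ i, (x j i : ZMod ℓ) • Gv q T g l L z0 x0 s s' p r ℓ (v i)).1 =
      ∏ j, ∑ y, ((∑ i, x j i * gv q T g l L z0 x0 s s' s p (((v i).1 : ℕ), ((v i).2 : ℕ)) y : ℤ) :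
        ZMod ℓ) • (pt y : MvPolynomial (Lt (q * T) L) (ZMod ℓ)) := by
    rw [Prod.fst_prod]
    refine prod_congr rfl fun j _ => ?_
    rw [Prod.fst_sum, ← h3 s p j]
    rfl
  have hsnd : (∏ j, ∑ i, (x j i : ZMod ℓ) • Gv q T g l L z0 x0 s s' p r ℓ (v i)).2 =
      ∏ j, ∑ y, ((∑ i, x j i * gv q T g l L z0 x0 s s' s' r (((v i).1 : ℕ), ((v i).2 : ℕ)) y : ℤ) :
        ZMod ℓ) • (pt y : MvPolynomial (Lt (q * T) L) (ZMod ℓ)) := by
    rw [Prod.snd_prod]
    refine prod_congr rfl fun j _ => ?_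
    rw [Prod.snd_sum, ← h3 s' r j]
    rfl
  have h4 : emb M (T2 (Tm d τ) (Tm d τ') (∏ j, ∑ i, (x j i : ZMod ℓ) •
      Gv q T g l L z0 x0 s s' p r ℓ (v i))) = CorrG_emb hℓ
        (Tm d τ (∏ j, ∑ i, (x j i : ZMod ℓ) • Gv q T g l L z0 x0 s s' p r ℓ (v i)).1 +
          Tm d τ' (∏ j, ∑ i, (x j i : ZMod ℓ) • Gv q T g l L z0 x0 s s' p r ℓ (v i)).2) := rfl
  rw [h4, hfst, hsnd, map_add, ← h1 t τ ht, ← h1 t' τ' ht']
  unfold BB
  rw [smul_add]

end

/-- many boxes of gadgets of small bias make the correlation of the pair `F n = β n * ee (FP t n + g2 n)`,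
`F' n = β' n * ee (FP t' n + g2' n)` small -/
theorem corr_gad (M q W ℓ : ℕ) [NeZero M] [NeZero ℓ] (hℓ : ℓ ∣ M) (hq : 2 ≤ q) (hW : 1 ≤ W) :
    ∃ R0 : ℕ, 1 ≤ R0 ∧
    ∀ (T g l h H p r : ℕ) (z0 x0 : ℕ → ℕ → ℕ), 1 ≤ T → T ≤ q ^ h → g + l + h = W →
      GadT q T g l H p r z0 x0 →
    ∀ (m1 d : ℕ), 0 < d → ∀ (L s s' : ℕ) (t t' : Finset (Lt (q * T) L) → ZMod M)
      (τ τ' : Finset (Lt (q * T) L) → ZMod ℓ) (g2 g2' : ℕ → ZMod M) (I I' : Finset ℕ)
      (β β' : ℕ → ℂ), (∀ S, S.card ≠ d → t S = 0) → (∀ S, S.card ≠ d → t' S = 0) →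
      (∀ S, m1 • t S = emb M (τ S)) → (∀ S, m1 • t' S = emb M (τ' S)) →
      IsPL q (q * T) (d - 1) L g2 → IsPL q (q * T) (d - 1) L g2' →
      (∀ n, ‖β n‖ ≤ 1) → (∀ n, ‖β' n‖ ≤ 1) → DepL q (q * T) I β → DepL q (q * T) I' β' →
      ∀ (K P k s1 : ℕ) (ε' : ℝ), P + W = K + 1 → 0 ≤ ε' →
      ∀ V : Fin k → Fin d → Finset (Fin P × Fin H),
        (∀ b j, ∀ v ∈ V b j, ∀ w ∈ V b j, v ≠ w → (v.1 : ℕ) + W ≤ w.1 ∨ (w.1 : ℕ) + W ≤ v.1) →
        (∀ b b' j j', (b, j) ≠ (b', j') → ∀ v ∈ V b j, ∀ w ∈ V b' j',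
          (v.1 : ℕ) + W ≤ w.1 ∨ (w.1 : ℕ) + W ≤ v.1) →
        (∀ b j, (V b j).card ≤ s1) →
        (∀ b j, ∀ v ∈ V b j, ∀ i ∈ I, i < (v.1 : ℕ) + g ∨ (v.1 : ℕ) + g + l ≤ i) →
        (∀ b j, ∀ v ∈ V b j, ∀ i ∈ I', i < (v.1 : ℕ) + g ∨ (v.1 : ℕ) + g + l ≤ i) →
        (∀ b, bi (T2 (Tm d τ) (Tm d τ')) univ
          (fun j => vec (ℓ := ℓ) (Gv q T g l L z0 x0 s s' p r ℓ) (V b j)) ≤ ε') →
        ∀ u : ℕ, ‖∑ v ∈ range (q ^ K),
            (β (p * (q ^ K * u + v) + s) * ee (FP q (q * T) L t (p * (q ^ K * u + v) + s) +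
              g2 (p * (q ^ K * u + v) + s))) *
            (β' (r * (q ^ K * u + v) + s') * ee (FP q (q * T) L t' (r * (q ^ K * u + v) + s') +
              g2' (r * (q ^ K * u + v) + s')))‖ ^ 2 ^ d ≤
          ((q : ℝ) ^ K) ^ 2 ^ d * ((1 - ((R0 : ℝ) ^ (d * s1))⁻¹) ^ k + ε') := by
  classical
  have hQ : 2 ≤ q ^ W := by
    calc 2 ≤ q := hq
      _ = q ^ 1 := (pow_one q).symm
      _ ≤ q ^ W := Nat.pow_le_pow_right (by omega) hW
  obtain ⟨R0, hR, hprod⟩ := prod_cubeF M (q ^ W) ℓ hℓ hQ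
  refine ⟨R0, hR, ?_⟩
  intro T g l h H p r z0 x0 hT hTh hgl hG m1 d hd L s s' t t' τ τ' g2 g2' I I' β β' ht ht' htm htm'
    hg2 hg2' hβ hβ' hβI hβI' K P k s1 ε' hPK hε V hsep1 hsep2 hcard hI hI' hbias u
  subst hgl
  let ι := {x : Fin k × Fin d × (Fin P × Fin H) // x.2.2 ∈ V x.1 x.2.1}
  let gad : ι → Fin P × Fin H := fun i => i.1.2.2
  let o : ι → ℕ × ℕ := fun i => (((gad i).1 : ℕ), ((gad i).2 : ℕ))
  let col : ι → Fin d := fun i => i.1.2.1
  let bk : ι → Fin k := fun i => i.1.1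
  have ho : ∀ i, (o i).2 < H := fun i => (gad i).2.2
  have hsep : ∀ i j, i ≠ j → (o i).1 + (g + l + h) ≤ (o j).1 ∨ (o j).1 + (g + l + h) ≤ (o i).1 := by
    rintro ⟨⟨b, j, v⟩, hv⟩ ⟨⟨b', j', w⟩, hw⟩ hne
    by_cases h : (b, j) = (b', j')
    · rw [Prod.mk.injEq] at h
      obtain ⟨rfl, rfl⟩ := h
      have hvw : v ≠ w := fun e => hne (by subst e; rfl)
      exact hsep1 b j v hv w hw hvw
    · exact hsep2 b b' j j' h v hv w hw
  have hsepl : ∀ i j, i ≠ j → (o i).1 + (g + l) ≤ (o j).1 ∨ (o j).1 + (g + l) ≤ (o i).1 := by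
    intro i j hij
    rcases hsep i j hij with h | h
    · left; omega
    · right; omega
  have ha : ∀ i, (o i).1 + (g + l + h) ≤ K := fun i => by
    have h1 := (gad i).1.2
    change ((gad i).1 : ℕ) + (g + l + h) ≤ K
    omega
  obtain ⟨S, hS1, hS2, hS3, hS4⟩ := avg_state q (g + l) h T K hq hT hTh
    (fun i => (o i).1) hsep ha u
  have hz1 : ∀ i, zT q T g l z0 x0 s s' (o i) + T * q ^ g < q ^ (g + l) := fun i =>
    zT_lt hG s s' (ho i)
  have hz0 : ∀ i, zT q T g l z0 x0 s s' (o i) < q ^ (g + l) := fun i =>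
    lt_of_le_of_lt (Nat.le_add_right _ _) (hz1 i)
  have hWW : q ^ (g + l) ≤ q ^ (g + l + h) := Nat.pow_le_pow_right (by omega) (by omega)
  have hgD : 0 < T * q ^ g := Nat.mul_pos hT (pow_pos (by omega) _)
  let z : ι → Fin (q ^ (g + l + h)) := fun i =>
    ⟨zT q T g l z0 x0 s s' (o i), lt_of_lt_of_le (hz0 i) hWW⟩
  let z' : ι → Fin (q ^ (g + l + h)) := fun i =>
    ⟨zT q T g l z0 x0 s s' (o i) + T * q ^ g, lt_of_lt_of_le (hz1 i) hWW⟩
  have hzz : ∀ i, z i ≠ z' i := by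
    intro i h
    have h1 := congrArg Fin.val h
    simp only [z, z'] at h1
    omega
  have hze : ∀ (c : ι → Fin (q ^ (g + l + h))) i, (c i = z i) ↔
      (c i : ℕ) = zT q T g l z0 x0 s s' (o i) := fun c i => Fin.ext_iff
  have hze' : ∀ (c : ι → Fin (q ^ (g + l + h))) i, (c i = z' i) ↔
      (c i : ℕ) = zT q T g l z0 x0 s s' (o i) + T * q ^ g := fun c i => Fin.ext_iff
  have hBB := Corr_BB (q := q) (T := T) (g := g) (l := l) (L := L) (z0 := z0) (x0 := x0) (s := s)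
    (s' := s') (m1 := m1) (d := d) hℓ p r gad t t' τ τ' htm htm'
  have hV' : ∀ b j (i : ι), i ∈ univ.filter (fun i => bk i = b ∧ col i = j) ↔
      i.1.1 = b ∧ i.1.2.1 = j := fun b j i => by
    simp [bk, col]
  have hgadV : ∀ b j (i : ι), i ∈ univ.filter (fun i => bk i = b ∧ col i = j) →
      gad i ∈ V b j := fun b j i hi => by
    obtain ⟨h1, h2⟩ := (hV' b j i).1 hi
    have h3 := i.2
    rw [h1, h2] at h3
    exact h3
  have hginj : ∀ b j, Set.InjOn gad (univ.filter fun i => bk i = b ∧ col i = j : Finset ι) := by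
    intro b j x hx y hy hxy
    obtain ⟨h1, h2⟩ := (hV' b j x).1 (mem_coe.1 hx)
    obtain ⟨h3, h4⟩ := (hV' b j y).1 (mem_coe.1 hy)
    apply Subtype.ext
    refine Prod.ext (h1.trans h3.symm) (Prod.ext (h2.trans h4.symm) hxy)
  have hgsurj : ∀ b j, Set.SurjOn gad (univ.filter fun i => bk i = b ∧ col i = j : Finset ι)
      (V b j) := by
    intro b j v hv
    exact ⟨⟨(b, j, v), mem_coe.1 hv⟩, mem_coe.2 ((hV' b j _).2 ⟨rfl, rfl⟩), rfl⟩
  have hbias' : ∀ b, bi (T2 (Tm d τ) (Tm d τ')) univ (fun j => vec (ℓ := ℓ)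
      (fun i => Gv q T g l L z0 x0 s s' p r ℓ (gad i))
      (univ.filter fun i => bk i = b ∧ col i = j)) ≤ ε' := by
    intro b
    have hne : (univ : Finset (Fin d)).Nonempty := ⟨⟨0, hd⟩, mem_univ _⟩
    refine (bi_restrict hne (T2 (Tm d τ) (Tm d τ')) _ fun _ => CorrG_pull gad).trans ?_
    refine le_trans (le_of_eq ?_) (hbias b)
    congr 1
    funext j
    refine AddMonoidHom.ext fun h => ?_
    change ∑ i ∈ univ.filter (fun i => bk i = b ∧ col i = j),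
      h (gad i) • Gv q T g l L z0 x0 s s' p r ℓ (gad i) =
      ∑ v ∈ V b j, h v • Gv q T g l L z0 x0 s s' p r ℓ v
    exact sum_nbij gad (hgadV b j) (hginj b j) (hgsurj b j) fun _ _ => rfl
  have hcards : ∀ b, (univ.filter fun i => bk i = b).card ≤ d * s1 := by
    intro b
    have h1 : (univ.filter fun i => bk i = b) ⊆
        univ.biUnion fun j => univ.filter fun i => bk i = b ∧ col i = j := by
      intro i hi
      rw [mem_biUnion]
      exact ⟨col i, mem_univ _, mem_filter.2 ⟨mem_univ _, (mem_filter.1 hi).2, rfl⟩⟩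
    refine (card_le_card h1).trans (card_biUnion_le.trans ?_)
    refine (sum_le_card_nsmul _ _ s1 fun j _ => ?_).trans (le_of_eq ?_)
    · exact (card_le_card_of_injOn gad (hgadV b j) (hginj b j)).trans (hcard b j)
    · rw [card_univ, Fintype.card_fin, smul_eq_mul]
  have hone : ∀ v, ‖av fun c : ι → Fin (q ^ (g + l + h)) =>
      (β (p * (q ^ K * u + S v c) + s) * β' (r * (q ^ K * u + S v c) + s')) *
      ee ((FP q (q * T) L t (p * (q ^ K * u + S v c) + s) + g2 (p * (q ^ K * u + S v c) + s)) +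
        (FP q (q * T) L t' (r * (q ^ K * u + S v c) + s') +
          g2' (r * (q ^ K * u + S v c) + s')))‖ ^ 2 ^ d ≤
      (1 - ((R0 : ℝ) ^ (d * s1))⁻¹) ^ k + ε' := by
    intro v
    have hN2 : ∀ (c : ι → Fin (q ^ (g + l + h))) i, (c i : ℕ) < q ^ (g + l) →
        (q ^ K * u + S v c) / q ^ (o i).1 % (q ^ (g + l) * T) = c i := by
      intro c i hc
      obtain ⟨h1, h2⟩ := hS2 v c i hc
      rw [Nat.mod_mul, Nat.div_div_eq_div_mul, ← pow_add, h2, mul_zero, add_zero]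
      have h3 : (o i).1 + (g + l) ≤ K := by
        have := ha i
        omega
      obtain ⟨e, he⟩ := Nat.exists_eq_add_of_le h3
      have h4 : q ^ K * u + S v c = S v c + q ^ (o i).1 * (q ^ (g + l) * (q ^ e * u)) := by
        rw [he, pow_add, pow_add]
        ring
      rw [h4, Nat.add_mul_div_left _ _ (pow_pos (by omega) _), Nat.add_mul_mod_self_left]
      exact h1
    have hN3 : ∀ (c : ι → Fin (q ^ (g + l + h))) i (x : Fin (q ^ (g + l + h))),
        (c i : ℕ) < q ^ (g + l) → (x : ℕ) < q ^ (g + l) → (c i : ℕ) ≤ x → T ∣ (x : ℕ) - c i →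
        q ^ K * u + S v (Function.update c i x) =
          q ^ K * u + S v c + ((x : ℕ) - c i) * q ^ (o i).1 := by
      intro c i x h1 h2 h3 h4
      rw [hS3 v c i x h1 h2 h3 h4]
      exact (Nat.add_assoc _ _ _).symm
    refine hprod m1 d hd ι (MvPolynomial (Lt (q * T) L) (ZMod ℓ) ×
      MvPolynomial (Lt (q * T) L) (ZMod ℓ)) z z' col
      (fun c => β (p * (q ^ K * u + S v c) + s) * β' (r * (q ^ K * u + S v c) + s'))
      (fun c => (FP q (q * T) L t (p * (q ^ K * u + S v c) + s) +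
        g2 (p * (q ^ K * u + S v c) + s)) + (FP q (q * T) L t' (r * (q ^ K * u + S v c) + s') +
          g2' (r * (q ^ K * u + S v c) + s')))
      (BB q T g l L z0 x0 s s' p r o t t') (T2 (Tm d τ) (Tm d τ'))
      (fun i => Gv q T g l L z0 x0 s s' p r ℓ (gad i)) hzz ?_ (Corr_madd p r o t t') hBB ?_
      k (d * s1) ε' hε bk hcards hbias'
    · intro c
      rw [norm_mul]
      exact mul_le_one₀ (hβ _) (norm_nonneg _) (hβ' _)
    · intro c c' hcc
      simp only [hze, hze'] at hcc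
      simp only [hze']
      refine ⟨?_, ?_⟩
      · congr 1
        · exact frozen_pair hq hT hG (Or.inl ⟨rfl, rfl⟩) o ho hsepl hWW
            (fun c => q ^ K * u + S v c) hN2 hN3 c c' hcc hβI
            fun j hj i => hI i.1.1 i.1.2.1 (gad i) i.2 j hj
        · exact frozen_pair hq hT hG (Or.inr ⟨rfl, rfl⟩) o ho hsepl hWW
            (fun c => q ^ K * u + S v c) hN2 hN3 c c' hcc hβI'
            fun j hj i => hI' i.1.1 i.1.2.1 (gad i) i.2 j hj
      · exact cube_pair hq hT hG hd L s s' t t' ht ht' g2 g2' hg2 hg2' o ho hsepl hWW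
          (fun c => q ^ K * u + S v c) hN2 hN3 col c c' hcc
  have hqK : 0 < q ^ K := pow_pos (by omega) _
  have hmul : ∀ x y : ZMod M, ee (x + y) = ee x * ee y := fun x y =>
    Pool.Agent.Lib.MP_3e612f_nt.DI.BMul_ee_add x y
  have hsum : ∑ v ∈ range (q ^ K),
      (β (p * (q ^ K * u + v) + s) * ee (FP q (q * T) L t (p * (q ^ K * u + v) + s) +
        g2 (p * (q ^ K * u + v) + s))) *
      (β' (r * (q ^ K * u + v) + s') * ee (FP q (q * T) L t' (r * (q ^ K * u + v) + s') +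
        g2' (r * (q ^ K * u + v) + s'))) =
      ∑ v ∈ range (q ^ K), av fun c : ι → Fin (q ^ (g + l + h)) =>
      (β (p * (q ^ K * u + S v c) + s) * β' (r * (q ^ K * u + S v c) + s')) *
      ee ((FP q (q * T) L t (p * (q ^ K * u + S v c) + s) + g2 (p * (q ^ K * u + S v c) + s)) +
        (FP q (q * T) L t' (r * (q ^ K * u + S v c) + s') +
          g2' (r * (q ^ K * u + S v c) + s'))) := by
    have h1 := hS4 fun v => (β (p * (q ^ K * u + v) + s) * β' (r * (q ^ K * u + v) + s')) *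
      ee ((FP q (q * T) L t (p * (q ^ K * u + v) + s) + g2 (p * (q ^ K * u + v) + s)) +
        (FP q (q * T) L t' (r * (q ^ K * u + v) + s') + g2' (r * (q ^ K * u + v) + s')))
    have h2 : (((q ^ (g + l + h)) ^ Fintype.card ι : ℕ) : ℂ) ≠ 0 := by
      have : 0 < (q ^ (g + l + h)) ^ Fintype.card ι := pow_pos (pow_pos (by omega) _) _
      exact_mod_cast this.ne'
    apply mul_left_cancel₀ h2
    have h3 : ∑ v ∈ range (q ^ K),
      (β (p * (q ^ K * u + v) + s) * ee (FP q (q * T) L t (p * (q ^ K * u + v) + s) +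
        g2 (p * (q ^ K * u + v) + s))) *
      (β' (r * (q ^ K * u + v) + s') * ee (FP q (q * T) L t' (r * (q ^ K * u + v) + s') +
        g2' (r * (q ^ K * u + v) + s'))) = ∑ v ∈ range (q ^ K),
      (β (p * (q ^ K * u + v) + s) * β' (r * (q ^ K * u + v) + s')) *
      ee ((FP q (q * T) L t (p * (q ^ K * u + v) + s) + g2 (p * (q ^ K * u + v) + s)) +
        (FP q (q * T) L t' (r * (q ^ K * u + v) + s') + g2' (r * (q ^ K * u + v) + s'))) := by
      refine sum_congr rfl fun v _ => ?_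
      rw [hmul (FP q (q * T) L t (p * (q ^ K * u + v) + s) + g2 (p * (q ^ K * u + v) + s))]
      ring
    rw [h3, h1, mul_sum]
    refine sum_congr rfl fun v _ => ?_
    unfold av
    rw [Fintype.card_fun, Fintype.card_fin, ← mul_assoc, mul_inv_cancel₀ h2, one_mul]
  rw [hsum]
  have h3 := CorrG_sum hqK (n := 2 ^ d) fun v _ => hone v
  refine h3.trans (le_of_eq ?_)
  push_cast
  rfl

end Pool.Agent.Lib.MP_3e612f_nt.EM
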