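import Pool.Agent.Lib.MP_3e612f_nt.EM.Trf
import Pool.Agent.Lib.MP_3e612f_nt.EM.Corr
import Pool.Agent.Lib.MP_3e612f_nt.DI.Trf

/-!
Many witnesses for the leading tensor of one phase make all its pair correlations small.

PROOF. As `DI/CorrD.lean`. `b` with `2 p r`, `2 p T`, `2 r T ≤ q ^ b`, `H = q ^ (b + 5) * T ^ 2 * (q * (ℓ * T))`, `g, l, z0, x0` from `exists_gadT` with `l` so large that `q ^ b * (q * (ℓ * T)) ≤ q ^ l`; `h` with `T ≤ q ^ h`,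
`W = g + l + h`, `t0 = g + b`, (`1 ≤ b`). `transferT`, `DI.class_sel` (for `T2 (Tm d τ) (Tm d τ')` and `Gv`), helper65's `EM/Corr.lean` (frozen factors: the positions of `J` are outside all cells `[a + g, a + g + l)`, because
`|i - (a + t0)| ≥ W`).
-/

set_option autoImplicit false

namespace Pool.Agent.Lib.MP_3e612f_nt.EM

open Finset
open Pool.Agent.Lib.MP_3e612f_nt.PI (ee mc)
open Pool.Agent.Lib.MP_3e612f_nt.DI (pt vec bi emb Tm)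

/-- a power of a number below `1` which is small -/
private theorem CorrD_pow {R0 m : ℕ} (hR : 1 ≤ R0) {c : ℝ} (hc : 0 < c) :
    ∃ k : ℕ, (1 - ((R0 : ℝ) ^ m)⁻¹) ^ k ≤ c := by
  have h1 : (1 : ℝ) ≤ (R0 : ℝ) ^ m := one_le_pow₀ (by exact_mod_cast hR)
  have h2 : (0 : ℝ) < ((R0 : ℝ) ^ m)⁻¹ := inv_pos.2 (by linarith)
  have h3 : ((R0 : ℝ) ^ m)⁻¹ ≤ 1 := inv_le_one_of_one_le₀ h1
  obtain ⟨k, hk⟩ := exists_pow_lt_of_lt_one hc (show 1 - ((R0 : ℝ) ^ m)⁻¹ < 1 by linarith)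
  exact ⟨k, hk.le⟩

theorem corr_boxesT {q : ℕ} (hq : 2 ≤ q) {T : ℕ} (hT : 0 < T) (d : ℕ) (hd : 0 < d) {ℓ : ℕ}
    [NeZero ℓ] (m1 M : ℕ) [NeZero M] (hM : ℓ ∣ M) {p r : ℕ} (hp : p.Prime) (hr : r.Prime)
    (hpr : p ≠ r) (hpq : p.Coprime q) (hrq : r.Coprime q) (hpT : p.Coprime T) {δ : ℝ}
    (hδ : 0 < δ) :
    ∃ (W t0 : ℕ) (ε : ℝ), 1 ≤ W ∧ 1 ≤ t0 ∧ 0 < ε ∧ ∀ sw : ℕ, ∃ k : ℕ, ∀ K P : ℕ, P + W = K + 1 →
      ∀ (L s s' : ℕ) (t t' : Finset (Lt (q * T) L) → ZMod M)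
        (τ τ' : Finset (Lt (q * T) L) → ZMod ℓ) (g g' : ℕ → ZMod M),
        (∀ S, S.card ≠ d → t S = 0) → (∀ S, S.card ≠ d → t' S = 0) →
        (∀ S, m1 • t S = emb M (τ S)) → (∀ S, m1 • t' S = emb M (τ' S)) →
        IsPL q (q * T) (d - 1) L g → IsPL q (q * T) (d - 1) L g' →
      ∀ (J : Finset ℕ) (β β' : ℕ → ℂ), (∀ n, ‖β n‖ ≤ 1) → (∀ n, ‖β' n‖ ≤ 1) →
        DepL q (q * T) J β → DepL q (q * T) J β' →
      ∀ V : Fin k → Fin d → Finset (Lt (q * (ℓ * T)) L),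
        (∀ b j, ∀ x ∈ V b j, t0 ≤ (x.1 : ℕ) ∧ (x.1 : ℕ) - t0 < P ∧
          ∀ i ∈ J, (x.1 : ℕ) + W ≤ i ∨ i + W ≤ x.1) →
        (∀ b b' j j', (b, j) ≠ (b', j') → ∀ x ∈ V b j, ∀ y ∈ V b' j', FarL W x y) →
        (∀ b j, (V b j).card ≤ sw) →
        (∀ b, bi (Tm d τ) univ (fun j => vec (ℓ := ℓ) (xi ℓ q T (ℓ * T) L) (V b j)) < ε) →
        ∀ u : ℕ, ‖∑ v ∈ range (q ^ K), β (p * (q ^ K * u + v) + s) * β' (r * (q ^ K * u + v) + s') *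
          ee ((FP q (q * T) L t (p * (q ^ K * u + v) + s) + g (p * (q ^ K * u + v) + s)) +
            (FP q (q * T) L t' (r * (q ^ K * u + v) + s') + g' (r * (q ^ K * u + v) + s')))‖ ≤
          δ * (q : ℝ) ^ K := by
  classical
  have hp0 : 0 < p := hp.pos
  have hr0 : 0 < r := hr.pos
  have hpr' : p.Coprime r := (Nat.coprime_primes hp hr).2 hpr
  have hℓ : 0 < ℓ := Nat.pos_of_ne_zero (NeZero.ne ℓ)
  -- the parameters
  obtain ⟨b, hb⟩ : ∃ b, 2 * p * r + 2 * p * T + 2 * r * T < q ^ b := ⟨_, Nat.lt_pow_self hq⟩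
  have hb1 : 2 * p * r ≤ q ^ b := by
    have := Nat.zero_le (2 * p * T)
    have := Nat.zero_le (2 * r * T)
    omega
  have hb2 : 2 * p * T ≤ q ^ b := by omega
  have hb3 : 2 * r * T ≤ q ^ b := by omega
  have hb0 : 1 ≤ b := by
    rcases Nat.eq_zero_or_pos b with h | h
    · rw [h, pow_zero] at hb1
      have : 1 ≤ p * r := Nat.mul_pos hp0 hr0
      have e : 2 * p * r = 2 * (p * r) := by ring
      omega
    · exact h
  obtain ⟨H, hHdef⟩ : ∃ H, H = q ^ (b + 5) * T ^ 2 * (q * (ℓ * T)) := ⟨_, rfl⟩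
  have hH1 : 1 ≤ H := by
    rw [hHdef]
    have : 0 < q := by omega
    exact Nat.one_le_iff_ne_zero.2 (by positivity)
  obtain ⟨l0, hl0⟩ : ∃ l0, q ^ b * (q * (ℓ * T)) < q ^ l0 := ⟨_, Nat.lt_pow_self hq⟩
  obtain ⟨g, l, z0, x0, hll, hG⟩ := exists_gadT hq hpq hrq hp0 hr0 T H l0
  have hl : q ^ b * (q * (ℓ * T)) < q ^ l :=
    lt_of_lt_of_le hl0 (Nat.pow_le_pow_right (by omega) hll)
  have hbl : b < l := by
    by_contra hlt
    have h1 : q ^ l ≤ q ^ b := Nat.pow_le_pow_right (by omega) (by omega)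
    have h2 : q ^ b * 1 ≤ q ^ b * (q * (ℓ * T)) := Nat.mul_le_mul_left _ (by
      have : 0 < q := by omega
      exact Nat.one_le_iff_ne_zero.2 (by positivity))
    omega
  obtain ⟨h, hTh, -, -⟩ := trf_exp hq hT
  have hW : 1 ≤ g + l + h := by omega
  obtain ⟨R0, hR, hcorr⟩ := corr_gad M q (g + l + h) ℓ hM hq hW
  obtain ⟨δ', hδ'⟩ : ∃ δ', δ' = δ ^ 2 ^ d / 2 := ⟨_, rfl⟩
  have hδ'0 : 0 < δ' := by
    rw [hδ']
    positivity
  refine ⟨g + l + h, g + b, δ' ^ ((g + l + h) * H) ^ d, hW, by omega, by positivity,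
    fun sw => ?_⟩
  obtain ⟨k, hk⟩ := CorrD_pow (m := d * (sw * H)) hR hδ'0
  refine ⟨k, ?_⟩
  intro K P hPK L s s' t t' τ τ' g2 g2' ht ht' htm htm' hg2 hg2' J β β' hβ hβ' hJ hJ' V hV hfar
    hcard hbias u
  -- gadgets
  have htr := fun b' => transferT (g := g) (P := P) (z0 := z0) (x0 := x0) hq hT hp hpq hpT hpr' hr0
    hb1 hb2 hb3 (le_of_eq hHdef.symm) hl.le s s' hd (Tm d τ) (Tm d τ') (V b')
    (fun j y hy => ⟨(hV b' j y hy).1, (hV b' j y hy).2.1⟩)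
  choose V1 hV1c hV1p hV1b using htr
  have hcl := fun b' => Pool.Agent.Lib.MP_3e612f_nt.DI.class_sel (W := g + l + h) (H := H) hW hH1
    hd (T2 (Tm d τ) (Tm d τ')) (Gv q T g l L z0 x0 s s' p r ℓ) (V1 b')
  choose V2 hV2s hV2f hV2b using hcl
  have hfz : ∀ b' j, ∀ v ∈ V2 b' j, ∀ i ∈ J,
      i < (v.1 : ℕ) + g ∨ (v.1 : ℕ) + g + l ≤ i := by
    intro b' j v hv i hi
    obtain ⟨x, hx, hxp⟩ := hV1p b' j v (hV2s b' j hv)
    have h1 := (hV b' j x hx).2.2 i hi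
    omega
  have hmain := hcorr T g l h H p r z0 x0 hT hTh rfl hG m1 d hd L s s' t t' τ τ' g2 g2' J J β β'
    ht ht' htm htm' hg2 hg2' hβ hβ' hJ hJ' K P k (sw * H) δ' hPK hδ'0.le V2
    (fun b' j => hV2f b' j) (by
      intro b1 b2 j1 j2 hne' v hv w hw
      obtain ⟨x, hx, hxp⟩ := hV1p b1 j1 v (hV2s b1 j1 hv)
      obtain ⟨y, hy, hyp⟩ := hV1p b2 j2 w (hV2s b2 j2 hw)
      have h1 := hfar b1 b2 j1 j2 hne' x hx y hy
      unfold FarL at h1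
      omega) (by
      intro b1 j1
      exact (card_le_card (hV2s b1 j1)).trans ((hV1c b1 j1).trans
        (Nat.mul_le_mul_right _ (hcard b1 j1)))) hfz hfz (by
      intro b1
      have h1 := lt_of_le_of_lt (hV2b b1) (lt_of_le_of_lt (hV1b b1) (hbias b1))
      exact (lt_of_pow_lt_pow_left₀ _ hδ'0.le h1).le) u
  have hqK : (0 : ℝ) ≤ (q : ℝ) ^ K := by positivity
  have h2 : ((q : ℝ) ^ K) ^ 2 ^ d * ((1 - ((R0 : ℝ) ^ (d * (sw * H)))⁻¹) ^ k + δ') ≤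
      (δ * (q : ℝ) ^ K) ^ 2 ^ d := by
    have h3 : (1 - ((R0 : ℝ) ^ (d * (sw * H)))⁻¹) ^ k + δ' ≤ δ ^ 2 ^ d := by
      rw [hδ'] at hk ⊢
      linarith
    rw [mul_pow, mul_comm (δ ^ 2 ^ d)]
    exact mul_le_mul_of_nonneg_left h3 (by positivity)
  have h4 := le_of_pow_le_pow_left₀ (by positivity) (by positivity) (hmain.trans h2)
  refine le_trans (le_of_eq ?_) h4
  congr 1
  refine sum_congr rfl fun v _ => ?_
  rw [Pool.Agent.Lib.MP_3e612f_nt.DI.BMul_ee_add]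
  ring

end Pool.Agent.Lib.MP_3e612f_nt.EM
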