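import Pool.Agent.Lib.MP_3e612f_nt.EM.Cells
import Pool.Agent.Lib.MP_3e612f_nt.DI.Alt

/-!
The alternating sum of a pair of phases over a cube of gadgets (T-form).

`cube_pair`: with `n_I` the number where the gadgets of the colours in `I` have the contents `c'` and the
others the contents `c`, the alternating sum over `I` of `f (p n_I + s) + f' (r n_I + s')` is the
multilinear form `BB` of the differences of the contents; `frozen_pair`: frozen factors do not change.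
-/

set_option autoImplicit false

namespace Pool.Agent.Lib.MP_3e612f_nt.EM

open Finset
open Pool.Agent.Lib.MP_3e612f_nt.PI (ee mc)
open Pool.Agent.Lib.MP_3e612f_nt.DI (MAdd mlt alt_sum)

set_option linter.unusedSectionVars false

section
variable {q T g l H p r L : ℕ} {z0 x0 : ℕ → ℕ → ℕ} {ι : Type} [Fintype ι] [DecidableEq ι]

private theorem Cube_mem_cell {A : ℕ} {x : Lt (q * T) L} :
    x ∈ cell q T l L A ↔ A ≤ (x.1 : ℕ) ∧ (x.1 : ℕ) < A + l := by
  simp [cell]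

private theorem Cube_blk_sub {A U : ℕ} : blk q T l L A U ⊆ cell q T l L A := by
  intro x hx
  have h := (mem_filter.1 hx).2
  exact Cube_mem_cell.2 ⟨h.1, h.2.1⟩

private theorem Cube_cells {a b : ℕ} (h : a + (g + l) ≤ b ∨ b + (g + l) ≤ a) {x : Lt (q * T) L}
    (hx : x ∈ cell q T l L (a + g)) (hy : x ∈ cell q T l L (b + g)) : False := by
  have h1 := Cube_mem_cell.1 hx
  have h2 := Cube_mem_cell.1 hy
  omega

/-- the set of the letters of the blocks of colour `j` -/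
private def Cube_F (q T g l L : ℕ) (z0 x0 : ℕ → ℕ → ℕ) (s s' u t : ℕ) (o : ι → ℕ × ℕ) {d : ℕ}
    (col : ι → Fin d) (A : Finset ι) (β : ι → ℕ) (j : Fin d) : Finset (Lt (q * T) L) :=
  (A.filter fun i => col i = j).biUnion fun i =>
    blk q T l L ((o i).1 + g) (uT q T g l z0 x0 s s' u t (o i) + β i * (t * T))

private theorem Cube_mem_F {s s' u t : ℕ} {o : ι → ℕ × ℕ} {d : ℕ} {col : ι → Fin d} {A : Finset ι}
    {β : ι → ℕ} {j : Fin d} {x : Lt (q * T) L} :
    x ∈ Cube_F q T g l L z0 x0 s s' u t o col A β j ↔ ∃ i, (i ∈ A ∧ col i = j) ∧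
      x ∈ blk q T l L ((o i).1 + g) (uT q T g l z0 x0 s s' u t (o i) + β i * (t * T)) := by
  unfold Cube_F
  simp only [mem_biUnion, mem_filter]

private theorem Cube_F_cell {s s' u t : ℕ} {o : ι → ℕ × ℕ} {d : ℕ} {col : ι → Fin d}
    {A : Finset ι} {β β' : ι → ℕ} {j : Fin d} {x : Lt (q * T) L}
    (hx : x ∈ Cube_F q T g l L z0 x0 s s' u t o col A β j ∪
      Cube_F q T g l L z0 x0 s s' u t o col A β' j) :
    ∃ i, (i ∈ A ∧ col i = j) ∧ x ∈ cell q T l L ((o i).1 + g) := by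
  rcases mem_union.1 hx with hx | hx
  · obtain ⟨i, hi, h⟩ := Cube_mem_F.1 hx
    exact ⟨i, hi, Cube_blk_sub h⟩
  · obtain ⟨i, hi, h⟩ := Cube_mem_F.1 hx
    exact ⟨i, hi, Cube_blk_sub h⟩

/-- the indicator of the blocks of colour `j` -/
private theorem Cube_ind {s s' u t : ℕ} {o : ι → ℕ × ℕ} {d : ℕ} {col : ι → Fin d} {A : Finset ι}
    {β : ι → ℕ} {j : Fin d} {x : Lt (q * T) L}
    (hsep : ∀ i j, i ≠ j → (o i).1 + (g + l) ≤ (o j).1 ∨ (o j).1 + (g + l) ≤ (o i).1) :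
    (if x ∈ Cube_F q T g l L z0 x0 s s' u t o col A β j then (1 : ℤ) else 0) =
      ∑ i, if i ∈ A ∧ col i = j then (if x ∈ blk q T l L ((o i).1 + g)
        (uT q T g l z0 x0 s s' u t (o i) + β i * (t * T)) then 1 else 0) else 0 := by
  by_cases hx : x ∈ Cube_F q T g l L z0 x0 s s' u t o col A β j
  · rw [if_pos hx]
    obtain ⟨i, hi, h⟩ := Cube_mem_F.1 hx
    rw [sum_eq_single i]
    · rw [if_pos hi, if_pos h]
    · intro i' _ hne
      by_cases hi' : i' ∈ A ∧ col i' = j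
      · rw [if_pos hi', if_neg]
        intro h'
        exact Cube_cells (hsep i i' (Ne.symm hne)) (Cube_blk_sub h) (Cube_blk_sub h')
      · rw [if_neg hi']
    · exact fun h => absurd (mem_univ i) h
  · rw [if_neg hx]
    refine (sum_eq_zero fun i _ => ?_).symm
    by_cases hi : i ∈ A ∧ col i = j
    · rw [if_pos hi, if_neg]
      exact fun h => hx (Cube_mem_F.2 ⟨i, hi, h⟩)
    · rw [if_neg hi]

end

section
variable {q T g l H p r : ℕ} {z0 x0 : ℕ → ℕ → ℕ}

/-- the cube identity for one dilation, for the set `A` of the switched gadgets -/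
theorem Cube_one (hq : 2 ≤ q) (hT : 1 ≤ T) (hG : GadT q T g l H p r z0 x0) {s s' t u : ℕ}
    (htu : (t = p ∧ u = s) ∨ (t = r ∧ u = s')) {G : Type} [AddCommGroup G] {d : ℕ} (L : ℕ)
    (f : Finset (Lt (q * T) L) → G) (hf : ∀ S, d < S.card → f S = 0) {ι : Type} [Fintype ι]
    [DecidableEq ι] (o : ι → ℕ × ℕ) (ho : ∀ i, (o i).2 < H)
    (hsep : ∀ i j, i ≠ j → (o i).1 + (g + l) ≤ (o j).1 ∨ (o j).1 + (g + l) ≤ (o i).1)
    (col : ι → Fin d) (A : Finset ι) (β β' : ι → ℕ) (hβ : ∀ i, β i = 0 ∨ β i = 1)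
    (hβ' : ∀ i, β' i = 0 ∨ β' i = 1) {n : ℕ}
    (hn : ∀ i ∈ A, n / q ^ (o i).1 % (q ^ (g + l) * T) = zT q T g l z0 x0 s s' (o i)) :
    ∑ I : Finset (Fin d), (-1 : ℤ) ^ I.card • FP q (q * T) L f
        (t * (n + ∑ i ∈ A, (if col i ∈ I then β' i else β i) * (T * q ^ ((o i).1 + g))) + u) =
      mlt f fun j x => ∑ i, (if i ∈ A ∧ col i = j then (β i : ℤ) - β' i else 0) *
        gv q T g l L z0 x0 s s' u t (o i) x := by
  classical
  have hcard : Fintype.card (Fin d) = d := Fintype.card_fin d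
  have h1 : ∀ I : Finset (Fin d), FP q (q * T) L f
      (t * (n + ∑ i ∈ A, (if col i ∈ I then β' i else β i) * (T * q ^ ((o i).1 + g))) + u) =
      ∑ S ∈ (((ltr q (q * T) L (t * n + u)).filter fun x =>
          ∀ i ∈ A, x ∉ cell q T l L ((o i).1 + g)) ∪
        univ.biUnion fun j => if j ∈ I then Cube_F q T g l L z0 x0 s s' u t o col A β' j else
          Cube_F q T g l L z0 x0 s s' u t o col A β j).powerset, f S := by
    intro I
    unfold FP
    rw [ltr_cells hq hT hG s s' htu o ho hsep A (fun i => if col i ∈ I then β' i else β i)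
      (fun i _ => by
        by_cases h : col i ∈ I
        · simp only [h, if_true]; exact hβ' i
        · simp only [h, if_false]; exact hβ i) hn]
    congr 3
    ext x
    simp only [mem_biUnion, mem_univ, true_and]
    constructor
    · rintro ⟨i, hi, hx⟩
      refine ⟨col i, ?_⟩
      by_cases h : col i ∈ I
      · rw [if_pos h]
        rw [if_pos h] at hx
        exact Cube_mem_F.2 ⟨i, ⟨hi, rfl⟩, hx⟩
      · rw [if_neg h]
        rw [if_neg h] at hx
        exact Cube_mem_F.2 ⟨i, ⟨hi, rfl⟩, hx⟩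
    · rintro ⟨j, hx⟩
      by_cases h : j ∈ I
      · rw [if_pos h] at hx
        obtain ⟨i, ⟨hi, rfl⟩, hx2⟩ := Cube_mem_F.1 hx
        exact ⟨i, hi, by rw [if_pos h]; exact hx2⟩
      · rw [if_neg h] at hx
        obtain ⟨i, ⟨hi, rfl⟩, hx2⟩ := Cube_mem_F.1 hx
        exact ⟨i, hi, by rw [if_neg h]; exact hx2⟩
  simp only [h1]
  rw [alt_sum f (fun S hS => hf S (by rwa [hcard] at hS))]
  · congr 1
    funext j x
    rw [Cube_ind hsep, Cube_ind hsep, ← sum_sub_distrib]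
    refine sum_congr rfl fun i _ => ?_
    by_cases hi : i ∈ A ∧ col i = j
    · rw [if_pos hi, if_pos hi, if_pos hi]
      unfold gv bv
      rcases hβ i with h | h <;> rcases hβ' i with h' | h' <;> rw [h, h'] <;> simp
    · rw [if_neg hi, if_neg hi, if_neg hi]
      simp
  · intro j j' hjj
    rw [disjoint_left]
    intro x hx hx'
    obtain ⟨i, hi, h⟩ := Cube_F_cell hx
    obtain ⟨i', hi', h'⟩ := Cube_F_cell hx'
    have hne : i ≠ i' := by
      rintro rfl
      exact hjj (hi.2.symm.trans hi'.2)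
    exact Cube_cells (hsep i i' hne) h h'
  · intro j
    rw [disjoint_left]
    intro x hx hx'
    obtain ⟨i, hi, h⟩ := Cube_F_cell hx'
    exact (mem_filter.1 hx).2 i hi.1 h

/-- the same for a phase of smaller degree -/
theorem Cube_low (hq : 2 ≤ q) (hT : 1 ≤ T) (hG : GadT q T g l H p r z0 x0) {s s' t u : ℕ}
    (htu : (t = p ∧ u = s) ∨ (t = r ∧ u = s')) {G : Type} [AddCommGroup G] {d : ℕ} (hd : 1 ≤ d)
    (L : ℕ) (g2 : ℕ → G) (hg2 : IsPL q (q * T) (d - 1) L g2) {ι : Type} [Fintype ι]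
    [DecidableEq ι] (o : ι → ℕ × ℕ) (ho : ∀ i, (o i).2 < H)
    (hsep : ∀ i j, i ≠ j → (o i).1 + (g + l) ≤ (o j).1 ∨ (o j).1 + (g + l) ≤ (o i).1)
    (col : ι → Fin d) (A : Finset ι) (β β' : ι → ℕ) (hβ : ∀ i, β i = 0 ∨ β i = 1)
    (hβ' : ∀ i, β' i = 0 ∨ β' i = 1) {n : ℕ}
    (hn : ∀ i ∈ A, n / q ^ (o i).1 % (q ^ (g + l) * T) = zT q T g l z0 x0 s s' (o i)) :
    ∑ I : Finset (Fin d), (-1 : ℤ) ^ I.card • g2
        (t * (n + ∑ i ∈ A, (if col i ∈ I then β' i else β i) * (T * q ^ ((o i).1 + g))) + u) = 0 := by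
  obtain ⟨f, hf, hfe⟩ := hg2
  simp only [hfe]
  rw [Cube_one hq hT hG htu L f (fun S hS => hf S (by omega)) o ho hsep col A β β' hβ hβ' hn]
  unfold mlt
  refine sum_eq_zero fun x _ => ?_
  by_cases hx : Function.Injective x
  · rw [if_pos hx, hf, smul_zero]
    rw [card_image_of_injective _ hx, card_univ, Fintype.card_fin]
    omega
  · rw [if_neg hx]

end

section
variable {q T g l H p r : ℕ} {z0 x0 : ℕ → ℕ → ℕ} {ι : Type} [Fintype ι] [DecidableEq ι]

/-- several coordinates of the contents are changed -/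
private theorem Cube_upd {Q : ℕ} (o : ι → ℕ × ℕ) (N : (ι → Fin Q) → ℕ)
    (hN3 : ∀ c i (x : Fin Q), (c i : ℕ) < q ^ (g + l) → (x : ℕ) < q ^ (g + l) → (c i : ℕ) ≤ x →
      T ∣ (x : ℕ) - c i → N (Function.update c i x) = N c + ((x : ℕ) - c i) * q ^ (o i).1)
    (c0 c1 : ι → Fin Q) (A : Finset ι) (h : ∀ i ∈ A, (c0 i : ℕ) < q ^ (g + l) ∧
      (c1 i : ℕ) < q ^ (g + l) ∧ (c0 i : ℕ) ≤ c1 i ∧ T ∣ (c1 i : ℕ) - c0 i) :
    N (A.piecewise c1 c0) = N c0 + ∑ i ∈ A, ((c1 i : ℕ) - c0 i) * q ^ (o i).1 := by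
  induction A using Finset.induction_on with
  | empty => simp
  | insert j A hj ih =>
    obtain ⟨h1, h2, h3, h4⟩ := h j (mem_insert_self j A)
    have h0 : A.piecewise c1 c0 j = c0 j := piecewise_eq_of_notMem _ _ _ hj
    rw [piecewise_insert, hN3]
    · rw [ih fun i hi => h i (mem_insert_of_mem hi), sum_insert hj, h0]
      ring
    · rw [h0]
      exact h1
    · exact h2
    · rw [h0]
      exact h3
    · rw [h0]
      exact h4

/-- the numbers of a cube of gadgets -/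
theorem Cube_reduce (hq : 2 ≤ q) (hT : 1 ≤ T) (hG : GadT q T g l H p r z0 x0) (s s' : ℕ) {d : ℕ}
    (o : ι → ℕ × ℕ) (ho : ∀ i, (o i).2 < H) {Q : ℕ} (hQ : q ^ (g + l) ≤ Q)
    (N : (ι → Fin Q) → ℕ)
    (hN2 : ∀ c i, (c i : ℕ) < q ^ (g + l) → N c / q ^ (o i).1 % (q ^ (g + l) * T) = c i)
    (hN3 : ∀ c i (x : Fin Q), (c i : ℕ) < q ^ (g + l) → (x : ℕ) < q ^ (g + l) → (c i : ℕ) ≤ x →
      T ∣ (x : ℕ) - c i → N (Function.update c i x) = N c + ((x : ℕ) - c i) * q ^ (o i).1)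
    (col : ι → Fin d) (c c' : ι → Fin Q)
    (hcc : ∀ i, c i = c' i ∨ (((c i : ℕ) = zT q T g l z0 x0 s s' (o i) ∨
      (c i : ℕ) = zT q T g l z0 x0 s s' (o i) + T * q ^ g) ∧
      ((c' i : ℕ) = zT q T g l z0 x0 s s' (o i) ∨
        (c' i : ℕ) = zT q T g l z0 x0 s s' (o i) + T * q ^ g))) :
    ∃ (A : Finset ι) (β β' : ι → ℕ) (n : ℕ), (∀ i, β i = 0 ∨ β i = 1) ∧ (∀ i, β' i = 0 ∨ β' i = 1) ∧
      (∀ i ∈ A, n / q ^ (o i).1 % (q ^ (g + l) * T) = zT q T g l z0 x0 s s' (o i)) ∧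
      (∀ I : Finset (Fin d), N (fun i => if col i ∈ I then c' i else c i) =
        n + ∑ i ∈ A, (if col i ∈ I then β' i else β i) * (T * q ^ ((o i).1 + g))) ∧
      ∀ (j : Fin d) (i : ι), (if i ∈ A ∧ col i = j then (β i : ℤ) - β' i else 0) =
        if col i = j then (if (c i : ℕ) = zT q T g l z0 x0 s s' (o i) + T * q ^ g then 1 else 0) -
          (if (c' i : ℕ) = zT q T g l z0 x0 s s' (o i) + T * q ^ g then 1 else 0) else 0 := by
  classical
  have hgD : 0 < T * q ^ g := Nat.mul_pos hT (Nat.pow_pos (by omega))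
  have hz1 : ∀ i, zT q T g l z0 x0 s s' (o i) + T * q ^ g < q ^ (g + l) := fun i =>
    zT_lt hG s s' (ho i)
  have hz0 : ∀ i, zT q T g l z0 x0 s s' (o i) < q ^ (g + l) := fun i =>
    lt_of_le_of_lt (Nat.le_add_right _ _) (hz1 i)
  obtain ⟨A, hA⟩ : ∃ A : Finset ι, A = univ.filter fun i => c i ≠ c' i := ⟨_, rfl⟩
  have hmA : ∀ i, i ∈ A ↔ c i ≠ c' i := fun i => by rw [hA]; simp
  obtain ⟨c0, hc0⟩ : ∃ c0 : ι → Fin Q, c0 = fun i =>
      if i ∈ A then ⟨zT q T g l z0 x0 s s' (o i), lt_of_lt_of_le (hz0 i) hQ⟩ else c i := ⟨_, rfl⟩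
  obtain ⟨β, hβd⟩ : ∃ β : ι → ℕ, β = fun i =>
      if (c i : ℕ) = zT q T g l z0 x0 s s' (o i) + T * q ^ g then 1 else 0 := ⟨_, rfl⟩
  obtain ⟨β', hβd'⟩ : ∃ β' : ι → ℕ, β' = fun i =>
      if (c' i : ℕ) = zT q T g l z0 x0 s s' (o i) + T * q ^ g then 1 else 0 := ⟨_, rfl⟩
  have hβ : ∀ i, β i = 0 ∨ β i = 1 := fun i => by
    rw [hβd]
    by_cases h : (c i : ℕ) = zT q T g l z0 x0 s s' (o i) + T * q ^ g <;> simp [h]
  have hβ' : ∀ i, β' i = 0 ∨ β' i = 1 := fun i => by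
    rw [hβd']
    by_cases h : (c' i : ℕ) = zT q T g l z0 x0 s s' (o i) + T * q ^ g <;> simp [h]
  have hcA : ∀ i ∈ A, (c i : ℕ) = zT q T g l z0 x0 s s' (o i) + β i * (T * q ^ g) ∧
      (c' i : ℕ) = zT q T g l z0 x0 s s' (o i) + β' i * (T * q ^ g) := by
    intro i hi
    have h1 := (hcc i).resolve_left ((hmA i).1 hi)
    rw [hβd, hβd']
    constructor
    · rcases h1.1 with h | h
      · have h' : ¬ (c i : ℕ) = zT q T g l z0 x0 s s' (o i) + T * q ^ g := by omega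
        simp only [h', if_false]
        omega
      · simp only [h, if_true, one_mul]
    · rcases h1.2 with h | h
      · have h' : ¬ (c' i : ℕ) = zT q T g l z0 x0 s s' (o i) + T * q ^ g := by omega
        simp only [h', if_false]
        omega
      · simp only [h, if_true, one_mul]
  have h4 : ∀ i ∈ A, (c0 i : ℕ) = zT q T g l z0 x0 s s' (o i) := fun i hi => by
    rw [hc0]
    simp only [hi, if_true]
  refine ⟨A, β, β', N c0, hβ, hβ', ?_, ?_, ?_⟩
  · intro i hi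
    rw [hN2 c0 i (by rw [h4 i hi]; exact hz0 i), h4 i hi]
  · intro I
    have h1 : (fun i => if col i ∈ I then c' i else c i) =
        A.piecewise (fun i => if col i ∈ I then c' i else c i) c0 := by
      funext i
      by_cases hi : i ∈ A
      · rw [piecewise_eq_of_mem _ _ _ hi]
      · rw [piecewise_eq_of_notMem _ _ _ hi, hc0]
        simp only [hi, if_false]
        have h2 : c i = c' i := by
          by_contra h
          exact hi ((hmA i).2 h)
        rw [← h2, ite_self]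
    have h3 : ∀ i ∈ A, (((if col i ∈ I then c' i else c i : Fin Q) : ℕ)) =
        zT q T g l z0 x0 s s' (o i) + (if col i ∈ I then β' i else β i) * (T * q ^ g) := by
      intro i hi
      by_cases h : col i ∈ I
      · simp only [h, if_true]
        exact (hcA i hi).2
      · simp only [h, if_false]
        exact (hcA i hi).1
    have h5 : ∀ i, (if col i ∈ I then β' i else β i) = 0 ∨ (if col i ∈ I then β' i else β i) = 1 := by
      intro i
      by_cases h : col i ∈ I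
      · simp only [h, if_true]; exact hβ' i
      · simp only [h, if_false]; exact hβ i
    rw [h1, Cube_upd o N hN3 c0 _ A fun i hi => ?_]
    · congr 1
      refine sum_congr rfl fun i hi => ?_
      rw [h3 i hi, h4 i hi, Nat.add_sub_cancel_left, mul_assoc, mul_assoc, ← pow_add]
      congr 3
      omega
    · rw [h3 i hi, h4 i hi, Nat.add_sub_cancel_left]
      refine ⟨hz0 i, ?_, Nat.le_add_right _ _, Dvd.dvd.mul_left (Dvd.intro _ rfl) _⟩
      have h6 := hz1 i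
      have h7 := hz0 i
      rcases h5 i with h | h <;> rw [h] <;> omega
  · intro j i
    by_cases hj : col i = j
    · by_cases hi : i ∈ A
      · rw [if_pos ⟨hi, hj⟩, if_pos hj, hβd, hβd']
        push_cast
        rfl
      · rw [if_neg fun h => hi h.1, if_pos hj]
        have h2 : c i = c' i := by
          by_contra h
          exact hi ((hmA i).2 h)
        rw [h2, sub_self]
    · rw [if_neg fun h => hj h.2, if_neg hj]

theorem cube_pair (hq : 2 ≤ q) (hT : 1 ≤ T) (hG : GadT q T g l H p r z0 x0) {G : Type}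
    [AddCommGroup G] {d : ℕ} (hd : 1 ≤ d) (L s s' : ℕ) (t t' : Finset (Lt (q * T) L) → G)
    (ht : ∀ S, S.card ≠ d → t S = 0) (ht' : ∀ S, S.card ≠ d → t' S = 0) (g2 g2' : ℕ → G)
    (hg2 : IsPL q (q * T) (d - 1) L g2) (hg2' : IsPL q (q * T) (d - 1) L g2')
    (o : ι → ℕ × ℕ) (ho : ∀ i, (o i).2 < H)
    (hsep : ∀ i j, i ≠ j → (o i).1 + (g + l) ≤ (o j).1 ∨ (o j).1 + (g + l) ≤ (o i).1)
    {Q : ℕ} (hQ : q ^ (g + l) ≤ Q) (N : (ι → Fin Q) → ℕ)
    (hN2 : ∀ c i, (c i : ℕ) < q ^ (g + l) → N c / q ^ (o i).1 % (q ^ (g + l) * T) = c i)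
    (hN3 : ∀ c i (x : Fin Q), (c i : ℕ) < q ^ (g + l) → (x : ℕ) < q ^ (g + l) → (c i : ℕ) ≤ x →
      T ∣ (x : ℕ) - c i → N (Function.update c i x) = N c + ((x : ℕ) - c i) * q ^ (o i).1)
    (col : ι → Fin d) (c c' : ι → Fin Q)
    (hcc : ∀ i, c i = c' i ∨ (((c i : ℕ) = zT q T g l z0 x0 s s' (o i) ∨
      (c i : ℕ) = zT q T g l z0 x0 s s' (o i) + T * q ^ g) ∧
      ((c' i : ℕ) = zT q T g l z0 x0 s s' (o i) ∨
        (c' i : ℕ) = zT q T g l z0 x0 s s' (o i) + T * q ^ g))) :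
    ∑ I : Finset (Fin d), (-1 : ℤ) ^ I.card •
        ((FP q (q * T) L t (p * N (fun i => if col i ∈ I then c' i else c i) + s) +
          g2 (p * N (fun i => if col i ∈ I then c' i else c i) + s)) +
        (FP q (q * T) L t' (r * N (fun i => if col i ∈ I then c' i else c i) + s') +
          g2' (r * N (fun i => if col i ∈ I then c' i else c i) + s'))) =
      BB q T g l L z0 x0 s s' p r o t t' fun j i => if col i = j then
        (if (c i : ℕ) = zT q T g l z0 x0 s s' (o i) + T * q ^ g then 1 else 0) -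
          (if (c' i : ℕ) = zT q T g l z0 x0 s s' (o i) + T * q ^ g then 1 else 0) else 0 := by
  obtain ⟨A, β, β', n, hβ, hβ', hn, hval, hδ⟩ := Cube_reduce hq hT hG s s' o ho hQ N hN2 hN3 col
    c c' hcc
  have hp1 := Cube_one hq hT hG (Or.inl ⟨rfl, rfl⟩) L t (fun S hS => ht S (by omega)) o ho hsep col A
    β β' hβ hβ' hn
  have hr1 := Cube_one hq hT hG (Or.inr ⟨rfl, rfl⟩) L t' (fun S hS => ht' S (by omega)) o ho hsep
    col A β β' hβ hβ' hn
  have hp2 := Cube_low hq hT hG (Or.inl ⟨rfl, rfl⟩) hd L g2 hg2 o ho hsep col A β β' hβ hβ' hn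
  have hr2 := Cube_low hq hT hG (Or.inr ⟨rfl, rfl⟩) hd L g2' hg2' o ho hsep col A β β' hβ hβ' hn
  simp only [hδ] at hp1 hr1
  simp only [hval, smul_add, sum_add_distrib]
  rw [hp1, hr1, hp2, hr2, add_zero, add_zero]
  rfl

/-- the letters outside the cells do not change -/
theorem frozen_pair (hq : 2 ≤ q) (hT : 1 ≤ T) (hG : GadT q T g l H p r z0 x0) {s s' t u : ℕ}
    (htu : (t = p ∧ u = s) ∨ (t = r ∧ u = s')) (o : ι → ℕ × ℕ) (ho : ∀ i, (o i).2 < H)
    (hsep : ∀ i j, i ≠ j → (o i).1 + (g + l) ≤ (o j).1 ∨ (o j).1 + (g + l) ≤ (o i).1)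
    {Q : ℕ} (hQ : q ^ (g + l) ≤ Q) (N : (ι → Fin Q) → ℕ)
    (hN2 : ∀ c i, (c i : ℕ) < q ^ (g + l) → N c / q ^ (o i).1 % (q ^ (g + l) * T) = c i)
    (hN3 : ∀ c i (x : Fin Q), (c i : ℕ) < q ^ (g + l) → (x : ℕ) < q ^ (g + l) → (c i : ℕ) ≤ x →
      T ∣ (x : ℕ) - c i → N (Function.update c i x) = N c + ((x : ℕ) - c i) * q ^ (o i).1)
    (c c' : ι → Fin Q)
    (hcc : ∀ i, c i = c' i ∨ (((c i : ℕ) = zT q T g l z0 x0 s s' (o i) ∨
      (c i : ℕ) = zT q T g l z0 x0 s s' (o i) + T * q ^ g) ∧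
      ((c' i : ℕ) = zT q T g l z0 x0 s s' (o i) ∨
        (c' i : ℕ) = zT q T g l z0 x0 s s' (o i) + T * q ^ g)))
    {E : Type} {I : Finset ℕ} {β : ℕ → E} (hβ : DepL q (q * T) I β)
    (hI : ∀ j ∈ I, ∀ i, j < (o i).1 + g ∨ (o i).1 + g + l ≤ j) :
    β (t * N c + u) = β (t * N c' + u) := by
  obtain ⟨A, b, b', n, hb, hb', hn, hval, -⟩ := Cube_reduce hq hT hG s s' o ho hQ N hN2 hN3
    (fun _ => (0 : Fin 1)) c c' hcc
  have h1 := hval ∅
  have h2 := hval univ
  simp only [notMem_empty, if_false] at h1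
  simp only [mem_univ, if_true] at h2
  refine hβ _ _ fun j hj => ?_
  rw [h1, h2, letter_out hq hT hG s s' htu o ho hsep A b (fun i _ => hb i) hn fun i _ => hI j hj i,
    letter_out hq hT hG s s' htu o ho hsep A b' (fun i _ => hb' i) hn fun i _ => hI j hj i]

end

end Pool.Agent.Lib.MP_3e612f_nt.EM
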