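import Pool.Agent.Lib.MP_3e612f_nt.PI.GadA

/-!
Gadgets in T-form: the gadget at `a` is the switch `n ↦ n + T q ^ (a + g)`; its window is
`[a, a + g + l)`, its block (cell) is `[a + g, a + g + l)`. The state above the window is `0` modulo
`T`. Two shifts `s`, `s'` (for the dilations by `p` and by `r`) are treated at the same time; the
parameters `z0`, `x0` are functions of the two window contents of the shifts.
-/

set_option autoImplicit false

namespace Pool.Agent.Lib.MP_3e612f_nt.EM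

open Pool.Agent.Lib.MP_3e612f_nt.PI (sg GadA_bad GadA_x)

/-- admissible choice of the gadget parameters, as functions of the window contents of the shifts -/
structure GadT (q T g l H p r : ℕ) (z0 x0 : ℕ → ℕ → ℕ) : Prop where
  z_lt : ∀ c c', z0 c c' < q ^ g
  cp : ∀ c c', (p * z0 c c' + c) % q ^ g + p < q ^ g
  cr : ∀ c c', (r * z0 c c' + c') % q ^ g + r < q ^ g
  x_le : ∀ c c', x0 c c' + H + T ≤ q ^ l
  tp : ∀ c c' x, x0 c c' ≤ x → x < x0 c c' + H →
    (p * (x + T) + sg q g p (z0 c c') c) / q ^ l = (p * x + sg q g p (z0 c c') c) / q ^ l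
  tr : ∀ c c' x, x0 c c' ≤ x → x < x0 c c' + H →
    (r * (x + T) + sg q g r (z0 c c') c') / q ^ l = (r * x + sg q g r (z0 c c') c') / q ^ l

/-- window content (with the state above it) of the shift `s` at the position `a` -/
def sT (q T g l s a : ℕ) : ℕ := s / q ^ a % (q ^ (g + l) * T)

/-- first content of the gadget `o = (a, lam)`; the second content is `zT + T * q ^ g` -/
def zT (q T g l : ℕ) (z0 x0 : ℕ → ℕ → ℕ) (s s' : ℕ) (o : ℕ × ℕ) : ℕ :=
  z0 (sT q T g l s o.1) (sT q T g l s' o.1) +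
    q ^ g * (x0 (sT q T g l s o.1) (sT q T g l s' o.1) + o.2)

/-- content of the block of `t * n + u` (`u = s` for `t = p`, `u = s'` for `t = r`), modulo
`q ^ l * T`, when `n` has the first content of the gadget `o`; the second content is `uT + t * T` -/
def uT (q T g l : ℕ) (z0 x0 : ℕ → ℕ → ℕ) (s s' u t : ℕ) (o : ℕ × ℕ) : ℕ :=
  (t * (x0 (sT q T g l s o.1) (sT q T g l s' o.1) + o.2) +
    sg q g t (z0 (sT q T g l s o.1) (sT q T g l s' o.1)) (sT q T g l u o.1)) % (q ^ l * T)

/-! ### Arithmetic -/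

theorem div_add_small {b u k : ℕ} (h : u % b + k < b) : (k + u) / b = u / b := by
  have hb : 0 < b := by omega
  have e : k + u = (u % b + k) + b * (u / b) := by
    have := Nat.mod_add_div u b
    omega
  rw [e, Nat.add_mul_div_left _ _ hb, Nat.div_eq_of_lt h, zero_add]

/-- the carry computation, in general form -/
theorem carry_gen {q T g l a t u c z n : ℕ} (hq : 0 < q)
    (hc : u / q ^ a % (q ^ (g + l) * T) = c) (x : ℕ)
    (hcz : (t * z + c) % q ^ g + t < q ^ g)
    (hn : n / q ^ a % (q ^ (g + l) * T) = z + q ^ g * x) :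
    (t * n + u) / q ^ (a + g) % (q ^ l * T) = (t * x + sg q g t z c) % (q ^ l * T) := by
  have hA : 0 < q ^ a := by positivity
  have hg : 0 < q ^ g := by positivity
  set A := q ^ a with hAdef
  set Q := q ^ (g + l) * T with hQ
  have hQe : Q = q ^ g * (q ^ l * T) := by rw [hQ, pow_add]; ring
  have en : n = n % A + A * ((z + q ^ g * x) + Q * (n / A / Q)) := by
    have h1 := Nat.mod_add_div n A
    have h2 := Nat.mod_add_div (n / A) Q
    rw [hn] at h2
    rw [h2]
    omega
  have es : u = u % A + A * (c + Q * (u / A / Q)) := by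
    have h1 := Nat.mod_add_div u A
    have h2 := Nat.mod_add_div (u / A) Q
    rw [hc] at h2
    rw [h2]
    omega
  set n1 := n % A with hn1
  set s1 := u % A with hs1
  set n2 := n / A / Q with hn2
  set s2 := u / A / Q with hs2
  have hn1l : n1 < A := Nat.mod_lt _ hA
  have hs1l : s1 < A := Nat.mod_lt _ hA
  set k := (t * n1 + s1) / A with hk
  have hkt : k ≤ t := by
    rw [hk]
    apply Nat.le_of_lt_succ
    apply Nat.div_lt_of_lt_mul
    calc t * n1 + s1 < t * A + A := by
          have := Nat.mul_le_mul_left t hn1l.le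
          omega
      _ = A * (t + 1) := by ring
  have e1 : (t * n + u) / A = k + (t * (z + q ^ g * x) + c + Q * (t * n2 + s2)) := by
    have : t * n + u = (t * n1 + s1) + A * (t * (z + q ^ g * x) + c + Q * (t * n2 + s2)) := by
      calc t * n + u = t * (n1 + A * ((z + q ^ g * x) + Q * n2)) +
            (s1 + A * (c + Q * s2)) := by rw [← en, ← es]
        _ = _ := by ring
    rw [this, Nat.add_mul_div_left _ _ hA]
  have e2 : (t * n + u) / q ^ (a + g) =
      (t * z + c) / q ^ g + t * x + q ^ l * T * (t * n2 + s2) := by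
    rw [pow_add, ← Nat.div_div_eq_div_mul, e1]
    have : k + (t * (z + q ^ g * x) + c + Q * (t * n2 + s2)) =
        (k + (t * z + c)) + q ^ g * (t * x + q ^ l * T * (t * n2 + s2)) := by
      rw [hQe]; ring
    rw [this, Nat.add_mul_div_left _ _ hg, div_add_small (by omega)]
    ring
  rw [e2, Nat.add_mul_mod_self_left]
  unfold sg
  rw [add_comm]

theorem carry_high {q T l A t m U : ℕ} (hq : 0 < q) (hm : m / q ^ A % (q ^ l * T) = U)
    (h : U % q ^ l + t * T < q ^ l) {i : ℕ} (hi : A + l ≤ i) :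
    (m + t * (T * q ^ A)) / q ^ i = m / q ^ i := by
  obtain ⟨j, rfl⟩ := Nat.exists_eq_add_of_le hi
  have hA : 0 < q ^ A := by positivity
  have hl : 0 < q ^ l := by positivity
  have e1 : (m + t * (T * q ^ A)) / q ^ A = m / q ^ A + t * T := by
    rw [show m + t * (T * q ^ A) = m + q ^ A * (t * T) by ring, Nat.add_mul_div_left _ _ hA]
  have h1 : m / q ^ A % q ^ l = U % q ^ l := by
    rw [← hm, Nat.mod_mul_right_mod]
  have e2 : (m / q ^ A + t * T) / q ^ l = m / q ^ A / q ^ l := by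
    rw [add_comm]
    exact div_add_small (by rw [h1]; exact h)
  rw [show q ^ (A + l + j) = q ^ A * q ^ l * q ^ j by rw [pow_add, pow_add],
    ← Nat.div_div_eq_div_mul, ← Nat.div_div_eq_div_mul, e1, e2, Nat.div_div_eq_div_mul,
    Nat.div_div_eq_div_mul, ← mul_assoc]

/-- letters below a switch do not move -/
theorem letter_low {q T A i t m : ℕ} (hq : 0 < q) (hi : i < A) :
    (m + t * (T * q ^ A)) / q ^ i % (q * T) = m / q ^ i % (q * T) := by
  obtain ⟨j, rfl⟩ := Nat.exists_eq_add_of_lt hi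
  have h0 : 0 < q ^ i := by positivity
  rw [show m + t * (T * q ^ (i + j + 1)) = m + q ^ i * (q * T * (t * q ^ j)) by
    rw [pow_add, pow_add, pow_one]; ring, Nat.add_mul_div_left _ _ h0, Nat.add_mul_mod_self_left]

/-- letters of a cell are read off from the content -/
theorem letter_cell {q T l A k m : ℕ} (hk : k < l) :
    m / q ^ (A + k) % (q * T) = m / q ^ A % (q ^ l * T) / q ^ k % (q * T) := by
  obtain ⟨j, rfl⟩ := Nat.exists_eq_add_of_lt hk
  rw [pow_add q A k, ← Nat.div_div_eq_div_mul]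
  generalize m / q ^ A = x
  have e : q ^ (k + j + 1) * T = q ^ k * (q * T * q ^ j) := by
    rw [pow_add, pow_add, pow_one]; ring
  rw [e, Nat.mod_mul_right_div_self, Nat.mod_mul_right_mod]

/-! ### The gadget -/

section
variable {q T g l H p r : ℕ} {z0 x0 : ℕ → ℕ → ℕ}

theorem zT_lt (hG : GadT q T g l H p r z0 x0) (s s' : ℕ) {o : ℕ × ℕ}
    (ho : o.2 < H) : zT q T g l z0 x0 s s' o + T * q ^ g < q ^ (g + l) := by
  have h1 := hG.z_lt (sT q T g l s o.1) (sT q T g l s' o.1)
  have h2 := hG.x_le (sT q T g l s o.1) (sT q T g l s' o.1)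
  unfold zT
  set z := z0 (sT q T g l s o.1) (sT q T g l s' o.1)
  set x := x0 (sT q T g l s o.1) (sT q T g l s' o.1)
  have h3 : q ^ g * (x + o.2 + 1 + T) ≤ q ^ g * q ^ l :=
    Nat.mul_le_mul_left _ (by omega)
  rw [pow_add q g l]
  have h4 : q ^ g * (x + o.2 + 1 + T) = q ^ g * (x + o.2) + q ^ g + T * q ^ g := by ring
  omega

/-- content of the cell of `t * n + u` when the window of `n` has the first content and the state
above the window is `0` -/
theorem carryT (hq : 0 < q) (hG : GadT q T g l H p r z0 x0) (s s' : ℕ) {t u : ℕ}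
    (htu : (t = p ∧ u = s) ∨ (t = r ∧ u = s')) (o : ℕ × ℕ) {n : ℕ}
    (hn : n / q ^ o.1 % (q ^ (g + l) * T) = zT q T g l z0 x0 s s' o) :
    (t * n + u) / q ^ (o.1 + g) % (q ^ l * T) = uT q T g l z0 x0 s s' u t o := by
  refine carry_gen hq (c := sT q T g l u o.1) rfl _ ?_ hn
  rcases htu with ⟨rfl, rfl⟩ | ⟨rfl, rfl⟩
  · exact hG.cp _ _
  · exact hG.cr _ _

theorem uT_lt (hq : 0 < q) (hT : 0 < T) (s s' u t : ℕ) (o : ℕ × ℕ) :
    uT q T g l z0 x0 s s' u t o < q ^ l * T := Nat.mod_lt _ (by positivity)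

/-- no carry out of the cell -/
theorem uT_top (hq : 0 < q) (hG : GadT q T g l H p r z0 x0) (s s' : ℕ) {t u : ℕ}
    (htu : (t = p ∧ u = s) ∨ (t = r ∧ u = s')) {o : ℕ × ℕ} (ho : o.2 < H) :
    uT q T g l z0 x0 s s' u t o % q ^ l + t * T < q ^ l := by
  have hl : 0 < q ^ l := by positivity
  have key : (t * ((x0 (sT q T g l s o.1) (sT q T g l s' o.1) + o.2) + T) +
      sg q g t (z0 (sT q T g l s o.1) (sT q T g l s' o.1)) (sT q T g l u o.1)) / q ^ l =
      (t * (x0 (sT q T g l s o.1) (sT q T g l s' o.1) + o.2) +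
      sg q g t (z0 (sT q T g l s o.1) (sT q T g l s' o.1)) (sT q T g l u o.1)) / q ^ l := by
    rcases htu with ⟨rfl, rfl⟩ | ⟨rfl, rfl⟩
    · exact hG.tp _ _ _ (by omega) (by omega)
    · exact hG.tr _ _ _ (by omega) (by omega)
  unfold uT
  rw [Nat.mod_mul_right_mod]
  generalize hX : t * (x0 (sT q T g l s o.1) (sT q T g l s' o.1) + o.2) +
      sg q g t (z0 (sT q T g l s o.1) (sT q T g l s' o.1)) (sT q T g l u o.1) = X at key ⊢
  have e : t * ((x0 (sT q T g l s o.1) (sT q T g l s' o.1) + o.2) + T) +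
      sg q g t (z0 (sT q T g l s o.1) (sT q T g l s' o.1)) (sT q T g l u o.1) = X + t * T := by
    rw [← hX]; ring
  rw [e] at key
  by_contra hcon
  have h1 : X / q ^ l + 1 ≤ (X + t * T) / q ^ l := by
    rw [Nat.le_div_iff_mul_le hl]
    have h2 := Nat.mod_add_div X (q ^ l)
    have h3 : (X / q ^ l + 1) * q ^ l = q ^ l * (X / q ^ l) + q ^ l := by ring
    omega
  omega

theorem uT_top_div (hq : 0 < q) (hG : GadT q T g l H p r z0 x0) (s s' : ℕ) {t u : ℕ}
    (htu : (t = p ∧ u = s) ∨ (t = r ∧ u = s')) {o : ℕ × ℕ} (ho : o.2 < H) :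
    (uT q T g l z0 x0 s s' u t o + t * T) / q ^ l = uT q T g l z0 x0 s s' u t o / q ^ l := by
  rw [add_comm]
  exact div_add_small (uT_top hq hG s s' htu ho)

theorem uT_add_lt (hq : 0 < q) (hT : 0 < T) (hG : GadT q T g l H p r z0 x0) (s s' : ℕ) {t u : ℕ}
    (htu : (t = p ∧ u = s) ∨ (t = r ∧ u = s')) {o : ℕ × ℕ} (ho : o.2 < H) :
    uT q T g l z0 x0 s s' u t o + t * T < q ^ l * T := by
  have hl : 0 < q ^ l := by positivity
  have h1 := uT_top_div hq hG s s' htu ho
  have h2 := uT_lt (g := g) (l := l) (z0 := z0) (x0 := x0) hq hT s s' u t o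
  rw [mul_comm (q ^ l) T] at h2 ⊢
  rw [← Nat.div_lt_iff_lt_mul hl] at h2 ⊢
  rw [h1]
  exact h2

/-- content of the cell of `t * n + u` when the window of `n` has the second content and the state
above the window is `0` -/
theorem carryT' (hq : 0 < q) (hT : 0 < T) (hG : GadT q T g l H p r z0 x0) (s s' : ℕ) {t u : ℕ}
    (htu : (t = p ∧ u = s) ∨ (t = r ∧ u = s')) {o : ℕ × ℕ} (ho : o.2 < H) {n : ℕ}
    (hn : n / q ^ o.1 % (q ^ (g + l) * T) = zT q T g l z0 x0 s s' o + T * q ^ g) :
    (t * n + u) / q ^ (o.1 + g) % (q ^ l * T) = uT q T g l z0 x0 s s' u t o + t * T := by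
  have h1 : (t * n + u) / q ^ (o.1 + g) % (q ^ l * T) =
      (t * (x0 (sT q T g l s o.1) (sT q T g l s' o.1) + o.2 + T) +
        sg q g t (z0 (sT q T g l s o.1) (sT q T g l s' o.1)) (sT q T g l u o.1)) %
        (q ^ l * T) := by
    refine carry_gen hq (c := sT q T g l u o.1) rfl _ ?_ ?_
    · rcases htu with ⟨rfl, rfl⟩ | ⟨rfl, rfl⟩
      · exact hG.cp _ _
      · exact hG.cr _ _
    · rw [hn]; unfold zT; ring
  have h2 := uT_add_lt hq hT hG s s' htu ho
  rw [h1]
  have h3 : t * (x0 (sT q T g l s o.1) (sT q T g l s' o.1) + o.2 + T) +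
        sg q g t (z0 (sT q T g l s o.1) (sT q T g l s' o.1)) (sT q T g l u o.1) =
      (t * (x0 (sT q T g l s o.1) (sT q T g l s' o.1) + o.2) +
        sg q g t (z0 (sT q T g l s o.1) (sT q T g l s' o.1)) (sT q T g l u o.1)) + t * T := by
    ring
  rw [h3, ← Nat.mod_add_mod]
  exact Nat.mod_eq_of_lt h2

/-- letters above a switched gadget do not move -/
theorem gad_high (hq : 0 < q) (hG : GadT q T g l H p r z0 x0) (s s' : ℕ) {t u : ℕ}
    (htu : (t = p ∧ u = s) ∨ (t = r ∧ u = s')) {o : ℕ × ℕ} (ho : o.2 < H) {n : ℕ}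
    (hn : n / q ^ o.1 % (q ^ (g + l) * T) = zT q T g l z0 x0 s s' o) {i : ℕ}
    (hi : o.1 + g + l ≤ i) :
    (t * (n + T * q ^ (o.1 + g)) + u) / q ^ i = (t * n + u) / q ^ i := by
  have h1 := carryT hq hG s s' htu o hn
  have h2 := carry_high hq h1 (uT_top hq hG s s' htu ho) hi
  rw [← h2]
  congr 1
  ring

/-- letters below a switched gadget do not move -/
theorem gad_low (hq : 0 < q) {a t u n i : ℕ} (hi : i < a + g) :
    (t * (n + T * q ^ (a + g)) + u) / q ^ i % (q * T) = (t * n + u) / q ^ i % (q * T) := by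
  have h := letter_low (T := T) (t := t) (m := t * n + u) hq hi
  rw [← h]
  congr 2
  ring

end

/-! ### Existence -/

theorem exists_z {Q p r : ℕ} (hp : p.Coprime Q) (hr : r.Coprime Q) (hQ : p + r < Q) (c c' : ℕ) :
    ∃ z, z < Q ∧ (p * z + c) % Q + p < Q ∧ (r * z + c') % Q + r < Q := by
  by_contra hcon
  push Not at hcon
  have h1 : Finset.range Q ⊆
      (Finset.range Q).filter (fun z => Q ≤ (p * z + c) % Q + p) ∪
        (Finset.range Q).filter (fun z => Q ≤ (r * z + c') % Q + r) := by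
    intro z hz
    rw [Finset.mem_union, Finset.mem_filter, Finset.mem_filter]
    have h2 := hcon z (Finset.mem_range.1 hz)
    by_cases h3 : (p * z + c) % Q + p < Q
    · exact Or.inr ⟨hz, h2 h3⟩
    · exact Or.inl ⟨hz, not_lt.1 h3⟩
  have h2 := (Finset.card_le_card h1).trans (Finset.card_union_le _ _)
  have h3 := GadA_bad (Q := Q) (by omega) hp c
  have h4 := GadA_bad (Q := Q) (by omega) hr c'
  rw [Finset.card_range] at h2
  omega

theorem exists_gadT {q p r : ℕ} (hq : 2 ≤ q) (hp : p.Coprime q) (hr : r.Coprime q) (hp0 : 0 < p)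
    (hr0 : 0 < r) (T H l0 : ℕ) :
    ∃ (g l : ℕ) (z0 x0 : ℕ → ℕ → ℕ), l0 ≤ l ∧ GadT q T g l H p r z0 x0 := by
  classical
  obtain ⟨g, hg⟩ : ∃ g, p + r < q ^ g := ⟨p + r, Nat.lt_pow_self hq⟩
  choose z0 hz0 using fun c c' => exists_z (hp.pow_right g) (hr.pow_right g) hg c c'
  obtain ⟨M, hM⟩ : ∃ M, M = H + T := ⟨_, rfl⟩
  obtain ⟨l, hl⟩ : ∃ l, l = l0 + (p + r) * (3 * M) := ⟨_, rfl⟩
  have hQ : (p + r) * (3 * M) ≤ q ^ l := by
    have h1 : (p + r) * (3 * M) < q ^ ((p + r) * (3 * M)) := Nat.lt_pow_self hq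
    have h2 : q ^ ((p + r) * (3 * M)) ≤ q ^ l :=
      Nat.pow_le_pow_right (by omega) (by omega)
    omega
  have hQ0 : 0 < q ^ l := Nat.pow_pos (by omega)
  choose i hi using fun c c' => GadA_x (p := p) (r := r) (M := M) hQ0 hQ
    (sg q g p (z0 c c') c) (sg q g r (z0 c c') c')
  have hconst : ∀ (t s j x : ℕ), (t * (j * M) + s) / q ^ l =
      (t * ((j + 1) * M) + s) / q ^ l → j * M ≤ x → x < j * M + H →
      (t * (x + T) + s) / q ^ l = (t * x + s) / q ^ l := by
    intro t s j x h1 h2 h3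
    have e1 : (j + 1) * M = j * M + M := by ring
    have m : ∀ {x y : ℕ}, x ≤ y → (t * x + s) / q ^ l ≤ (t * y + s) / q ^ l := by
      intro x y hxy
      apply Nat.div_le_div_right
      have := Nat.mul_le_mul_left t hxy
      omega
    have a1 := m h2
    have a2 := m (show x ≤ x + T by omega)
    have a3 := m (show x + T ≤ (j + 1) * M by omega)
    omega
  refine ⟨g, l, z0, fun c c' => i c c' * M, by omega, ?_⟩
  refine ⟨fun c c' => (hz0 c c').1, fun c c' => (hz0 c c').2.1, fun c c' => (hz0 c c').2.2,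
    ?_, ?_, ?_⟩
  · intro c c'
    have h1 : i c c' * M + M ≤ 3 * M := by
      have h2 : (i c c' + 1) * M ≤ 3 * M :=
        Nat.mul_le_mul_right M (by have := (hi c c').1; omega)
      have h3 : (i c c' + 1) * M = i c c' * M + M := by ring
      omega
    have h2 : 3 * M ≤ (p + r) * (3 * M) := Nat.le_mul_of_pos_left _ (by omega)
    show i c c' * M + H + T ≤ q ^ l
    omega
  · intro c c' x h1 h2
    exact hconst p _ (i c c') x (hi c c').2.1 h1 h2
  · intro c c' x h1 h2
    exact hconst r _ (i c c') x (hi c c').2.2 h1 h2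

end Pool.Agent.Lib.MP_3e612f_nt.EM
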