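import Pool.Agent.Lib.MP_3e612f_nt.DI.Vec
import Pool.Agent.Lib.MP_3e612f_nt.DI.GDefs
import Pool.Agent.Lib.MP_3e612f_nt.EM.Gad

/-!
# Moebius orthogonality for digit polynomials of every modulus: definitions (T-form, dnote 3613)

Windows `n / q ^ i % m`; `m = q * T` with `T ≥ 1` arbitrary is the level `T`. Letters: the pairs
(position, window). `FP t n = ∑_{S ⊆ ltr n} t S`. The functions of size `N` are `β n * ee (f n)`,
`β` a frozen factor (it depends on the letters at boundedly many positions), `f` a phase.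
-/

set_option autoImplicit false

namespace Pool.Agent.Lib.MP_3e612f_nt.EM

open Finset
open Pool.Agent.Lib.MP_3e612f_nt.PI (ee mc)
open Pool.Agent.Lib.MP_3e612f_nt.DI (MAdd mlt emb Tm pt av pr vec bi)

/-! ### Letters and phases -/

/-- pairs (position, content of a window modulo `m`) -/
abbrev Lt (m L : ℕ) : Type := Fin L × Fin m

/-- the letters of `n` -/
def ltr (q m L n : ℕ) : Finset (Lt m L) :=
  univ.filter fun x => n / q ^ (x.1 : ℕ) % m = x.2

section
variable {G : Type} [AddCommGroup G]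

/-- the phase with the coefficients `t` -/
def FP (q m L : ℕ) (t : Finset (Lt m L) → G) (n : ℕ) : G :=
  ∑ S ∈ (ltr q m L n).powerset, t S

/-- being a phase of degree `≤ d` with windows modulo `m` at the positions `< L` -/
def IsPL (q m d L : ℕ) (f : ℕ → G) : Prop :=
  ∃ t : Finset (Lt m L) → G, (∀ S, d < S.card → t S = 0) ∧ ∀ n, f n = FP q m L t n

/-- being a phase of degree `≤ d` with windows modulo `m` -/
def IsP (q m d : ℕ) (f : ℕ → G) : Prop := ∃ L, IsPL q m d L f

end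

/-- `β` only depends on the windows modulo `m` at the positions of `I` -/
def DepL (q m : ℕ) (I : Finset ℕ) {E : Type} (β : ℕ → E) : Prop :=
  ∀ n n', (∀ i ∈ I, n / q ^ i % m = n' / q ^ i % m) → β n = β n'

/-- the positions have distance at least `W` -/
def FarL (W : ℕ) {m L : ℕ} (x y : Lt m L) : Prop :=
  (x.1 : ℕ) + W ≤ y.1 ∨ (y.1 : ℕ) + W ≤ x.1

/-! ### Classes of bounded functions -/

/-- `β * ee f`: `β` frozen on at most `B` positions, `f` a phase of degree `≤ d` and level `T` with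
values in `ℤ/M` -/
def Cls (q d T M B L : ℕ) [NeZero M] (F : ℕ → ℂ) : Prop :=
  ∃ (I : Finset ℕ) (β : ℕ → ℂ) (f : ℕ → ZMod M), I.card ≤ B ∧ (∀ n, ‖β n‖ ≤ 1) ∧
    DepL q (q * T) I β ∧ IsPL q (q * T) d L f ∧ ∀ n, F n = β n * ee (f n)

/-- as `Cls`, the leading coefficients are killed by `m'` -/
def ClsK (q d m' T M B L : ℕ) [NeZero M] (F : ℕ → ℂ) : Prop :=
  ∃ (I : Finset ℕ) (β : ℕ → ℂ) (t : Finset (Lt (q * T) L) → ZMod M) (g : ℕ → ZMod M),
    I.card ≤ B ∧ (∀ n, ‖β n‖ ≤ 1) ∧ DepL q (q * T) I β ∧ (∀ S, m' • t S = 0) ∧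
    (∀ S, S.card ≠ d → t S = 0) ∧ IsPL q (q * T) (d - 1) L g ∧
    ∀ n, F n = β n * ee (FP q (q * T) L t n + g n)

/-! ### Rewriting at a higher level -/

/-- the letters of level `T` of the number `q ^ j * c` minus those of `q ^ j * (c % T')`, for the letter
`y = (j, c)` of level `T'` -/
def dl (q T T' L : ℕ) (y : Lt (q * T') L) (x : Lt (q * T) L) : ℤ :=
  if (y.1 : ℕ) ≤ x.1 then
    (if (y.2 : ℕ) / q ^ ((x.1 : ℕ) - y.1) % (q * T) = x.2 then 1 else 0) -
      (if (y.2 : ℕ) % T' / q ^ ((x.1 : ℕ) - y.1) % (q * T) = x.2 then 1 else 0)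
  else 0

/-- the point `y` of level `T'` as an element of the polynomial ring of level `T` -/
noncomputable def xi (ℓ q T T' L : ℕ) (y : Lt (q * T') L) : MvPolynomial (Lt (q * T) L) (ZMod ℓ) :=
  ∑ x, (dl q T T' L y x : ZMod ℓ) • pt x

/-! ### Gadgets

The gadgets are those of `EM/Gad.lean`: a gadget is a pair `o = (a, lam)`, position `a`, label `lam < H`,
its window is `[a, a + g + l)`, its block is `[a + g, a + g + l)`, the shift is `n ↦ n + T * q ^ (a + g)`. -/

/-- the letters of `U`, placed in the block `[A, A + l)` -/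
def blk (q T l L A U : ℕ) : Finset (Lt (q * T) L) :=
  univ.filter fun x => A ≤ (x.1 : ℕ) ∧ (x.1 : ℕ) < A + l ∧ U / q ^ ((x.1 : ℕ) - A) % (q * T) = x.2

/-- the change of the letters when the content of the block `[A, A + l)` moves from `U` to `U'` -/
def bv (q T l L A U U' : ℕ) (x : Lt (q * T) L) : ℤ :=
  (if x ∈ blk q T l L A U' then 1 else 0) - if x ∈ blk q T l L A U then 1 else 0

section
variable (q T g l L : ℕ) (z0 x0 : ℕ → ℕ → ℕ) (s s' p r : ℕ)

/-- the change of the letters of `t n + u` when the gadget `o` is switched on (`u = s` for `t = p`,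
`u = s'` for `t = r`) -/
def gv (u t : ℕ) (o : ℕ × ℕ) (x : Lt (q * T) L) : ℤ :=
  bv q T l L (o.1 + g) (uT q T g l z0 x0 s s' u t o) (uT q T g l z0 x0 s s' u t o + t * T) x

/-- the gadget as a vector -/
noncomputable def Gv (ℓ : ℕ) {P H : ℕ} (v : Fin P × Fin H) :
    MvPolynomial (Lt (q * T) L) (ZMod ℓ) × MvPolynomial (Lt (q * T) L) (ZMod ℓ) :=
  (∑ x, (gv q T g l L z0 x0 s s' s p (v.1, v.2) x : ZMod ℓ) • pt x,
    ∑ x, (gv q T g l L z0 x0 s s' s' r (v.1, v.2) x : ZMod ℓ) • pt x)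

/-- the multilinear form of the gadgets `o i`, for the sum `f (p n + s) + f' (r n + s')` -/
def BB {G : Type} [AddCommGroup G] {d : ℕ} {ι : Type} [Fintype ι] (o : ι → ℕ × ℕ)
    (t t' : Finset (Lt (q * T) L) → G) (δ : Fin d → ι → ℤ) : G :=
  mlt t (fun j x => ∑ i, δ j i * gv q T g l L z0 x0 s s' s p (o i) x) +
    mlt t' fun j x => ∑ i, δ j i * gv q T g l L z0 x0 s s' s' r (o i) x

end

/-- the sum of two tensors, on pairs -/
noncomputable def T2 {ℓ : ℕ} {R : Type} [CommRing R] (T T' : R →+ ZMod ℓ) : R × R →+ ZMod ℓ :=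
  T.comp (AddMonoidHom.fst R R) + T'.comp (AddMonoidHom.snd R R)

end Pool.Agent.Lib.MP_3e612f_nt.EM
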