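import Pool.Agent.Lib.MP_3e612f_nt.DI.FRed

/-!
Reduction of a structured phase, all moduli, exceptional points frozen.

PROOF of `choose_modT`. Vandermonde: `C(Q + M d! y, a) = ∑_j C(M d! y, j) C(Q, a - j)`, and for `1 ≤ j ≤ a ≤ d` `C(M d! y, j) = M (d! / j) y C(M d! y - 1, j - 1)` is divisible by `M`. (As `DI.choose_mod`.)
PROOF of `f_reduceT`. As `DI.f_reduce`, simpler: `p = pcf M l c e Fh d lam`; `∑_{S ⊆ U} t S = Pst (QF κ U) + ∑_{S ⊆ U} (t - p) S`, and with `ω = U ∩ E`, `∑_{S ⊆ U} (t - p) S = ∑_{S ⊆ U} t1 ω S`,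
`t1 ω S = if Disjoint S E then ∑_{V ⊆ ω} (t - p) (V ∪ S) else 0` (every `S ⊆ U` is `(S ∩ E) ∪ (S \ E)` with `S ∩ E ⊆ ω`). `|S| > d`: `t1 = 0`; `|S| = d`: only `V = ∅` counts (`t - p` vanishes above `d`), so `t1 ω S = t S - p S`, which is
killed by `m1` for far `S` disjoint from `E` (same computation as in `DI.f_reduce`: `pcf_top`). `Ψ (z) = ee (Pst M l c e d lam fun κ => (z κ).val)` on `(ZMod M2) ^ n`, `PI.fourier_exists`; `Pst` only depends on the `Q κ` modulo `M2 = M * d !`
(`choose_modT`). `t' ω τ S = ∑_κ τ κ * (if S.card = e κ then Fh κ S else 0) + embM (t1 ω S)`, `T = Fin n → ZMod M2`.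
-/

set_option autoImplicit false

namespace Pool.Agent.Lib.MP_3e612f_nt.EM

open Finset
open Pool.Agent.Lib.MP_3e612f_nt.PI (ee mc)
open Pool.Agent.Lib.MP_3e612f_nt.DI

private theorem FRed_dvd {M d j y : ℕ} (hj : 1 ≤ j) (hjd : j ≤ d) :
    M ∣ (M * d.factorial * y).choose j := by
  obtain ⟨i, rfl⟩ : ∃ i, j = i + 1 := ⟨j - 1, by omega⟩
  obtain ⟨r, hr⟩ : i + 1 ∣ d.factorial := Nat.dvd_factorial (by omega) hjd
  rcases Nat.eq_zero_or_pos (M * d.factorial * y) with h0 | h0
  · rw [h0, Nat.choose_zero_succ]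
    exact dvd_zero M
  · obtain ⟨N, hN⟩ : ∃ N, M * d.factorial * y = N + 1 := ⟨M * d.factorial * y - 1, by omega⟩
    have h1 := Nat.add_one_mul_choose_eq N i
    rw [← hN, hr] at h1
    rw [hr]
    have h2 : (i + 1) * (M * ((i + 1) * r) * y).choose (i + 1) =
        (i + 1) * (M * (r * y * N.choose i)) := by
      rw [mul_comm (i + 1) (Nat.choose _ _), ← h1]
      ring
    rw [Nat.eq_of_mul_eq_mul_left (Nat.succ_pos i) h2]
    exact dvd_mul_right M _

private theorem FRed_add {M d a Q y : ℕ} (ha : a ≤ d) :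
    (Q + M * d.factorial * y).choose a ≡ Q.choose a [MOD M] := by
  rw [add_comm Q, Nat.add_choose_eq]
  have h1 : ∀ ij ∈ Finset.HasAntidiagonal.antidiagonal a, (M * d.factorial * y).choose ij.1 * Q.choose ij.2 ≡
      (if ij = (0, a) then Q.choose a else 0) [MOD M] := by
    rintro ⟨i, j⟩ hij
    rw [Finset.HasAntidiagonal.mem_antidiagonal] at hij
    rcases Nat.eq_zero_or_pos i with rfl | hi
    · have h2 : j = a := by simpa using hij
      subst h2
      rw [if_pos rfl, Nat.choose_zero_right, one_mul]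
    · rw [if_neg (by
        intro h
        have := congrArg Prod.fst h
        simp only at this
        omega)]
      refine (Nat.modEq_zero_iff_dvd).2 (Dvd.dvd.mul_right (FRed_dvd hi ?_) _)
      simp only at hij
      omega
  refine (Nat.ModEq.sum h1).trans ?_
  rw [Finset.sum_ite_eq', if_pos (by simp)]

theorem choose_modT {M d a Q Q' : ℕ} (ha : a ≤ d) (h : Q ≡ Q' [MOD M * d.factorial]) :
    Q.choose a ≡ Q'.choose a [MOD M] := by
  rcases le_total Q Q' with hQ | hQ
  · obtain ⟨y, hy⟩ := (Nat.modEq_iff_dvd' hQ).1 h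
    have h1 : Q' = Q + M * d.factorial * y := by omega
    rw [h1]
    exact (FRed_add ha).symm
  · obtain ⟨y, hy⟩ := (Nat.modEq_iff_dvd' hQ).1 h.symm
    have h1 : Q = Q' + M * d.factorial * y := by omega
    rw [h1]
    exact FRed_add ha

private theorem FRed_Pst {n M l c d : ℕ} {e : Fin n → ℕ}
    (he : ∀ κ, 1 ≤ e κ) (lam : (Fin n → ℕ) → ZMod l) {Q Q' : Fin n → ℕ}
    (h : ∀ κ, Q κ ≡ Q' κ [MOD M * d.factorial]) :
    Pst M l c e d lam Q = Pst M l c e d lam Q' := by
  unfold Pst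
  rw [ZMod.natCast_eq_natCast_iff]
  refine Nat.ModEq.mul_left c ?_
  refine Nat.ModEq.sum fun a ha => Nat.ModEq.mul_left _ ?_
  refine Nat.ModEq.prod fun κ _ => ?_
  refine choose_modT (d := d) ?_ (h κ)
  have h1 := (mem_types he).1 ha
  have h2 : a κ * e κ ≤ ∑ κ, a κ * e κ :=
    Finset.single_le_sum (f := fun κ => a κ * e κ) (fun _ _ => Nat.zero_le _) (Finset.mem_univ κ)
  have h3 : a κ ≤ a κ * e κ := Nat.le_mul_of_pos_right _ (he κ)
  omega

/-- every subset of `U` is `V ∪ S` with `V ⊆ U ∩ E` and `S` disjoint from `E` -/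
private theorem FRed_split {X G : Type} [DecidableEq X] [AddCommGroup G] (E : Finset X)
    (g : Finset X → G) (U : Finset X) :
    ∑ S ∈ U.powerset, g S =
      ∑ S ∈ U.powerset, if Disjoint S E then ∑ V ∈ ((U ∩ E) ∩ E).powerset, g (V ∪ S) else 0 := by
  rw [← Finset.sum_filter, ← Finset.sum_product']
  refine Finset.sum_nbij' (fun S => (S \ E, S ∩ E)) (fun p => p.2 ∪ p.1) ?_ ?_ ?_ ?_ ?_
  · intro S hS
    rw [Finset.mem_powerset] at hS
    rw [Finset.mem_product, Finset.mem_filter, Finset.mem_powerset, Finset.mem_powerset]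
    refine ⟨⟨Finset.sdiff_subset.trans hS, Finset.sdiff_disjoint⟩, ?_⟩
    rw [Finset.inter_assoc, Finset.inter_self]
    exact Finset.inter_subset_inter_right hS
  · rintro ⟨S, V⟩ hp
    rw [Finset.mem_product, Finset.mem_filter, Finset.mem_powerset, Finset.mem_powerset] at hp
    obtain ⟨⟨h1, -⟩, h3⟩ := hp
    rw [Finset.mem_powerset]
    refine Finset.union_subset ?_ h1
    exact (h3.trans Finset.inter_subset_left).trans Finset.inter_subset_left
  · intro S _
    show (S ∩ E) ∪ (S \ E) = S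
    rw [Finset.union_comm]
    exact Finset.sdiff_union_inter S E
  · rintro ⟨S, V⟩ hp
    rw [Finset.mem_product, Finset.mem_filter, Finset.mem_powerset, Finset.mem_powerset] at hp
    obtain ⟨⟨h1, h2⟩, h3⟩ := hp
    simp only at h1 h2 h3
    have hV : V ⊆ E := h3.trans Finset.inter_subset_right
    show ((V ∪ S) \ E, (V ∪ S) ∩ E) = (S, V)
    refine Prod.ext ?_ ?_
    · show (V ∪ S) \ E = S
      rw [Finset.union_sdiff_distrib, Finset.sdiff_eq_empty_iff_subset.2 hV, Finset.empty_union,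
        Finset.sdiff_eq_self_of_disjoint h2]
    · show (V ∪ S) ∩ E = V
      rw [Finset.union_inter_distrib_right, Finset.disjoint_iff_inter_eq_empty.1 h2,
        Finset.union_empty, Finset.inter_eq_left.2 hV]
  · intro S _
    show g S = g ((S ∩ E) ∪ (S \ E))
    rw [Finset.union_comm, Finset.sdiff_union_inter S E]

theorem f_reduceT {X : Type} [DecidableEq X] {M M2 l m1 d n : ℕ} [NeZero M] [NeZero M2]
    [NeZero l] (hd : 1 ≤ d) (hM2 : M2 = M * d.factorial)
    (hl : l * m1 ∣ M) (t : Finset X → ZMod M) (ht : ∀ S, d < S.card → t S = 0)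
    (tint : Finset X → ℤ)
    (htint : ∀ S, S.card = d → t S = (((M / (l * m1) : ℕ) * tint S : ℤ) : ZMod M))
    (E : Finset X) (Far : Finset X → Prop) (e : Fin n → ℕ) (he : ∀ κ, 1 ≤ e κ ∧ e κ < d)
    (Fl : Fin n → Finset X → ZMod l) (lam : (Fin n → ℕ) → ZMod l)
    (hstr : ∀ S, S.card = d → Disjoint S E → Far S →
      (tint S : ZMod l) = ∑ N ∈ LP e S, lam (mul N) * ∏ p ∈ N, Fl p.2 p.1) :
    ∃ (T : Type) (_ : Fintype T) (a : T → ℂ) (t' : Finset X → T → Finset X → ZMod M2),
      Fintype.card T = M2 ^ n ∧ (∀ τ, ‖a τ‖ ≤ 1) ∧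
      (∀ ω τ S, d < S.card → t' ω τ S = 0) ∧
      (∀ ω τ S, S.card = d → t' ω τ S ≠ 0 → Disjoint S E ∧ (Far S → m1 • t' ω τ S = 0)) ∧
      ∀ U : Finset X, ee (∑ S ∈ U.powerset, t S) =
        ∑ τ, a τ * ee (∑ S ∈ U.powerset, t' (U ∩ E) τ S) := by
  classical
  have he1 : ∀ κ, 1 ≤ e κ := fun κ => (he κ).1
  have hMM2 : M ∣ M2 := by rw [hM2]; exact dvd_mul_right M _
  set c : ℕ := M / (l * m1) with hc
  have hcM : c * (l * m1) = M := Nat.div_mul_cancel hl
  set Fh : Fin n → Finset X → ℕ := fun κ B => (Fl κ B).val with hFh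
  set p : Finset X → ZMod M := pcf M l c e Fh d lam with hp
  have hhigh : ∀ S : Finset X, d < S.card → t S - p S = 0 := by
    intro S hS
    rw [ht S hS, hp, pcf_high he1 Fh lam hS, sub_zero]
  set t1 : Finset X → Finset X → ZMod M := fun ω S =>
    if Disjoint S E then ∑ V ∈ (ω ∩ E).powerset, (t (V ∪ S) - p (V ∪ S)) else 0 with ht1
  let th : Fin n → Finset X → ZMod M2 := fun κ S =>
    if S.card = e κ then (Fh κ S : ZMod M2) else 0
  let y : Finset X → Fin n → ZMod M2 := fun U κ => ∑ S ∈ U.powerset, th κ S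
  let Ψ : (Fin n → ZMod M2) → ℂ := fun z => ee (Pst M l c e d lam fun κ => (z κ).val)
  have hΨ : ∀ z, ‖Ψ z‖ ≤ 1 := by
    intro z
    show ‖ee _‖ ≤ 1
    rw [PI.Fou_norm]
  obtain ⟨a, ha, hexp⟩ := PI.fourier_exists M2 Ψ hΨ
  have hyQ : ∀ U κ, y U κ = (QF e Fh κ U : ZMod M2) := by
    intro U κ
    show (∑ S ∈ U.powerset, if S.card = e κ then (Fh κ S : ZMod M2) else 0) = _
    have h1 := congrArg (fun z : ℤ => (z : ZMod M2)) (QF_eq e Fh κ U)
    simp only [Int.cast_sum, Int.cast_natCast] at h1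
    rw [h1]
    refine Finset.sum_congr rfl fun S _ => ?_
    split_ifs <;> simp
  -- the main identity
  have hmain : ∀ U : Finset X, ee (∑ S ∈ U.powerset, t S) =
      Ψ (y U) * ee (embM hMM2 (∑ S ∈ U.powerset, t1 (U ∩ E) S)) := by
    intro U
    have h1 : ∑ S ∈ U.powerset, t S = Pst M l c e d lam (fun κ => QF e Fh κ U) +
        ∑ S ∈ U.powerset, t1 (U ∩ E) S := by
      have h3 : ∑ S ∈ U.powerset, t1 (U ∩ E) S = ∑ S ∈ U.powerset, (t S - p S) :=
        (FRed_split E (fun S => t S - p S) U).symm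
      rw [h3, Pst_eq M l c e Fh d lam U, ← Finset.sum_add_distrib]
      refine Finset.sum_congr rfl fun S _ => ?_
      rw [← hp]
      ring
    have h2 : Pst M l c e d lam (fun κ => QF e Fh κ U) =
        Pst M l c e d lam (fun κ => (y U κ).val) := by
      refine FRed_Pst he1 lam fun κ => ?_
      rw [hyQ, ← hM2, ZMod.val_natCast]
      exact (Nat.mod_modEq _ _).symm
    rw [h1, PI.Kat_ee_add, h2, ee_embM hMM2]
  have hth0 : ∀ κ S, d ≤ S.card → th κ S = 0 := by
    intro κ S hS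
    show (if S.card = e κ then (Fh κ S : ZMod M2) else 0) = 0
    rw [if_neg]
    have := (he κ).2
    omega
  refine ⟨Fin n → ZMod M2, inferInstance, a,
    fun ω τ S => (∑ κ, τ κ * th κ S) + embM hMM2 (t1 ω S), ?_, ha, ?_, ?_, ?_⟩
  · rw [Fintype.card_fun, ZMod.card, Fintype.card_fin]
  · intro ω τ S hS
    have h2 : t1 ω S = 0 := by
      simp only [ht1]
      split_ifs
      · refine Finset.sum_eq_zero fun V _ => hhigh _ ?_
        exact lt_of_lt_of_le hS (Finset.card_le_card Finset.subset_union_right)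
      · rfl
    show (∑ κ, τ κ * th κ S) + embM hMM2 (t1 ω S) = 0
    rw [h2, map_zero, add_zero]
    exact Finset.sum_eq_zero fun κ _ => by rw [hth0 κ S hS.le, mul_zero]
  · intro ω τ S hS hne
    have h0 : ∑ κ, τ κ * th κ S = 0 :=
      Finset.sum_eq_zero fun κ _ => by rw [hth0 κ S hS.ge, mul_zero]
    simp only [h0, zero_add] at hne ⊢
    by_cases hdis : Disjoint S E
    · refine ⟨hdis, fun hfar => ?_⟩
      have h2 : t1 ω S = t S - p S := by
        simp only [ht1]
        rw [if_pos hdis, Finset.sum_eq_single (∅ : Finset X), Finset.empty_union]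
        · intro V hV hV0
          rw [Finset.mem_powerset] at hV
          apply hhigh
          rw [Finset.card_union_of_disjoint
            (Finset.disjoint_of_subset_left (hV.trans Finset.inter_subset_right) hdis.symm), hS]
          have := Finset.card_pos.2 (Finset.nonempty_iff_ne_empty.2 hV0)
          omega
        · intro h
          exact absurd (Finset.empty_mem_powerset _) h
      have h3 := pcf_top he1 Fl lam hS
      rw [← hstr S hS hdis hfar, ZMod.intCast_eq_intCast_iff] at h3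
      obtain ⟨k, hk⟩ := h3.dvd
      have h4 : t1 ω S = ((c * (l * k) : ℤ) : ZMod M) := by
        rw [h2, htint S hS, hp]
        unfold pcf
        rw [← Int.cast_sub, ← mul_sub, hk]
      rw [← map_nsmul, h4, nsmul_eq_mul, ← Int.cast_natCast m1, ← Int.cast_mul]
      have h5 : ((m1 : ℤ) * (c * (l * k))) = (M : ℤ) * k := by
        rw [← hcM]
        push_cast
        ring
      rw [h5, Int.cast_mul, Int.cast_natCast, ZMod.natCast_self, zero_mul, map_zero]
    · exfalso
      apply hne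
      simp only [ht1]
      rw [if_neg hdis, map_zero]
  · intro U
    rw [hmain U, hexp (y U), Finset.sum_mul]
    refine Finset.sum_congr rfl fun τ _ => ?_
    rw [mul_assoc, ← PI.Kat_ee_add]
    congr 2
    rw [Finset.sum_add_distrib, Finset.sum_comm, map_sum]
    congr 1
    refine Finset.sum_congr rfl fun k _ => ?_
    rw [Finset.mul_sum]

end Pool.Agent.Lib.MP_3e612f_nt.EM
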