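import Pool.Agent.Lib.MP_3e612f_nt.EM.Ph

/-!
Merging near letters; splitting of the leading part.

PROOFS. `isPL_near`: `[S ⊆ ltr n] t S` for a set `S` with two different letters `x`, `y`,
`x.1 ≤ y.1 < x.1 + W`: the window modulo `q T` at `y.1` is a function of the window modulo `q T q ^ W`
at `x.1`, so the term depends on the windows modulo `q (T q ^ W)` at `≤ d - 1` positions. (If
`x.1 = y.1` the term is `0`.) `lead_split`: the near sets and those with fewer than `d` elements go to
`g`; the far ones: `FP_tup`, `tup_kill`, `tup_ne` of `EM/Rew.lean` from level `T` to level `T q ^ W`.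
-/

set_option autoImplicit false

namespace Pool.Agent.Lib.MP_3e612f_nt.EM

open Finset
open Pool.Agent.Lib.MP_3e612f_nt.PI (ee mc)

variable {G : Type} [AddCommGroup G] {q d L : ℕ}

/-- the window at `i` of level `T * q ^ W` determines the windows at `i + k`, `k ≤ W`, of level `T` -/
theorem window_near {q T W k : ℕ} (hq : 0 < q) (hk : k ≤ W) (n i : ℕ) :
    n / q ^ (i + k) % (q * T) = n / q ^ i % (q * (T * q ^ W)) / q ^ k % (q * T) := by
  have h1 : q * (T * q ^ W) = q ^ k * (q * T * q ^ (W - k)) := by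
    have h2 : q ^ W = q ^ k * q ^ (W - k) := by
      rw [← pow_add]
      congr 1
      omega
    rw [h2]
    ring
  rw [h1, Nat.mod_mul_right_div_self, Nat.mod_mod_of_dvd _ (Dvd.intro _ rfl), Nat.div_div_eq_div_mul,
    ← pow_add]

theorem isPL_near (hq2 : 2 ≤ q) (hd : 1 ≤ d) {T : ℕ} (hT : 0 < T) (W : ℕ)
    (t : Finset (Lt (q * T) L) → G)
    (ht : ∀ S, t S ≠ 0 → S.card < d ∨ (S.card ≤ d ∧ ∃ x ∈ S, ∃ y ∈ S, x ≠ y ∧ ¬ FarL W x y)) :
    IsPL q (q * (T * q ^ W)) (d - 1) L (FP q (q * T) L t) := by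
  classical
  have hq : 0 < q := by omega
  have hm' : 0 < q * (T * q ^ W) := Nat.mul_pos hq (Nat.mul_pos hT (pow_pos hq W))
  refine (IsPL.sum univ fun S _ => ?_).congr fun n => FP_eq (q := q) t n
  by_cases ht0 : t S = 0
  · rw [ht0]
    simp only [ite_self]
    exact isPL_zero
  have hSd : S.card ≤ d := by
    rcases ht S ht0 with h | h
    · exact h.le
    · exact h.1
  have hmod : ∀ {n n' i : ℕ}, n / q ^ i % (q * (T * q ^ W)) = n' / q ^ i % (q * (T * q ^ W)) →
      ∀ k, k ≤ W → n / q ^ (i + k) % (q * T) = n' / q ^ (i + k) % (q * T) := by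
    intro n n' i h k hk
    rw [window_near hq hk, window_near hq hk, h]
  rcases Nat.lt_or_ge S.card d with h1 | h1
  · -- smaller order
    refine isPL_of_dep (P := S.image fun x => (x.1 : ℕ)) ?_ (fun i hi => ?_) hm'
      (fun n n' h => ?_)
    · have h2 : (S.image fun x => (x.1 : ℕ)).card ≤ S.card := Finset.card_image_le
      omega
    · obtain ⟨x, _, rfl⟩ := ph_mem_posn.1 hi
      exact x.1.2
    · refine dep_letters S (t S) n n' fun i hi => ?_
      have := hmod (h i hi) 0 (Nat.zero_le _)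
      rwa [add_zero] at this
  · -- two near letters
    have h2 : S.card = d := le_antisymm hSd h1
    have key : ∀ x ∈ S, ∀ y ∈ S, x ≠ y → (x.1 : ℕ) ≤ y.1 → (y.1 : ℕ) ≤ x.1 + W →
        IsPL q (q * (T * q ^ W)) (d - 1) L fun n => if S ⊆ ltr q (q * T) L n then t S else 0 := by
      intro x hx y hy hxy hle hle'
      by_cases heq : (x.1 : ℕ) = y.1
      · -- the same position: the two letters never occur together
        have h3 : ∀ n, ¬ S ⊆ ltr q (q * T) L n := by
          intro n h4
          refine hxy (Prod.ext (Fin.ext heq) (Fin.ext ?_))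
          rw [← mem_ltr.1 (h4 hx), ← mem_ltr.1 (h4 hy), heq]
        exact isPL_zero.congr fun n => if_neg (h3 n)
      · refine isPL_of_dep (P := (S.erase y).image fun x => (x.1 : ℕ)) ?_ (fun i hi => ?_) hm'
          fun n n' h => ?_
        · have h3 : ((S.erase y).image fun x => (x.1 : ℕ)).card ≤ (S.erase y).card :=
            Finset.card_image_le
          rw [Finset.card_erase_of_mem hy, h2] at h3
          exact h3
        · obtain ⟨z, _, rfl⟩ := ph_mem_posn.1 hi
          exact z.1.2
        · refine dep_letters S (t S) n n' fun i hi => ?_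
          obtain ⟨z, hz, rfl⟩ := ph_mem_posn.1 hi
          by_cases hzy : z = y
          · have h4 := hmod (h x.1 (ph_mem_posn.2 ⟨x, Finset.mem_erase.2 ⟨hxy, hx⟩, rfl⟩))
              ((y.1 : ℕ) - x.1) (by omega)
            rw [Nat.add_sub_cancel' hle] at h4
            rw [hzy]
            exact h4
          · have h4 := hmod (h z.1 (ph_mem_posn.2 ⟨z, Finset.mem_erase.2 ⟨hzy, hz⟩, rfl⟩)) 0
              (Nat.zero_le _)
            rwa [add_zero] at h4
    obtain ⟨x, hx, y, hy, hxy, hfar⟩ : ∃ x ∈ S, ∃ y ∈ S, x ≠ y ∧ ¬ FarL W x y := by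
      rcases ht S ht0 with h | h
      · omega
      · exact h.2
    unfold FarL at hfar
    push Not at hfar
    rcases le_total (x.1 : ℕ) y.1 with h3 | h3
    · exact key x hx y hy hxy h3 (by omega)
    · exact key y hy x hx (Ne.symm hxy) h3 (by omega)

/-- the leading part and the lower part -/
theorem lead_split (hq : 2 ≤ q) (hd : 1 ≤ d) {T : ℕ} (hT : 0 < T) (W m1 : ℕ)
    (t : Finset (Lt (q * T) L) → G) (ht : ∀ S, d < S.card → t S = 0)
    (hk : ∀ S, S.card = d → (∀ x ∈ S, ∀ y ∈ S, x ≠ y → FarL W x y) → m1 • t S = 0) :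
    ∃ (t' : Finset (Lt (q * (T * q ^ W)) L) → G) (g : ℕ → G), (∀ S, m1 • t' S = 0) ∧
      (∀ S, S.card ≠ d → t' S = 0) ∧ IsPL q (q * (T * q ^ W)) (d - 1) L g ∧
      ∀ n, FP q (q * T) L t n = FP q (q * (T * q ^ W)) L t' n + g n := by
  classical
  have hq0 : 0 < q := by omega
  have hT' : 0 < T * q ^ W := Nat.mul_pos hT (pow_pos hq0 W)
  have hTT : T ∣ T * q ^ W := Dvd.intro _ rfl
  set P : Finset (Lt (q * T) L) → Prop := fun S =>
    S.card = d ∧ ∀ x ∈ S, ∀ y ∈ S, x ≠ y → FarL W x y with hP
  set t1 : Finset (Lt (q * T) L) → G := fun S => if P S then t S else 0 with ht1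
  set t2 : Finset (Lt (q * T) L) → G := fun S => if P S then 0 else t S with ht2
  have e1 : ∀ S, S.card ≠ d → t1 S = 0 := fun S hS => if_neg fun h => hS h.1
  have e2 : ∀ S, m1 • t1 S = 0 := by
    intro S
    by_cases h : P S
    · rw [show t1 S = t S from if_pos h]
      exact hk S h.1 h.2
    · rw [show t1 S = 0 from if_neg h, smul_zero]
  have e3 := isPL_near (L := L) hq hd hT W t2 (by
    intro S hS
    have h1 : ¬ P S := fun h => hS (if_pos h)
    have h2 : t S ≠ 0 := by
      rwa [show t2 S = t S from if_neg h1] at hS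
    have h3 : S.card ≤ d := not_lt.1 fun h => h2 (ht S h)
    rcases Nat.lt_or_ge S.card d with h4 | h4
    · exact Or.inl h4
    · refine Or.inr ⟨h3, ?_⟩
      by_contra h5
      push Not at h5
      exact h1 ⟨le_antisymm h3 h4, h5⟩)
  obtain ⟨g, hg, hgF⟩ := FP_tup (d := d) hd hq0 hT' hTT e1
  refine ⟨tup q d T (T * q ^ W) L t1, fun n => g n + FP q (q * T) L t2 n, tup_kill e2,
    fun S hS => tup_ne t1 hS, hg.add e3, fun n => ?_⟩
  rw [← add_assoc, ← hgF n, ← FP_add]
  congr 1
  funext S
  by_cases h : P S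
  · rw [show t1 S = t S from if_pos h, show t2 S = 0 from if_pos h, add_zero]
  · rw [show t1 S = 0 from if_neg h, show t2 S = t S from if_neg h, zero_add]

end Pool.Agent.Lib.MP_3e612f_nt.EM
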