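import Pool.Agent.Lib.MP_3e612f_nt.DI.Alt
import Pool.Agent.Lib.MP_3e612f_nt.EM.Defs

/-!
# Rewriting of a phase with the letters of a higher level

Letters of level `T`: the pairs `(i, n / q ^ i % (q * T))`. For `T ∣ T'` every letter of level `T` is an
integer combination of the letters of level `T'`: with `n_j = n % q ^ j + q ^ j * (n / q ^ j % T')` the
letters of `n_(j + 1)` and `n_j` differ by a vector `delta j c` which only depends on
`c = n / q ^ j % (q * T')`.
-/

set_option autoImplicit false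

namespace Pool.Agent.Lib.MP_3e612f_nt.EM

open Finset
open Pool.Agent.Lib.MP_3e612f_nt.DI (mlt Tm pt Tm_mlt)

/-! ### (i) the linear identity -/

section
variable {G : Type} [AddCommGroup G]

/-- the change of the letters of level `T` when the content `c % T'` of the position `j` is replaced by
`c` -/
def delta (q T T' L : ℕ) (e : ℕ → ℕ → G) (j c : ℕ) : G :=
  ∑ k ∈ range (L - j), (e (j + k) (c / q ^ k % (q * T)) - e (j + k) (c % T' / q ^ k % (q * T)))

/-- the number with the digits of `n` below `j` and the content `n / q ^ j % T'` above -/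
def nj (q T' n j : ℕ) : ℕ := n % q ^ j + q ^ j * (n / q ^ j % T')

theorem nj_zero (q T' n : ℕ) : nj q T' n 0 = n % T' := by
  unfold nj
  rw [pow_zero, Nat.mod_one, Nat.div_one, one_mul, zero_add]

theorem nj_eq (q T' n j : ℕ) :
    nj q T' n j = n % q ^ j + q ^ j * (n / q ^ j % (q * T') % T') := by
  unfold nj
  rw [Nat.mod_mod_of_dvd _ (Dvd.intro_left q rfl)]

theorem nj_succ (q T' n j : ℕ) :
    nj q T' n (j + 1) = n % q ^ j + q ^ j * (n / q ^ j % (q * T')) := by
  unfold nj
  rw [pow_succ, Nat.mod_mul (x := n), Nat.mod_mul (x := n / q ^ j), ← Nat.div_div_eq_div_mul]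
  ring

/-- letters below `j` only depend on the content modulo `T` -/
theorem lett_low {q T i j : ℕ} (hq : 0 < q) (hij : i < j) {r c c' : ℕ} (h : c % T = c' % T) :
    (r + q ^ j * c) / q ^ i % (q * T) = (r + q ^ j * c') / q ^ i % (q * T) := by
  have h1 : ∀ c : ℕ, (r + q ^ j * c) / q ^ i = r / q ^ i + q * (q ^ (j - i - 1) * c) := by
    intro c
    have h2 : q ^ j * c = q ^ i * (q * (q ^ (j - i - 1) * c)) := by
      rw [← mul_assoc q, ← pow_succ', ← mul_assoc, ← pow_add]
      congr 2
      omega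
    rw [h2, Nat.add_mul_div_left _ _ (pow_pos hq i)]
  rw [h1, h1]
  refine Nat.ModEq.add_left _ ?_
  exact Nat.ModEq.mul_left' q (Nat.ModEq.mul_left _ h)

/-- letters above `j` -/
theorem lett_high {q j k : ℕ} (hq : 0 < q) (n c : ℕ) :
    (n % q ^ j + q ^ j * c) / q ^ (j + k) = c / q ^ k := by
  rw [pow_add, ← Nat.div_div_eq_div_mul, Nat.add_mul_div_left _ _ (pow_pos hq j),
    Nat.div_eq_of_lt (Nat.mod_lt _ (pow_pos hq j)), zero_add]

theorem sum_split {L j : ℕ} (f : ℕ → G) :
    ∑ i ∈ range L, f i = ∑ i ∈ range (min j L), f i + ∑ k ∈ range (L - j), f (j + k) := by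
  rcases le_total j L with h | h
  · rw [min_eq_left h, ← Finset.sum_range_add_sum_Ico f h, Finset.sum_Ico_eq_sum_range]
  · rw [min_eq_right h, Nat.sub_eq_zero_of_le h, Finset.range_zero, Finset.sum_empty, add_zero]

theorem delta_eq {q T T' : ℕ} (hq : 0 < q) (hT : T ∣ T') (L : ℕ) (e : ℕ → ℕ → G) (n j : ℕ) :
    ∑ i ∈ range L, e i (nj q T' n (j + 1) / q ^ i % (q * T)) -
        ∑ i ∈ range L, e i (nj q T' n j / q ^ i % (q * T)) =
      delta q T T' L e j (n / q ^ j % (q * T')) := by
  rw [sum_split (j := j) fun i => e i (nj q T' n (j + 1) / q ^ i % (q * T)),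
    sum_split (j := j) fun i => e i (nj q T' n j / q ^ i % (q * T))]
  have h1 : ∑ i ∈ range (min j L), e i (nj q T' n (j + 1) / q ^ i % (q * T)) =
      ∑ i ∈ range (min j L), e i (nj q T' n j / q ^ i % (q * T)) := by
    refine Finset.sum_congr rfl fun i hi => ?_
    rw [Finset.mem_range] at hi
    rw [nj_succ, nj_eq, lett_low hq (lt_of_lt_of_le hi (min_le_left _ _))]
    rw [Nat.mod_mod_of_dvd _ hT]
  have h2 : ∀ c : ℕ, ∀ k : ℕ, (n % q ^ j + q ^ j * c) / q ^ (j + k) = c / q ^ k :=
    fun c k => lett_high hq n c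
  rw [h1, add_sub_add_left_eq_sub, ← Finset.sum_sub_distrib]
  unfold delta
  refine Finset.sum_congr rfl fun k _ => ?_
  rw [nj_succ, nj_eq, h2, h2]

/-- the linear identity -/
theorem rew_vec {q T T' : ℕ} (hq : 0 < q) (hT : T ∣ T') (L : ℕ) (e : ℕ → ℕ → G) (n : ℕ) :
    ∑ i ∈ range L, e i (n / q ^ i % (q * T)) =
      ∑ i ∈ range L, e i (n % T' / q ^ i % (q * T)) +
        ∑ j ∈ range L, delta q T T' L e j (n / q ^ j % (q * T')) := by
  have h1 : ∑ i ∈ range L, e i (n / q ^ i % (q * T)) =
      ∑ i ∈ range L, e i (nj q T' n L / q ^ i % (q * T)) := by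
    refine Finset.sum_congr rfl fun i hi => ?_
    rw [Finset.mem_range] at hi
    unfold nj
    rw [lett_low (c' := n / q ^ L) hq hi (Nat.mod_mod_of_dvd _ hT), Nat.mod_add_div]
  have h2 : ∑ j ∈ range L, delta q T T' L e j (n / q ^ j % (q * T')) =
      ∑ i ∈ range L, e i (nj q T' n L / q ^ i % (q * T)) -
        ∑ i ∈ range L, e i (nj q T' n 0 / q ^ i % (q * T)) := by
    rw [← Finset.sum_range_sub (fun j => ∑ i ∈ range L, e i (nj q T' n j / q ^ i % (q * T)))]
    exact Finset.sum_congr rfl fun j _ => (delta_eq hq hT L e n j).symm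
  rw [h1, h2, nj_zero]
  abel

/-- the vector of the letter `(j, c)` of level `T'`, all letters of the number `c` at `j = 0` -/
def del0 (q T T' L : ℕ) (e : ℕ → ℕ → G) (j c : ℕ) : G :=
  if j = 0 then ∑ i ∈ range L, e i (c / q ^ i % (q * T)) else delta q T T' L e j c

/-- the linear identity, the letters of `n % T'` included in the letter at `0` -/
theorem rew_vec0 {q T T' L : ℕ} (hq : 0 < q) (hT : T ∣ T') (hL : 0 < L) (e : ℕ → ℕ → G) (n : ℕ) :
    ∑ i ∈ range L, e i (n / q ^ i % (q * T)) =
      ∑ j ∈ range L, del0 q T T' L e j (n / q ^ j % (q * T')) := by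
  rw [rew_vec hq hT L e n]
  obtain ⟨L', rfl⟩ := Nat.exists_eq_add_of_lt hL
  rw [zero_add, Finset.sum_range_succ' (fun j => delta q T T' (L' + 1) e j (n / q ^ j % (q * T'))),
    Finset.sum_range_succ' (fun j => del0 q T T' (L' + 1) e j (n / q ^ j % (q * T')))]
  have h1 : ∑ k ∈ range L', delta q T T' (L' + 1) e (k + 1) (n / q ^ (k + 1) % (q * T')) =
      ∑ k ∈ range L', del0 q T T' (L' + 1) e (k + 1) (n / q ^ (k + 1) % (q * T')) := by
    refine Finset.sum_congr rfl fun k _ => ?_
    unfold del0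
    rw [if_neg (Nat.succ_ne_zero k)]
  rw [h1, add_left_comm]
  congr 1
  unfold del0 delta
  rw [if_pos rfl, pow_zero, Nat.div_one, Finset.sum_sub_distrib]
  simp only [zero_add, Nat.sub_zero]
  rw [Nat.mod_mod_of_dvd _ (Dvd.intro_left q rfl : T' ∣ q * T')]
  abel

end

/-! ### (ii) the coefficients at the higher level -/

section
variable {G : Type} [AddCommGroup G] {X X' : Type} [Fintype X] [DecidableEq X] [Fintype X']
  [DecidableEq X']

/-- the coefficients of a phase in terms of the letters of `X'`, the letter `x'` is the vector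
`v x'` -/
def rwc (v : X' → X → ℤ) (t : Finset X → G) (S' : Finset X') : G :=
  ∑ S : Finset X, ∑ φ : S → X', if univ.image φ = S' then (∏ x : S, v (φ x) x) • t S else 0

/-- the phase is the phase with the coefficients `rwc v t` -/
theorem rwc_sum (v : X' → X → ℤ) (t : Finset X → G) (U : Finset X) (U' : Finset X')
    (h : ∀ x, (if x ∈ U then 1 else 0 : ℤ) = ∑ x' ∈ U', v x' x) :
    ∑ S ∈ U.powerset, t S = ∑ S' ∈ U'.powerset, rwc v t S' := by
  unfold rwc
  rw [Finset.sum_comm]
  have h1 : ∀ S : Finset X, (∑ S' ∈ U'.powerset, ∑ φ : S → X',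
      if univ.image φ = S' then (∏ x : S, v (φ x) x) • t S else 0) =
      if S ⊆ U then t S else 0 := by
    intro S
    rw [Finset.sum_comm]
    have h2 : ∀ φ : S → X', (∑ S' ∈ U'.powerset,
        if univ.image φ = S' then (∏ x : S, v (φ x) x) • t S else 0) =
        if φ ∈ Fintype.piFinset (fun _ : S => U') then (∏ x : S, v (φ x) x) • t S else 0 := by
      intro φ
      rw [Finset.sum_ite_eq]
      have h3 : univ.image φ ∈ U'.powerset ↔ φ ∈ Fintype.piFinset (fun _ : S => U') := by
        rw [Finset.mem_powerset, Fintype.mem_piFinset]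
        constructor
        · intro h4 a
          exact h4 (Finset.mem_image_of_mem φ (Finset.mem_univ a))
        · intro h4 y hy
          obtain ⟨a, _, rfl⟩ := Finset.mem_image.1 hy
          exact h4 a
      by_cases h5 : univ.image φ ∈ U'.powerset
      · rw [if_pos h5, if_pos (h3.1 h5)]
      · rw [if_neg h5, if_neg fun h6 => h5 (h3.2 h6)]
    rw [Finset.sum_congr rfl fun φ _ => h2 φ, ← Finset.sum_filter, Finset.filter_mem_eq_inter,
      Finset.univ_inter, ← Finset.sum_smul, ← Finset.prod_univ_sum (fun _ : S => U')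
        fun (x : S) (x' : X') => v x' x]
    have h3 : ∏ x : S, ∑ x' ∈ U', v x' x = if S ⊆ U then 1 else 0 := by
      rw [Finset.prod_congr rfl fun (x : S) _ => (h x).symm]
      by_cases h4 : S ⊆ U
      · rw [if_pos h4]
        exact Finset.prod_eq_one fun x _ => if_pos (h4 x.2)
      · rw [if_neg h4]
        obtain ⟨y, hy, hyU⟩ := Finset.not_subset.1 h4
        exact Finset.prod_eq_zero (Finset.mem_univ (⟨y, hy⟩ : S)) (if_neg hyU)
    rw [h3]
    by_cases h4 : S ⊆ U
    · rw [if_pos h4, if_pos h4, one_smul]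
    · rw [if_neg h4, if_neg h4, zero_smul]
  rw [Finset.sum_congr rfl fun S _ => h1 S, ← Finset.sum_filter]
  refine Finset.sum_congr ?_ fun _ _ => rfl
  ext S
  simp

/-- the degree does not grow -/
theorem rwc_deg {d : ℕ} (v : X' → X → ℤ) {t : Finset X → G} (ht : ∀ S, d < S.card → t S = 0)
    {S' : Finset X'} (hS' : d < S'.card) : rwc v t S' = 0 := by
  unfold rwc
  refine Finset.sum_eq_zero fun S _ => Finset.sum_eq_zero fun φ _ => ?_
  split_ifs with h
  · have h1 : S'.card ≤ S.card := by
      rw [← h]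
      refine Finset.card_image_le.trans ?_
      rw [Finset.card_univ, Fintype.card_coe]
    rw [ht S (lt_of_lt_of_le hS' h1), smul_zero]
  · rfl

/-- homomorphisms -/
theorem rwc_map {G' : Type} [AddCommGroup G'] (v : X' → X → ℤ) (f : G →+ G') (t : Finset X → G)
    (S' : Finset X') : rwc v (fun S => f (t S)) S' = f (rwc v t S') := by
  unfold rwc
  simp only [map_sum]
  refine Finset.sum_congr rfl fun S _ => Finset.sum_congr rfl fun φ _ => ?_
  split_ifs
  · rw [map_zsmul]
  · rw [map_zero]

/-- the coefficients only depend on the coefficients of at least the same order -/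
theorem rwc_congr {v : X' → X → ℤ} {t t' : Finset X → G} {S' : Finset X'}
    (h : ∀ S, S'.card ≤ S.card → t S = t' S) : rwc v t S' = rwc v t' S' := by
  unfold rwc
  refine Finset.sum_congr rfl fun S _ => Finset.sum_congr rfl fun φ _ => ?_
  split_ifs with h1
  · rw [h S]
    rw [← h1]
    refine Finset.card_image_le.trans ?_
    rw [Finset.card_univ, Fintype.card_coe]
  · rfl

theorem rwc_add (v : X' → X → ℤ) (t t' : Finset X → G) (S' : Finset X') :
    rwc v (fun S => t S + t' S) S' = rwc v t S' + rwc v t' S' := by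
  unfold rwc
  simp only [← Finset.sum_add_distrib]
  refine Finset.sum_congr rfl fun S _ => Finset.sum_congr rfl fun φ _ => ?_
  split_ifs
  · rw [smul_add]
  · rw [add_zero]

theorem rwc_zero (v : X' → X → ℤ) (S' : Finset X') : rwc v (fun _ => (0 : G)) S' = 0 := by
  unfold rwc
  refine Finset.sum_eq_zero fun S _ => Finset.sum_eq_zero fun φ _ => ?_
  split_ifs
  · rw [smul_zero]
  · rfl

/-- leading coefficients which are killed by `m` stay killed -/
theorem rwc_kill {m : ℕ} (v : X' → X → ℤ) {t : Finset X → G} {S' : Finset X'}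
    (h : ∀ S, S'.card ≤ S.card → m • t S = 0) : m • rwc v t S' = 0 := by
  have h1 : m • rwc v t S' = rwc v (fun S => m • t S) S' :=
    (rwc_map v (nsmulAddMonoidHom (α := G) m) t S').symm
  rw [h1, rwc_congr (t' := fun _ => 0) fun S hS => h S hS, rwc_zero]

private theorem top_left {C : Type} [Fintype C] [DecidableEq C] (v : X' → X → ℤ) {S : Finset X}
    (hS : S.card ≤ Fintype.card C) {x' : C → X'} (hx' : Function.Injective x') (g : G) :
    (∑ φ : S → X', if univ.image φ = univ.image x' then (∏ x : S, v (φ x) x) • g else 0) =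
      ∑ e : C ≃ S, (∏ j, v (x' j) (e j)) • g := by
  classical
  rw [← Finset.sum_filter]
  refine (Finset.sum_bij (fun (e : C ≃ S) _ => x' ∘ e.symm) ?_ ?_ ?_ ?_).symm
  · intro e _
    rw [Finset.mem_filter]
    refine ⟨Finset.mem_univ _, ?_⟩
    ext y
    simp only [Finset.mem_image, Finset.mem_univ, true_and, Function.comp_apply]
    constructor
    · rintro ⟨a, rfl⟩
      exact ⟨_, rfl⟩
    · rintro ⟨j, rfl⟩
      exact ⟨e j, by rw [Equiv.symm_apply_apply]⟩
  · intro e _ e' _ h
    refine Equiv.symm_bijective.injective (Equiv.ext fun s => hx' (congrFun h s))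
  · intro φ hφ
    have h1 := (Finset.mem_filter.1 hφ).2
    have h2 : Function.Injective φ := by
      have h3 : (univ.image φ).card = Fintype.card C := by
        rw [h1, Finset.card_image_of_injective _ hx', Finset.card_univ]
      have h4 : (univ.image φ).card = (univ : Finset S).card := by
        refine le_antisymm Finset.card_image_le ?_
        rw [h3, Finset.card_univ, Fintype.card_coe]
        exact hS
      have h5 := Finset.card_image_iff.1 h4
      rwa [Finset.coe_univ, Set.injOn_univ] at h5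
    have h3 : ∀ s : S, ∃ j : C, x' j = φ s := by
      intro s
      have h4 : φ s ∈ univ.image x' := h1 ▸ Finset.mem_image_of_mem φ (Finset.mem_univ s)
      obtain ⟨j, _, hj⟩ := Finset.mem_image.1 h4
      exact ⟨j, hj⟩
    choose ψ hψ using h3
    have h4 : Function.Bijective ψ := by
      constructor
      · intro s s' h
        refine h2 ?_
        rw [← hψ, ← hψ, h]
      · intro j
        have h5 : x' j ∈ univ.image φ := h1.symm ▸ Finset.mem_image_of_mem x' (Finset.mem_univ j)
        obtain ⟨s, _, hs⟩ := Finset.mem_image.1 h5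
        refine ⟨s, hx' ?_⟩
        rw [hψ, hs]
    refine ⟨(Equiv.ofBijective ψ h4).symm, Finset.mem_univ _, ?_⟩
    funext s
    rw [Function.comp_apply, Equiv.symm_symm, Equiv.ofBijective_apply, hψ]
  · intro e _
    congr 1
    refine (Fintype.prod_equiv e _ _ fun j => ?_)
    rw [Function.comp_apply, Equiv.symm_apply_apply]

private theorem top_right {C : Type} [Fintype C] [DecidableEq C] (F : (C → X) → G)
    (S : Finset X) :
    (∑ x : C → X, if univ.image x = S then (if Function.Injective x then F x else 0) else 0) =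
      ∑ e : C ≃ S, F fun j => e j := by
  classical
  rw [← Finset.sum_filter, ← Finset.sum_filter, Finset.filter_filter]
  refine (Finset.sum_bij (fun (e : C ≃ S) _ => fun j => (e j : X)) ?_ ?_ ?_ ?_).symm
  · intro e _
    rw [Finset.mem_filter]
    refine ⟨Finset.mem_univ _, ?_, ?_⟩
    · ext y
      simp only [Finset.mem_image, Finset.mem_univ, true_and]
      constructor
      · rintro ⟨j, rfl⟩
        exact (e j).2
      · intro hy
        exact ⟨e.symm ⟨y, hy⟩, by rw [Equiv.apply_symm_apply]⟩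
    · intro a b h
      exact e.injective (Subtype.ext h)
  · intro e _ e' _ h
    exact Equiv.ext fun j => Subtype.ext (congrFun h j)
  · intro x hx
    obtain ⟨h1, h2⟩ := (Finset.mem_filter.1 hx).2
    have h3 : ∀ j, x j ∈ S := fun j => h1 ▸ Finset.mem_image_of_mem x (Finset.mem_univ j)
    have h4 : Function.Bijective fun j => (⟨x j, h3 j⟩ : S) := by
      constructor
      · intro a b h
        exact h2 (congrArg Subtype.val h)
      · rintro ⟨y, hy⟩
        rw [← h1] at hy
        obtain ⟨j, _, hj⟩ := Finset.mem_image.1 hy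
        exact ⟨j, Subtype.ext hj⟩
    exact ⟨Equiv.ofBijective _ h4, Finset.mem_univ _, rfl⟩
  · intro e _
    rfl

/-- the leading coefficients are the values of the multilinear extension at the vectors of the
letters -/
theorem rwc_top {C : Type} [Fintype C] [DecidableEq C] (v : X' → X → ℤ) {t : Finset X → G}
    (ht : ∀ S, Fintype.card C < S.card → t S = 0) {x' : C → X'} (hx' : Function.Injective x') :
    rwc v t (univ.image x') = mlt t fun j => v (x' j) := by
  unfold rwc mlt
  have h1 : ∀ x : C → X, (if Function.Injective x then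
      (∏ j, v (x' j) (x j)) • t (univ.image x) else 0) =
      ∑ S : Finset X, if univ.image x = S then (if Function.Injective x then
        (∏ j, v (x' j) (x j)) • t S else 0) else 0 := by
    intro x
    rw [Finset.sum_ite_eq, if_pos (Finset.mem_univ _)]
  rw [Finset.sum_congr rfl fun x _ => h1 x, Finset.sum_comm]
  refine Finset.sum_congr rfl fun S _ => ?_
  rw [top_right fun x : C → X => (∏ j, v (x' j) (x j)) • t S]
  by_cases hS : S.card ≤ Fintype.card C
  · exact top_left v hS hx' (t S)
  · rw [ht S (lt_of_not_ge hS)]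
    simp

/-- the same with sets and the tensors modulo `l` -/
theorem rwc_Tm {l d : ℕ} (v : X' → X → ℤ) {τ : Finset X → ZMod l}
    (hτ : ∀ S, d < S.card → τ S = 0) {S' : Finset X'} (hS' : S'.card = d) :
    rwc v τ S' = Tm d τ (∏ x' ∈ S', ∑ x, (v x' x : ZMod l) • pt x) := by
  classical
  have h1 : S' = univ.image fun s : S' => (s : X') := by
    ext y
    simp
  have h2 : Fintype.card S' = d := by rw [Fintype.card_coe, hS']
  have h3 : rwc v τ S' = rwc v τ (univ.image fun s : S' => (s : X')) := by rw [← h1]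
  rw [h3, rwc_top v (C := S') (by rwa [h2]) Subtype.val_injective,
    ← Tm_mlt h2 τ fun (s : S') x => v s x]
  congr 1
  exact Finset.prod_coe_sort S' fun x' => ∑ x, (v x' x : ZMod l) • pt x

end

/-! ### (iii) phases of a higher level -/

theorem mem_ltr {q m L n : ℕ} {x : Lt m L} : x ∈ ltr q m L n ↔ n / q ^ (x.1 : ℕ) % m = x.2 := by
  unfold ltr
  rw [Finset.mem_filter]
  exact ⟨fun h => h.2, fun h => ⟨Finset.mem_univ _, h⟩⟩

/-- the letter of `n` at the position `j` -/
def lt1 (q m L n : ℕ) (hm : 0 < m) (j : Fin L) : Lt m L := (j, ⟨n / q ^ (j : ℕ) % m, Nat.mod_lt _ hm⟩)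

theorem ltr_eq_image {q m L n : ℕ} (hm : 0 < m) : ltr q m L n = univ.image (lt1 q m L n hm) := by
  ext x
  rw [mem_ltr, Finset.mem_image]
  constructor
  · intro h
    refine ⟨x.1, Finset.mem_univ _, ?_⟩
    unfold lt1
    exact Prod.ext rfl (Fin.ext h)
  · rintro ⟨j, _, rfl⟩
    rfl

theorem lt1_injective {q m L n : ℕ} (hm : 0 < m) : Function.Injective (lt1 q m L n hm) := by
  intro i j h
  exact congrArg Prod.fst h

/-- the sum over the letters of `n` -/
theorem sum_ltr {G : Type} [AddCommGroup G] {q m L n : ℕ} (hm : 0 < m) (w : ℕ → ℕ → G) :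
    ∑ y ∈ ltr q m L n, w y.1 y.2 = ∑ j ∈ range L, w j (n / q ^ j % m) := by
  rw [ltr_eq_image hm, Finset.sum_image fun a _ b _ h => lt1_injective hm h,
    Finset.sum_range]
  rfl

/-- the vector of the letter `y` of level `T'`; the letter at the position `0` carries all letters of
its content -/
def dl0 (q T T' L : ℕ) (y : Lt (q * T') L) (x : Lt (q * T) L) : ℤ :=
  dl q T T' L y x +
    if (y.1 : ℕ) = 0 then (if (y.2 : ℕ) % T' / q ^ (x.1 : ℕ) % (q * T) = x.2 then 1 else 0) else 0

theorem dl0_eq {q T T' L : ℕ} {y : Lt (q * T') L} (hy : (y.1 : ℕ) ≠ 0) (x : Lt (q * T) L) :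
    dl0 q T T' L y x = dl q T T' L y x := by
  unfold dl0
  rw [if_neg hy, add_zero]

theorem delta_single {q T T' L : ℕ} (x : Lt (q * T) L) (j c : ℕ) :
    delta q T T' L (fun i c' => if i = x.1 ∧ c' = x.2 then (1 : ℤ) else 0) j c =
      if j ≤ x.1 then
        (if c / q ^ ((x.1 : ℕ) - j) % (q * T) = x.2 then 1 else 0) -
          (if c % T' / q ^ ((x.1 : ℕ) - j) % (q * T) = x.2 then 1 else 0)
      else 0 := by
  unfold delta
  by_cases h : j ≤ x.1
  · rw [if_pos h, Finset.sum_eq_single ((x.1 : ℕ) - j)]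
    · simp only [Nat.add_sub_cancel' h, true_and]
    · intro k _ hk
      have h1 : ¬ j + k = x.1 := fun h1 => hk (by omega)
      simp only [h1, false_and, if_false, sub_zero]
    · intro h1
      rw [Finset.mem_range] at h1
      have := x.1.2
      omega
  · rw [if_neg h]
    refine Finset.sum_eq_zero fun k _ => ?_
    have h1 : ¬ j + k = x.1 := fun h1 => h (by omega)
    simp only [h1, false_and, if_false, sub_zero]

/-- the letters of level `T` in terms of the letters of level `T'` -/
theorem ltr_dl0 {q T T' L : ℕ} (hq : 0 < q) (hT' : 0 < T') (hT : T ∣ T') (n : ℕ)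
    (x : Lt (q * T) L) :
    (if x ∈ ltr q (q * T) L n then 1 else 0 : ℤ) = ∑ y ∈ ltr q (q * T') L n, dl0 q T T' L y x := by
  have h1 := rew_vec hq hT L (fun i c' => if i = x.1 ∧ c' = x.2 then (1 : ℤ) else 0) n
  have h2 : ∀ f : ℕ → ℕ, ∑ i ∈ range L, (if i = x.1 ∧ f i = x.2 then (1 : ℤ) else 0) =
      if f x.1 = x.2 then 1 else 0 := by
    intro f
    rw [Finset.sum_eq_single (x.1 : ℕ)]
    · simp only [true_and]
    · intro i _ hi
      rw [if_neg fun h => hi h.1]
    · intro h
      exact absurd (Finset.mem_range.2 x.1.2) h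
  rw [h2 fun i => n / q ^ i % (q * T), h2 fun i => n % T' / q ^ i % (q * T)] at h1
  have h3 : ∑ y ∈ ltr q (q * T') L n, dl0 q T T' L y x = ∑ j ∈ range L,
      (delta q T T' L (fun i c' => if i = x.1 ∧ c' = x.2 then (1 : ℤ) else 0) j
        (n / q ^ j % (q * T')) + if j = 0 then
          (if n / q ^ j % (q * T') % T' / q ^ (x.1 : ℕ) % (q * T) = x.2 then 1 else 0) else 0) := by
    rw [← sum_ltr (Nat.mul_pos hq hT') fun j c =>
      delta q T T' L (fun i c' => if i = x.1 ∧ c' = x.2 then (1 : ℤ) else 0) j c +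
        if j = 0 then (if c % T' / q ^ (x.1 : ℕ) % (q * T) = x.2 then 1 else 0) else 0]
    refine Finset.sum_congr rfl fun y _ => ?_
    unfold dl0 dl
    rw [delta_single]
  have hL : 0 < L := lt_of_le_of_lt (Nat.zero_le _) x.1.2
  rw [h3, Finset.sum_add_distrib, Finset.sum_ite_eq', if_pos (Finset.mem_range.2 hL)]
  rw [pow_zero, Nat.div_one, Nat.mod_mod_of_dvd _ (Dvd.intro_left q rfl : T' ∣ q * T')]
  have h4 : (if x ∈ ltr q (q * T) L n then 1 else 0 : ℤ) =
      if n / q ^ (x.1 : ℕ) % (q * T) = x.2 then 1 else 0 := by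
    by_cases h5 : n / q ^ (x.1 : ℕ) % (q * T) = x.2
    · rw [if_pos h5, if_pos (mem_ltr.2 h5)]
    · rw [if_neg h5, if_neg fun h6 => h5 (mem_ltr.1 h6)]
  rw [h4, h1, add_comm]

section
variable {G : Type} [AddCommGroup G]

/-- a phase of level `T` is a phase of level `T'` with the coefficients `rwc dl0 t` -/
theorem FP_level {q T T' L : ℕ} (hq : 0 < q) (hT' : 0 < T') (hT : T ∣ T')
    (t : Finset (Lt (q * T) L) → G) (n : ℕ) :
    FP q (q * T) L t n = FP q (q * T') L (rwc (dl0 q T T' L) t) n :=
  rwc_sum _ t _ _ fun x => ltr_dl0 hq hT' hT n x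

theorem isPL_level {q d T T' L : ℕ} (hq : 0 < q) (hT' : 0 < T') (hT : T ∣ T') {f : ℕ → G}
    (hf : IsPL q (q * T) d L f) : IsPL q (q * T') d L f := by
  obtain ⟨t, ht, hft⟩ := hf
  exact ⟨rwc (dl0 q T T' L) t, fun S hS => rwc_deg _ ht hS,
    fun n => by rw [hft n, FP_level hq hT' hT]⟩

theorem FP_add (q m L : ℕ) (t t' : Finset (Lt m L) → G) (n : ℕ) :
    FP q m L (fun S => t S + t' S) n = FP q m L t n + FP q m L t' n := Finset.sum_add_distrib

/-- the coefficients of order `d` of the phase at level `T'` -/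
def tup (q d T T' L : ℕ) (t : Finset (Lt (q * T) L) → G) (S : Finset (Lt (q * T') L)) : G :=
  if S.card = d then rwc (dl0 q T T' L) t S else 0

theorem tup_ne {q d T T' L : ℕ} (t : Finset (Lt (q * T) L) → G) {S : Finset (Lt (q * T') L)}
    (hS : S.card ≠ d) : tup q d T T' L t S = 0 := if_neg hS

theorem tup_kill {q d m' T T' L : ℕ} {t : Finset (Lt (q * T) L) → G} (ht : ∀ S, m' • t S = 0)
    (S : Finset (Lt (q * T') L)) : m' • tup q d T T' L t S = 0 := by
  unfold tup
  split_ifs
  · exact rwc_kill _ fun S _ => ht S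
  · rw [smul_zero]

theorem tup_map {q d T T' L : ℕ} {G' : Type} [AddCommGroup G'] (φ : G →+ G')
    (t : Finset (Lt (q * T) L) → G) (S : Finset (Lt (q * T') L)) :
    tup q d T T' L (fun S => φ (t S)) S = φ (tup q d T T' L t S) := by
  unfold tup
  split_ifs
  · rw [rwc_map]
  · rw [map_zero]

/-- the leading part of a phase of level `T` at the level `T'` -/
theorem FP_tup {q d T T' L : ℕ} (hd : 1 ≤ d) (hq : 0 < q) (hT' : 0 < T') (hT : T ∣ T')
    {t : Finset (Lt (q * T) L) → G} (ht : ∀ S, S.card ≠ d → t S = 0) :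
    ∃ g : ℕ → G, IsPL q (q * T') (d - 1) L g ∧
      ∀ n, FP q (q * T) L t n = FP q (q * T') L (tup q d T T' L t) n + g n := by
  refine ⟨fun n => FP q (q * T') L
    (fun S => if S.card = d then 0 else rwc (dl0 q T T' L) t S) n, ⟨_, fun S hS => ?_,
      fun n => rfl⟩, fun n => ?_⟩
  · show (if S.card = d then 0 else rwc (dl0 q T T' L) t S) = 0
    split_ifs with h
    · rfl
    · exact rwc_deg (d := d) _ (fun S hS => ht S (by omega)) (by omega)
  · rw [FP_level hq hT' hT, ← FP_add]
    congr 1
    funext S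
    unfold tup
    split_ifs
    · rw [add_zero]
    · rw [zero_add]

/-- the leading coefficients at sets without the position `0` -/
theorem tup_mlt {q d T T' L : ℕ} {t : Finset (Lt (q * T) L) → G} (ht : ∀ S, S.card ≠ d → t S = 0)
    {C : Type} [Fintype C] [DecidableEq C] (hC : Fintype.card C = d) {y : C → Lt (q * T') L}
    (hy : Function.Injective y) (hy0 : ∀ j, ((y j).1 : ℕ) ≠ 0) :
    tup q d T T' L t (univ.image y) = mlt t fun j => dl q T T' L (y j) := by
  unfold tup
  rw [if_pos (by rw [Finset.card_image_of_injective _ hy, Finset.card_univ, hC]),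
    rwc_top _ (fun S hS => ht S (by omega)) hy]
  congr 1
  funext j x
  exact dl0_eq (hy0 j) x

end

/-- the leading coefficients modulo `l` at sets without the position `0` -/
theorem tup_Tm {l q d T T' L : ℕ} {τ : Finset (Lt (q * T) L) → ZMod l}
    (hτ : ∀ S, S.card ≠ d → τ S = 0) {S : Finset (Lt (q * T') L)} (hS : S.card = d)
    (hS0 : ∀ y ∈ S, (y.1 : ℕ) ≠ 0) :
    tup q d T T' L τ S = Tm d τ (∏ y ∈ S, xi l q T T' L y) := by
  unfold tup
  rw [if_pos hS, rwc_Tm _ (fun S hS => hτ S (by omega)) hS]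
  congr 1
  refine Finset.prod_congr rfl fun y hy => ?_
  unfold xi
  refine Finset.sum_congr rfl fun x _ => ?_
  rw [dl0_eq (hS0 y hy)]

/-- the frozen factor -/
theorem depL_level {q T T' : ℕ} (hT : T ∣ T') {I : Finset ℕ} {E : Type} {β : ℕ → E}
    (h : DepL q (q * T) I β) : DepL q (q * T') I β := by
  intro n n' hn
  refine h n n' fun i hi => ?_
  rw [← Nat.mod_mod_of_dvd _ (Nat.mul_dvd_mul_left q hT), hn i hi,
    Nat.mod_mod_of_dvd _ (Nat.mul_dvd_mul_left q hT)]

theorem depL_mono {q m : ℕ} {I J : Finset ℕ} (hIJ : I ⊆ J) {E : Type} {β : ℕ → E}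
    (h : DepL q m I β) : DepL q m J β := fun n n' hn => h n n' fun i hi => hn i (hIJ hi)

/-- the classes at a higher level -/
theorem cls_level {q d T T' M B L : ℕ} [NeZero M] (hq : 0 < q) (hT' : 0 < T') (hT : T ∣ T')
    {F : ℕ → ℂ} (h : Cls q d T M B L F) : Cls q d T' M B L F := by
  obtain ⟨I, β, f, hI, hβ, hdep, hf, hF⟩ := h
  exact ⟨I, β, f, hI, hβ, depL_level hT hdep, isPL_level hq hT' hT hf, hF⟩

end Pool.Agent.Lib.MP_3e612f_nt.EM
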