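import Pool.Agent.Lib.MP_3e612f_nt.EM.CorrD
import Pool.Agent.Lib.MP_3e612f_nt.EM.FRed
import Pool.Agent.Lib.MP_3e612f_nt.EM.Near
import Pool.Agent.Lib.MP_3e612f_nt.EM.Rew
import Pool.Agent.Lib.MP_3e612f_nt.DI.Many
import Pool.Agent.Lib.MP_3e612f_nt.DI.Ind
import Pool.Agent.Lib.MP_3e612f_nt.PI.ExK
import Pool.Agent.Lib.MP_3e612f_nt.PI.Blk

/-!
The dichotomy: a function of the class either has small pair correlations with every function of the class, or
it is a combination of boundedly many functions of the next smaller class.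

PROOF (as `DI/Ind.lean`, `or_step`). `W, t0, εw` from `corr_boxesT` with `δ / 4`, `sw` from `many_or_struct` (for `ε = εw`), then `k0` from `corr_boxesT`, `k = k0 + 8 B` (each of the `≤ 2 B` frozen positions of `F`, `F'` spoils at most
`4` of the boxes `V b`, since the points of different boxes have distance `≥ W`), `KS` from `many_or_struct`. `F = β ee (FP t + g)`: `t S = (M / (ℓ m1)) z S` with integers `z S` (`Ind_tint`; `z S = 0` for `|S| ≠ d`), `τ S = (z S : ZMod ℓ)`,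
`m1 t = emb τ` (`Ind_emb`). `many_or_struct` for `X = Lt (q * (ℓ * T)) L`, `R = MvPolynomial (Lt (q * T) L) (ZMod ℓ)`, `ξ = xi`, `Far = FarL W`, `𝒳 = {y | t0 ≤ y.1 ∧ y.1 - t0 < P}`, `Tm d τ`.
* many witnesses: choose `k0` boxes far from the frozen positions `J = I ∪ I'`, `corr_boxesT` (the integers of `F'` likewise), `PI.block_sum`.
* structure: `EM/Rew.lean` with `T' = ℓ T` for the integers `z`: `z' = rwc (dl0 ..) z`, `FP_level`, so `FP t n = FP tT n`, `tT S' = (M / (ℓ m1)) z' S'` (`rwc_map`, `rwc_deg`); for `|S'| = d`, no position `0`: `(z' S' : ZMod ℓ) = Tm d τ (∏_{y ∈ S'} xi y)` (`rwc_map` for the cast, `tup_Tm`). `f_reduceT` with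
`E = {y | not (t0 ≤ y.1, y.1 - t0 < P, far from Y)}` (it contains the positions `0`, as `1 ≤ t0`), `Far S = pairwise FarL W`, `Fl κ S = F κ (∏_{y ∈ S} xi y)`. So `ee (FP t n) = ∑_τ a τ ee (FP (t' (ltr n ∩ E) τ) n)`
`= ∑_{ω ⊆ E} ∑_τ [ltr n ∩ E = ω] a τ ee (FP (t' ω τ) n)`: frozen factor `β n * [ltr n ∩ E = ω]`, it depends on `≤ B + #positions of E` positions; `lead_split` with `m' = q * (ℓ * T * q ^ W)`, `T2 = ℓ * T * q ^ W`, `M2 = M * d !`.
The lower part is `g''+ embM (g)`. `C = 2 ^ e0 * M2 ^ KS`, `e0 = (t0 + (w + w0 + W) + KS * 2 W) * (q * (ℓ * T))`.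
-/

set_option autoImplicit false

namespace Pool.Agent.Lib.MP_3e612f_nt.EM

open Finset
open Pool.Agent.Lib.MP_3e612f_nt.PI (ee mc)
open Pool.Agent.Lib.MP_3e612f_nt.DI (pt vec bi emb Tm)

/-- choice of the boxes which are far from the frozen positions -/
private theorem Dich_boxes {m L k k0 d : ℕ} {W : ℕ}
    (V : Fin k → Fin d → Finset (Lt m L)) (J : Finset ℕ) (hk : k0 + 2 * J.card ≤ k)
    (hfar : ∀ b b', b ≠ b' → ∀ j j', ∀ x ∈ V b j, ∀ y ∈ V b' j', FarL W x y) :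
    ∃ σ : Fin k0 → Fin k, Function.Injective σ ∧
      ∀ b j, ∀ x ∈ V (σ b) j, ∀ i ∈ J, (x.1 : ℕ) + W ≤ i ∨ i + W ≤ x.1 := by
  classical
  set bad : Finset (Fin k) := univ.filter fun b => ∃ j, ∃ x ∈ V b j, ∃ i ∈ J,
    ¬ ((x.1 : ℕ) + W ≤ i ∨ i + W ≤ x.1) with hbad
  have hb : ∀ b : Fin k, ∃ c : ℕ × Bool, b ∈ bad → ∃ j, ∃ x ∈ V b j, c.1 ∈ J ∧
      ¬ ((x.1 : ℕ) + W ≤ c.1 ∨ c.1 + W ≤ x.1) ∧ c.2 = decide ((x.1 : ℕ) < c.1) := by
    intro b
    by_cases h : b ∈ bad
    · obtain ⟨j, x, hx, i, hi, hn⟩ := (mem_filter.1 h).2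
      exact ⟨(i, decide ((x.1 : ℕ) < i)), fun _ => ⟨j, x, hx, hi, hn, rfl⟩⟩
    · exact ⟨(0, true), fun h' => absurd h' h⟩
  choose c hc using hb
  have hbc : bad.card ≤ 2 * J.card := by
    have h1 : bad.card ≤ (J ×ˢ (univ : Finset Bool)).card := by
      refine Finset.card_le_card_of_injOn c ?_ ?_
      · intro b hb
        obtain ⟨j, x, hx, hi, _⟩ := hc b hb
        exact mem_coe.2 (mem_product.2 ⟨hi, mem_univ _⟩)
      · intro b hb b' hb' he
        obtain ⟨j, x, hx, hi, hn, hd⟩ := hc b hb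
        obtain ⟨j', x', hx', hi', hn', hd'⟩ := hc b' hb'
        by_contra hne
        have h2 := hfar b b' hne j j' x hx x' hx'
        rw [← he] at hn' hd'
        rw [hd] at hd'
        have h3 : (x.1 : ℕ) < (c b).1 ↔ (x'.1 : ℕ) < (c b).1 := by
          exact decide_eq_decide.1 hd'
        unfold FarL at h2
        push Not at hn hn'
        by_cases h4 : (x.1 : ℕ) < (c b).1
        · have h5 := h3.1 h4
          omega
        · have h5 : ¬ (x'.1 : ℕ) < (c b).1 := fun h => h4 (h3.2 h)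
          omega
    rw [card_product, Finset.card_univ, Fintype.card_bool] at h1
    omega
  have hgood : k0 ≤ (univ \ bad).card := by
    rw [card_sdiff_of_subset (subset_univ _), card_univ, Fintype.card_fin]
    omega
  obtain ⟨S, hS, hSc⟩ := Finset.exists_subset_card_eq hgood
  refine ⟨fun b => S.orderEmbOfFin hSc b, fun a b h => (S.orderEmbOfFin hSc).injective h, ?_⟩
  intro b j x hx i hi
  have h1 := hS (S.orderEmbOfFin_mem hSc b)
  rw [mem_sdiff] at h1
  by_contra h2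
  exact h1.2 (mem_filter.2 ⟨mem_univ _, j, x, hx, i, hi, h2⟩)

/-- the number of exceptional positions -/
private theorem Dich_pos {m L : ℕ} (W t0 P : ℕ) (Y : Finset (Lt m L)) (E : Finset (Lt m L))
    (hE : ∀ x ∈ E, ¬ ((t0 ≤ (x.1 : ℕ) ∧ (x.1 : ℕ) - t0 < P) ∧ ∀ y ∈ Y, FarL W x y)) :
    (E.image fun x => (x.1 : ℕ)).card ≤ t0 + (L - P) + Y.card * (2 * W) := by
  classical
  set B : Finset ℕ := (range t0 ∪ Ico (t0 + P) L) ∪
    Y.biUnion fun y => Ico ((y.1 : ℕ) + 1 - W) ((y.1 : ℕ) + W) with hB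
  have hBc : B.card ≤ t0 + (L - P) + Y.card * (2 * W) := by
    refine (card_union_le _ _).trans (Nat.add_le_add ?_ ?_)
    · refine (card_union_le _ _).trans ?_
      rw [card_range, Nat.card_Ico]
      omega
    · refine card_biUnion_le_card_mul _ _ _ fun y _ => ?_
      rw [Nat.card_Ico]
      omega
  refine (card_le_card ?_).trans hBc
  intro i hi
  obtain ⟨x, hx, rfl⟩ := ph_mem_posn.1 hi
  have h := hE x hx
  rw [hB, mem_union, mem_union, mem_range, mem_Ico, mem_biUnion]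
  by_contra h2
  push Not at h2
  obtain ⟨⟨h3, h4⟩, h5⟩ := h2
  apply h
  have h6 := x.1.2
  refine ⟨⟨h3, ?_⟩, fun y hy => ?_⟩
  · by_contra h7
    have := h4 (by omega)
    omega
  · have h8 := h5 y hy
    rw [mem_Ico] at h8
    unfold FarL
    omega

/-- the number of letters at the positions of a set -/
private theorem Dich_card {m L : ℕ} (E : Finset (Lt m L)) :
    E.card ≤ (E.image fun x => (x.1 : ℕ)).card * m := by
  classical
  have h1 : E.card ≤ ((E.image fun x => (x.1 : ℕ)) ×ˢ (univ : Finset (Fin m))).card := by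
    refine Finset.card_le_card_of_injOn (fun x => ((x.1 : ℕ), x.2)) ?_ ?_
    · intro x hx
      exact mem_coe.2 (mem_product.2 ⟨ph_mem_posn.2 ⟨x, hx, rfl⟩, mem_univ _⟩)
    · intro x _ y _ h
      have h2 := (Prod.mk.injEq _ _ _ _).mp h
      exact Prod.ext (Fin.ext h2.1) h2.2
  rwa [card_product, card_univ, Fintype.card_fin] at h1

/-- the integers behind the leading coefficients -/
private theorem Dich_int {M m' d : ℕ} [NeZero M] (h : m' ∣ M) {X : Type} (t : Finset X → ZMod M)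
    (ht1 : ∀ S, m' • t S = 0) (ht2 : ∀ S, S.card ≠ d → t S = 0) :
    ∃ z : Finset X → ℤ, (∀ S, t S = (((M / m' : ℕ) * z S : ℤ) : ZMod M)) ∧
      ∀ S, S.card ≠ d → z S = 0 := by
  classical
  choose z hz using fun S => DI.Ind_tint h (t S) (ht1 S)
  refine ⟨fun S => if S.card = d then z S else 0, fun S => ?_, fun S hS => if_neg hS⟩
  by_cases hS : S.card = d
  · beta_reduce
    rw [if_pos hS]
    exact hz S
  · beta_reduce
    rw [if_neg hS, ht2 S hS, mul_zero, Int.cast_zero]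

private theorem Dich_norm {q d m' T M B L : ℕ} [NeZero M] {F : ℕ → ℂ}
    (h : ClsK q d m' T M B L F) (n : ℕ) : ‖F n‖ ≤ 1 := by
  obtain ⟨I, β, t, g, _, hβ, _, _, _, _, hF⟩ := h
  rw [hF, norm_mul, PI.Kat_norm_ee, mul_one]
  exact hβ n

theorem dichT {q : ℕ} (hq : 2 ≤ q) {d : ℕ} (hd : 1 ≤ d) {ℓ m1 M T : ℕ} (B w0 : ℕ) [NeZero M]
    (hℓ : ℓ.Prime) (hM : ℓ * m1 ∣ M) (hT : 0 < T) {p r : ℕ} (hp : p.Prime) (hr : r.Prime)
    (hpr : p ≠ r) (hpq : p.Coprime q) (hrq : r.Coprime q) (hpT : p.Coprime T) {δ : ℝ}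
    (hδ : 0 < δ) :
    ∃ (C T2 M2 B2 N0 : ℕ) (_ : NeZero M2), 0 < T2 ∧ m1 ∣ M2 ∧
      ∀ N ≥ N0, ∀ K1 L : ℕ, N ≤ q ^ K1 → q ^ K1 ≤ q * N → L ≤ K1 + w0 →
      ∀ F : ℕ → ℂ, ClsK q d (ℓ * m1) T M B L F →
        (∀ F' : ℕ → ℂ, ClsK q d (ℓ * m1) T M B L F' → ∀ s s' : ℕ, ∀ N' ≤ N,
          ‖∑ n ∈ Icc 1 N', F (p * n + s) * F' (r * n + s')‖ ≤ δ * N) ∨
        ∃ (ι : Type) (_ : Fintype ι) (a : ι → ℂ) (F1 : ι → ℕ → ℂ), Fintype.card ι ≤ C ∧
          (∀ i, ‖a i‖ ≤ 1) ∧ (∀ i, ClsK q d m1 T2 M2 B2 L (F1 i)) ∧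
          ∀ n, F n = ∑ i, a i * F1 i n := by
  classical
  have hq0 : 0 < q := by omega
  have : NeZero ℓ := ⟨hℓ.ne_zero⟩
  have hℓ0 : 0 < ℓ := hℓ.pos
  have hℓM : ℓ ∣ M := (Dvd.intro _ rfl).trans hM
  have hT' : 0 < ℓ * T := Nat.mul_pos hℓ0 hT
  have hTT' : T ∣ ℓ * T := Dvd.intro_left _ rfl
  obtain ⟨W, t0, εw, hW, ht0, hεw, hcorr⟩ := corr_boxesT hq hT d (by omega) m1 M hℓM hp hr hpr hpq
    hrq hpT (show 0 < δ / 4 by positivity)
  obtain ⟨sw, hmany⟩ := DI.many_or_struct hℓ d hd εw hεw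
  obtain ⟨k0, hcorr⟩ := hcorr sw
  obtain ⟨KS, hmany⟩ := hmany (k0 + 4 * B)
  obtain ⟨w, N1, hw⟩ := PI.exists_K q hq (show 0 < δ / 8 by positivity)
  set M2 : ℕ := M * d.factorial with hM2
  have hNM2 : NeZero M2 := ⟨Nat.mul_ne_zero (NeZero.ne M) (Nat.factorial_ne_zero d)⟩
  set e1 : ℕ := t0 + (w + w0 + W) + KS * (2 * W) with he1
  set e0 : ℕ := e1 * (q * (ℓ * T)) with he0
  have hMM2 : M ∣ M2 := Dvd.intro _ rfl
  have hm1M2 : m1 ∣ M2 := ((Dvd.intro_left _ rfl).trans hM).trans hMM2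
  refine ⟨2 ^ e0 * M2 ^ KS, ℓ * T * q ^ W, M2, B + e1, N1 + q ^ (W + w) + 1, hNM2,
    Nat.mul_pos hT' (pow_pos hq0 W), hm1M2, ?_⟩
  intro N hN K1 L hNK hKN hL F hF
  obtain ⟨K, hK, hK1⟩ := hw N (by omega) K1 hKN
  have hK1' : W + w ≤ K1 := by
    by_contra h
    have h1 : q ^ K1 ≤ q ^ (W + w) := Nat.pow_le_pow_right hq0 (by omega)
    omega
  obtain ⟨P, hP⟩ : ∃ P, P + W = K + 1 := ⟨K + 1 - W, by omega⟩
  have hFn := Dich_norm hF
  obtain ⟨I, β, t, g, hI, hβ, hdep, ht1, ht2, hg, hFe⟩ := hF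
  obtain ⟨z, hz, hz0⟩ := Dich_int hM t ht1 ht2
  set τ : Finset (Lt (q * T) L) → ZMod ℓ := fun S => (z S : ZMod ℓ) with hτ
  have hτt : ∀ S, m1 • t S = emb M (τ S) := by
    intro S
    rw [hz S, DI.Ind_emb hM]
  have hsymm : ∀ x y : Lt (q * (ℓ * T)) L, FarL W x y → FarL W y x := by
    intro x y h
    unfold FarL at h ⊢
    exact h.symm
  set 𝒳 : Set (Lt (q * (ℓ * T)) L) := {x | t0 ≤ (x.1 : ℕ) ∧ (x.1 : ℕ) - t0 < P} with h𝒳
  rcases hmany (Lt (q * (ℓ * T)) L) (MvPolynomial (Lt (q * T) L) (ZMod ℓ)) (xi ℓ q T (ℓ * T) L)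
    (FarL W) hsymm 𝒳 (Tm d τ) with
    ⟨V, hV1, hV2, hV3, hV4, hV5⟩ | ⟨Y, n, e, Fs, lam, hY, hn, he, hstr⟩
  · -- many witnesses
    left
    intro F' hF' s s' N' hN'
    have hFn' := Dich_norm hF'
    obtain ⟨I', β', t', g', hI', hβ', hdep', ht1', ht2', hg', hFe'⟩ := hF'
    obtain ⟨z', hz', hz0'⟩ := Dich_int hM t' ht1' ht2'
    have hτt' : ∀ S, m1 • t' S = emb M ((z' S : ZMod ℓ)) := by
      intro S
      rw [hz' S, DI.Ind_emb hM]
    have hJ : k0 + 2 * (I ∪ I').card ≤ k0 + 4 * B := by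
      have := card_union_le I I'
      omega
    obtain ⟨σ, hσ, hσJ⟩ := Dich_boxes V (I ∪ I') hJ hV4
    have h2 := hcorr K P hP L s s' t t' τ (fun S => (z' S : ZMod ℓ)) g g' ht2 ht2' hτt hτt' hg hg'
      (I ∪ I') β β' hβ hβ' (depL_mono subset_union_left hdep) (depL_mono subset_union_right hdep')
      (fun b => V (σ b)) (fun b j x hx => by
        have h3 := hV2 (σ b) j hx
        exact ⟨h3.1, h3.2, fun i hi => hσJ b j x hx i hi⟩)
      (fun b b' j j' hne x hx y hy => by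
        by_cases hb : b = b'
        · subst hb
          exact hV1 (σ b) j (mem_univ _) j' (mem_univ _) (fun h => hne (by rw [h])) x hx y hy
        · exact hV4 (σ b) (σ b') (fun h => hb (hσ h)) j j' x hx y hy)
      (fun b j => hV3 (σ b) j) (fun b => hV5 (σ b))
    have hN1 : (1 : ℝ) ≤ N := by
      have : 1 ≤ N := by omega
      exact_mod_cast this
    have h3 := PI.block_sum (fun n => F (p * n + s) * F' (r * n + s'))
      (fun n => by
        rw [norm_mul]
        exact mul_le_one₀ (hFn _) (norm_nonneg _) (hFn' _)) (Q := q ^ K) (Nat.pow_pos hq0)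
        (τ := δ / 4) (by positivity) (fun u => by
        have h4 := h2 u
        have h5 : ∀ v, F (p * (q ^ K * u + v) + s) * F' (r * (q ^ K * u + v) + s') =
            β (p * (q ^ K * u + v) + s) * β' (r * (q ^ K * u + v) + s') *
            ee ((FP q (q * T) L t (p * (q ^ K * u + v) + s) + g (p * (q ^ K * u + v) + s)) +
            (FP q (q * T) L t' (r * (q ^ K * u + v) + s') + g' (r * (q ^ K * u + v) + s'))) := by
          intro v
          rw [hFe, hFe', PI.Kat_ee_add (FP q (q * T) L t (p * (q ^ K * u + v) + s) +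
            g (p * (q ^ K * u + v) + s))]
          ring
        rw [Finset.sum_congr rfl fun v _ => h5 v]
        push_cast
        linarith) N'
    have hN'' : (N' : ℝ) ≤ N := by exact_mod_cast hN'
    have h6 : 2 * (((q ^ K : ℕ) : ℝ)) ≤ 2 * (δ / 8 * N) := by
      push_cast
      linarith
    have h4 : δ / 4 * ((N' : ℝ) + 1) ≤ δ / 4 * (2 * N) :=
      mul_le_mul_of_nonneg_left (by linarith) (by positivity)
    have h7 : 0 < δ * N := by positivity
    linarith [h3, h4, h6]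
  · -- structure
    right
    set E : Finset (Lt (q * (ℓ * T)) L) := univ.filter fun x =>
      ¬ ((t0 ≤ (x.1 : ℕ) ∧ (x.1 : ℕ) - t0 < P) ∧ ∀ y ∈ Y, FarL W x y) with hE
    have hEp : (E.image fun x => (x.1 : ℕ)).card ≤ e1 := by
      refine (Dich_pos W t0 P Y E fun x hx => (mem_filter.1 hx).2).trans ?_
      rw [he1]
      have h2 : Y.card * (2 * W) ≤ KS * (2 * W) := Nat.mul_le_mul_right _ hY
      omega
    have hEc : E.card ≤ e0 := by
      refine (Dich_card E).trans ?_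
      rw [he0]
      exact Nat.mul_le_mul_right _ hEp
    set far : Finset (Lt (q * (ℓ * T)) L) → Prop := fun S =>
      ∀ x ∈ S, ∀ y ∈ S, x ≠ y → FarL W x y with hfar
    set tT : Finset (Lt (q * (ℓ * T)) L) → ZMod M := rwc (dl0 q T (ℓ * T) L) t with htT
    set zT : Finset (Lt (q * (ℓ * T)) L) → ℤ := rwc (dl0 q T (ℓ * T) L) z with hzT
    have htz : ∀ S, tT S = (((M / (ℓ * m1) : ℕ) * zT S : ℤ) : ZMod M) := by
      intro S
      have h1 := rwc_map (dl0 q T (ℓ * T) L)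
        ((Int.castAddHom (ZMod M)).comp (AddMonoidHom.mulLeft ((M / (ℓ * m1) : ℕ) : ℤ))) z S
      have h2 : (fun S => ((Int.castAddHom (ZMod M)).comp
          (AddMonoidHom.mulLeft ((M / (ℓ * m1) : ℕ) : ℤ))) (z S)) = t := by
        funext S
        rw [hz S]
        rfl
      rw [h2] at h1
      rw [htT, h1]
      rfl
    have hzτ : ∀ S, S.card = d → (∀ y ∈ S, (y.1 : ℕ) ≠ 0) →
        (zT S : ZMod ℓ) = Tm d τ (∏ y ∈ S, xi ℓ q T (ℓ * T) L y) := by
      intro S hS hS0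
      have h1 := rwc_map (dl0 q T (ℓ * T) L) (Int.castAddHom (ZMod ℓ)) z S
      have h2 : tup q d T (ℓ * T) L τ S = (zT S : ZMod ℓ) := by
        unfold tup
        rw [if_pos hS]
        exact h1
      rw [← h2]
      refine tup_Tm (fun S hS => ?_) hS hS0
      show ((z S : ℤ) : ZMod ℓ) = 0
      rw [hz0 S hS, Int.cast_zero]
    obtain ⟨Tt, hTt, a, t', hTc, ha, ht'1, ht'2, hexp⟩ := f_reduceT (X := Lt (q * (ℓ * T)) L)
      (M := M) (M2 := M2) (l := ℓ) (m1 := m1) (d := d) (n := n) hd hM2 hM tT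
      (fun S hS => rwc_deg (d := d) _ (fun S hS => ht2 S (by omega)) hS) zT (fun S _ => htz S) E far
      e he (fun κ' S => Fs κ' (∏ y ∈ S, xi ℓ q T (ℓ * T) L y)) lam (fun S hS hSE hSf => by
        have h1 : ∀ x ∈ S, ((t0 ≤ (x.1 : ℕ) ∧ (x.1 : ℕ) - t0 < P) ∧ ∀ y ∈ Y, FarL W x y) := by
          intro x hx
          have h3 : x ∉ E := fun h => (Finset.disjoint_left.1 hSE) hx h
          rw [hE, mem_filter] at h3
          by_contra h4
          exact h3 ⟨mem_univ _, h4⟩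
        rw [hzτ S hS fun y hy => by
          have := (h1 y hy).1.1
          omega]
        exact hstr S hS (fun x hx => ⟨(h1 x hx).1, (h1 x hx).2⟩) hSf)
    have hsplit := fun (ω : Finset (Lt (q * (ℓ * T)) L)) (τ' : Tt) =>
      lead_split hq hd hT' W m1 (t' ω τ') (ht'1 ω τ')
      (fun S hS hS1 => by
        by_cases h0 : t' ω τ' S = 0
        · rw [h0, smul_zero]
        · exact (ht'2 ω τ' S hS h0).2 hS1)
    choose t'' g'' hs1 hs2 hs3 hs4 using hsplit
    have hTT2 : T ∣ ℓ * T * q ^ W := hTT'.trans (Dvd.intro _ rfl)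
    refine ⟨{ω // ω ∈ E.powerset} × Tt, inferInstance, fun i => a i.2, fun i n =>
      (β n * if ltr q (q * (ℓ * T)) L n ∩ E = i.1 then 1 else 0) *
        ee (FP q (q * (ℓ * T * q ^ W)) L (t'' i.1 i.2) n + (g'' i.1 i.2 n + DI.embM hMM2 (g n))),
      ?_, fun i => ha i.2, fun i => ?_, fun n => ?_⟩
    · rw [Fintype.card_prod, Fintype.card_coe, card_powerset, hTc]
      exact Nat.mul_le_mul (Nat.pow_le_pow_right (by omega) hEc)
        (Nat.pow_le_pow_right (Nat.pos_of_ne_zero (NeZero.ne M2)) hn)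
    · obtain ⟨⟨ω, hω⟩, τ'⟩ := i
      refine ⟨I ∪ E.image fun x => (x.1 : ℕ), _, t'' ω τ',
        fun n => g'' ω τ' n + DI.embM hMM2 (g n), ?_, fun n => ?_, ?_, hs1 ω τ', hs2 ω τ', ?_,
        fun n => rfl⟩
      · have := card_union_le I (E.image fun x => (x.1 : ℕ))
        omega
      · rw [norm_mul]
        refine mul_le_one₀ (hβ n) (norm_nonneg _) ?_
        split_ifs
        · rw [norm_one]
        · rw [norm_zero]
          exact zero_le_one
      · have hd1 : DepL q (q * (ℓ * T * q ^ W)) (I ∪ E.image fun x => (x.1 : ℕ)) β :=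
          DepL.mono (Nat.mul_dvd_mul_left q hTT2) subset_union_left hdep
        have hd2 : DepL q (q * (ℓ * T * q ^ W)) (I ∪ E.image fun x => (x.1 : ℕ))
            (fun n => ltr q (q * (ℓ * T)) L n ∩ E) := by
          refine DepL.mono (m := q * (ℓ * T)) (Nat.mul_dvd_mul_left q (Dvd.intro _ rfl))
            subset_union_right ?_
          intro n n' hn
          ext x
          rw [mem_inter, mem_inter, mem_ltr, mem_ltr]
          refine and_congr_left fun hx => ?_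
          rw [hn x.1 (ph_mem_posn.2 ⟨x, hx, rfl⟩)]
        intro n n' hn
        have h1 := hd1 n n' hn
        have h2 := hd2 n n' hn
        beta_reduce at h2 ⊢
        rw [h1, h2]
      · exact (hs3 ω τ').add ((isPL_level hq0 (Nat.mul_pos hT' (pow_pos hq0 W)) hTT2 hg).map
          (DI.embM hMM2))
    · -- the expansion
      have h1 : FP q (q * T) L t n = FP q (q * (ℓ * T)) L tT n := FP_level hq0 hT' hTT' t n
      have h2 := hexp (ltr q (q * (ℓ * T)) L n)
      have h3 : ee (FP q (q * (ℓ * T)) L tT n) = ∑ τ', a τ' *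
          ee (FP q (q * (ℓ * T)) L (t' (ltr q (q * (ℓ * T)) L n ∩ E) τ') n) := h2
      have hmem : ltr q (q * (ℓ * T)) L n ∩ E ∈ E.powerset := mem_powerset.2 inter_subset_right
      rw [hFe n, PI.Kat_ee_add, h1, h3, Fintype.sum_prod_type,
        Finset.sum_eq_single (⟨_, hmem⟩ : {ω // ω ∈ E.powerset})]
      · rw [Finset.sum_mul, Finset.mul_sum]
        refine Finset.sum_congr rfl fun τ' _ => ?_
        beta_reduce
        rw [if_pos rfl, hs4 _ τ' n, PI.Kat_ee_add, PI.Kat_ee_add, PI.Kat_ee_add, DI.ee_embM]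
        ring
      · intro ω _ hω
        refine Finset.sum_eq_zero fun τ' _ => ?_
        beta_reduce
        rw [if_neg fun h => hω (Subtype.ext h.symm)]
        ring
      · intro h
        exact absurd (mem_univ _) h

end Pool.Agent.Lib.MP_3e612f_nt.EM
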