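import Pool.Agent.Lib.MP_3e612f_nt.EM.GlobD
import Pool.Agent.Lib.MP_3e612f_nt.EM.Base

/-!
The base: frozen factors. The proof is in `EM/Base.lean`.
-/

set_option autoImplicit false

namespace Pool.Agent.Lib.MP_3e612f_nt.EM

open Finset
open Pool.Agent.Lib.MP_3e612f_nt.PI (ee mc)

theorem glob_base {q : ℕ} (hq : 2 ≤ q) : PO q 0 := by
  intro T M B _ hT ε hε
  obtain ⟨N0, hN0⟩ := base_cls hq hT M B hε
  exact ⟨N0, fun N hN L s F hF => hN0 N hN s L F hF⟩

end Pool.Agent.Lib.MP_3e612f_nt.EM
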