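import Pool.Agent.Lib.MP_3e612f_nt.EM.Defs

/-!
Statements on Moebius sums.
-/

set_option autoImplicit false

namespace Pool.Agent.Lib.MP_3e612f_nt.EM

open Finset
open Pool.Agent.Lib.MP_3e612f_nt.PI (ee mc)

/-- the theorem for phases of degree `≤ d` and frozen factors -/
def PO (q d : ℕ) : Prop :=
  ∀ (T M B : ℕ) [NeZero M], 0 < T → ∀ ε : ℝ, 0 < ε → ∃ N0 : ℕ, ∀ N ≥ N0, ∀ (L s : ℕ) (F : ℕ → ℂ),
    Cls q d T M B L F → ‖∑ n ∈ Icc 1 N, mc n * F (n + s)‖ ≤ ε * N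

/-- the theorem for phases whose leading coefficients are killed by `m'` -/
def OR (q d m' : ℕ) : Prop :=
  ∀ (T M B w0 : ℕ) [NeZero M], 0 < T → m' ∣ M → ∀ ε : ℝ, 0 < ε → ∃ N0 : ℕ, ∀ N ≥ N0,
    ∀ K1 L s : ℕ, N ≤ q ^ K1 → q ^ K1 ≤ q * N → L ≤ K1 + w0 → ∀ F : ℕ → ℂ,
      ClsK q d m' T M B L F → ‖∑ n ∈ Icc 1 N, mc n * F (n + s)‖ ≤ ε * N

end Pool.Agent.Lib.MP_3e612f_nt.EM
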