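import Pool.Agent.Lib.MP_3e612f_nt.EM.Dich
import Pool.Agent.Lib.MP_3e612f_nt.EM.GlobD
import Pool.Agent.Lib.MP_3e612f_nt.PI.Kat

/-!
The step of the induction.

PROOFS. `glob_one`: `m' = 1`: `t S = 0`, so `F = β * ee g` is in `Cls q (d - 1) T M B L`.
`glob_step`: as `PI/KatB.lean` and `PI/Kat.lean`. `PB.katai_fin` (see `katai_ee`; it is a statement for real functions with values in `[-1, 1]`) gives a finite set `P` of primes larger than `q * T * M` and `δ`. For all pairs `p < r` of `P` `dichT`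
(with `δ / 2` or so); `N0` = the maximum. Given `N` and `F`: if for some pair the second alternative of `dichT` holds, the sum is `∑ i, a i * (∑ mc n * F1 i (n + s))`, `‖·‖ ≤ C * (ε / C) * N` by `OR q d m1` with `ε / (C + 1)`. Otherwise for all pairs the correlations of `F`
with `F' = F` and with `F' = conj F` (`ClsK` is closed under conjugation: `conj β`, `- t`, `- g`) are small, so `∑ Re F (p n + s) Re F (r n + s)` and `∑ Im F (p n + s) Im F (r n + s)` are small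
(`Re z Re w = Re (z w + z conj w) / 2`, `Im z Im w = Re (z conj w - z w) / 2`), and Katai applies to `Re F`, `Im F`. All elements of the classes are bounded by `1`.
-/

set_option autoImplicit false

namespace Pool.Agent.Lib.MP_3e612f_nt.EM

open Finset
open Pool.Agent.Lib.MP_3e612f_nt.PI (ee mc)

theorem glob_one {q d : ℕ} (hd : 1 ≤ d) (h : PO q (d - 1)) : OR q d 1 := by
  intro T M B w0 _ hT hM ε hε
  obtain ⟨N0, hN0⟩ := h T M B hT ε hε
  refine ⟨N0, ?_⟩
  intro N hN K1 L s _ _ _ F hF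
  refine hN0 N hN L s F ?_
  obtain ⟨I, β, t, g, hI, hβ, hdep, ht, _, hg, hFe⟩ := hF
  refine ⟨I, β, g, hI, hβ, hdep, hg, fun n => ?_⟩
  have h0 : FP q (q * T) L t n = 0 := by
    unfold FP
    refine Finset.sum_eq_zero fun S _ => ?_
    have := ht S
    rwa [one_smul] at this
  rw [hFe n, h0, zero_add]

private theorem gc_norm_le {q d m' T M B L : ℕ} [NeZero M] {F : ℕ → ℂ}
    (hF : ClsK q d m' T M B L F) (n : ℕ) : ‖F n‖ ≤ 1 := by
  obtain ⟨I, β, t, g, _, hβ, _, _, _, _, hFe⟩ := hF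
  rw [hFe n, norm_mul, PI.Kat_norm_ee, mul_one]
  exact hβ n

private theorem gc_FP_neg {G : Type} [AddCommGroup G] (q m L : ℕ) (t : Finset (Lt m L) → G)
    (n : ℕ) : FP q m L (fun S => -t S) n = -FP q m L t n := by
  unfold FP
  rw [Finset.sum_neg_distrib]

private theorem gc_conj {q d m' T M B L : ℕ} [NeZero M] {F : ℕ → ℂ}
    (hF : ClsK q d m' T M B L F) : ClsK q d m' T M B L fun n => (starRingEnd ℂ) (F n) := by
  obtain ⟨I, β, t, g, hI, hβ, hdep, ht, ht', hg, hFe⟩ := hF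
  refine ⟨I, fun n => (starRingEnd ℂ) (β n), fun S => -t S, fun n => -g n, hI, ?_, ?_, ?_, ?_, ?_,
    ?_⟩
  · intro n
    rw [Complex.norm_conj]
    exact hβ n
  · intro n n' hn
    show (starRingEnd ℂ) (β n) = (starRingEnd ℂ) (β n')
    rw [hdep n n' hn]
  · intro S
    show m' • (-t S) = 0
    rw [smul_neg, ht S, neg_zero]
  · intro S hS
    show -t S = 0
    rw [ht' S hS, neg_zero]
  · obtain ⟨u, hu, hgu⟩ := hg
    refine ⟨fun S => -u S, fun S hS => ?_, fun n => ?_⟩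
    · show -u S = 0
      rw [hu S hS, neg_zero]
    · show -g n = _
      rw [gc_FP_neg, hgu n]
  · intro n
    show (starRingEnd ℂ) (F n) = _
    rw [hFe n, map_mul, gc_FP_neg, ← PI.Kat_ee_neg, neg_add]

private theorem gc_pair {q d : ℕ} (hq : 2 ≤ q) (hd : 1 ≤ d) {ℓ m1 : ℕ} (hℓ : ℓ.Prime)
    (h : OR q d m1) {T M : ℕ} (B w0 : ℕ) [NeZero M] (hT : 0 < T) (hM : ℓ * m1 ∣ M) {ε δ : ℝ}
    (hε : 0 < ε) (hδ : 0 < δ) (p r : ℕ) (hp : p.Prime) (hr : r.Prime) (hpr : p < r)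
    (hpq : q * T * M < p) :
    ∃ N0 : ℕ, ∀ N ≥ N0, ∀ K1 L s : ℕ, N ≤ q ^ K1 → q ^ K1 ≤ q * N → L ≤ K1 + w0 →
      ∀ F : ℕ → ℂ, ClsK q d (ℓ * m1) T M B L F →
        (∀ F' : ℕ → ℂ, ClsK q d (ℓ * m1) T M B L F' →
          ‖∑ n ∈ Icc 1 (N / r), F (p * n + s) * F' (r * n + s)‖ ≤ δ * N) ∨
        ‖∑ n ∈ Icc 1 N, mc n * F (n + s)‖ ≤ ε * N := by
  have hM0 : 0 < M := Nat.pos_of_ne_zero (NeZero.ne M)
  have hq0 : 0 < q := by omega
  have hqp : q < p := by
    refine lt_of_le_of_lt ?_ hpq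
    calc q = q * 1 * 1 := by ring
      _ ≤ q * T * M := Nat.mul_le_mul (Nat.mul_le_mul_left q hT) hM0
  have hTp : T < p := by
    refine lt_of_le_of_lt ?_ hpq
    calc T = 1 * T * 1 := by ring
      _ ≤ q * T * M := Nat.mul_le_mul (Nat.mul_le_mul_right T hq0) hM0
  have hcop : ∀ {x y : ℕ}, x.Prime → 0 < y → y < x → x.Coprime y := fun hx hy hyx =>
    (Nat.Prime.coprime_iff_not_dvd hx).mpr fun hdv => absurd (Nat.le_of_dvd hy hdv) (by omega)
  obtain ⟨C, T2, M2, B2, N0, hne, hT2, hM2, hdich⟩ :=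
    dichT hq hd B w0 hℓ hM hT hp hr hpr.ne (hcop hp hq0 hqp) (hcop hr hq0 (hqp.trans hpr))
      (hcop hp hT hTp) hδ
  have hC1 : (0 : ℝ) < (C : ℝ) + 1 := by positivity
  obtain ⟨N1, hN1⟩ := h T2 M2 B2 w0 hT2 hM2 (ε / ((C : ℝ) + 1)) (div_pos hε hC1)
  refine ⟨max N0 N1, ?_⟩
  intro N hN K1 L s hK1 hK2 hL F hF
  rcases hdich N ((le_max_left _ _).trans hN) K1 L hK1 hK2 hL F hF with h1 | h2
  · left
    intro F' hF'
    exact h1 F' hF' s s (N / r) (Nat.div_le_self N r)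
  · right
    obtain ⟨ι, _, a, F1, hcard, ha, hF1, hsum⟩ := h2
    have e : ∑ n ∈ Icc 1 N, mc n * F (n + s) =
        ∑ i, a i * ∑ n ∈ Icc 1 N, mc n * F1 i (n + s) := by
      have e1 : ∀ n ∈ Icc 1 N, mc n * F (n + s) = ∑ i, a i * (mc n * F1 i (n + s)) := by
        intro n _
        rw [hsum (n + s), Finset.mul_sum]
        exact Finset.sum_congr rfl fun i _ => by ring
      rw [Finset.sum_congr rfl e1, Finset.sum_comm]
      exact Finset.sum_congr rfl fun i _ => (Finset.mul_sum _ _ _).symm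
    rw [e]
    have hN0' : (0 : ℝ) ≤ N := Nat.cast_nonneg N
    calc ‖∑ i, a i * ∑ n ∈ Icc 1 N, mc n * F1 i (n + s)‖
        ≤ ∑ i : ι, ε / ((C : ℝ) + 1) * N := by
          refine (norm_sum_le _ _).trans (Finset.sum_le_sum fun i _ => ?_)
          rw [norm_mul]
          have h3 := hN1 N ((le_max_right _ _).trans hN) K1 L s hK1 hK2 hL (F1 i) (hF1 i)
          calc ‖a i‖ * ‖∑ n ∈ Icc 1 N, mc n * F1 i (n + s)‖
              ≤ 1 * (ε / ((C : ℝ) + 1) * N) :=
                mul_le_mul (ha i) h3 (norm_nonneg _) zero_le_one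
            _ = _ := one_mul _
      _ = (Fintype.card ι : ℝ) * (ε / ((C : ℝ) + 1) * N) := by
          rw [Finset.sum_const, Finset.card_univ, nsmul_eq_mul]
      _ ≤ ((C : ℝ) + 1) * (ε / ((C : ℝ) + 1) * N) := by
          refine mul_le_mul_of_nonneg_right ?_ (by positivity)
          have : (Fintype.card ι : ℝ) ≤ C := by exact_mod_cast hcard
          linarith
      _ = ε * N := by
          field_simp

theorem glob_step {q d : ℕ} (hq : 2 ≤ q) (hd : 1 ≤ d) {ℓ m1 : ℕ} (hℓ : ℓ.Prime)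
    (h : OR q d m1) : OR q d (ℓ * m1) := by
  intro T M B w0 _ hT hM ε hε
  obtain ⟨P, δ, N1, hP, hδ, hk⟩ := PB.katai_fin (A := 1) le_rfl (q * T * M) (half_pos hε)
  have h' : ∀ p r : ℕ, ∃ N0 : ℕ, p ∈ P → r ∈ P → p < r →
      ∀ N ≥ N0, ∀ K1 L s : ℕ, N ≤ q ^ K1 → q ^ K1 ≤ q * N → L ≤ K1 + w0 →
      ∀ F : ℕ → ℂ, ClsK q d (ℓ * m1) T M B L F →
        (∀ F' : ℕ → ℂ, ClsK q d (ℓ * m1) T M B L F' →
          ‖∑ n ∈ Icc 1 (N / r), F (p * n + s) * F' (r * n + s)‖ ≤ δ * N) ∨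
        ‖∑ n ∈ Icc 1 N, mc n * F (n + s)‖ ≤ ε * N := by
    intro p r
    by_cases hc : p ∈ P ∧ r ∈ P ∧ p < r
    · obtain ⟨h1, h2, h3⟩ := hc
      obtain ⟨N0, hN0⟩ := gc_pair hq hd hℓ h B w0 hT hM hε hδ p r (hP p h1).1 (hP r h2).1 h3
        (hP p h1).2
      exact ⟨N0, fun _ _ _ => hN0⟩
    · exact ⟨0, fun a b c => absurd ⟨a, b, c⟩ hc⟩
  choose N2 hN2 using h'
  refine ⟨max N1 (P.sup fun p => P.sup fun r => N2 p r), ?_⟩
  intro N hN K1 L s hK1 hK2 hL F hF
  by_cases hb : ‖∑ n ∈ Icc 1 N, mc n * F (n + s)‖ ≤ ε * N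
  · exact hb
  have hN' : N1 ≤ N := le_trans (le_max_left _ _) hN
  have hcor : ∀ p ∈ P, ∀ r ∈ P, p < r → ∀ F' : ℕ → ℂ, ClsK q d (ℓ * m1) T M B L F' →
      ‖∑ n ∈ Icc 1 (N / r), F (p * n + s) * F' (r * n + s)‖ ≤ δ * N := by
    intro p hp r hr hpr
    have hS : N2 p r ≤ N := by
      refine le_trans ?_ (le_trans (le_max_right _ _) hN)
      refine le_trans ?_ (Finset.le_sup (f := fun p => P.sup fun r => N2 p r) hp)
      exact Finset.le_sup (f := fun r => N2 p r) hr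
    rcases hN2 p r hp hr hpr N hS K1 L s hK1 hK2 hL F hF with h1 | h2
    · exact h1
    · exact absurd h2 hb
  have hre := hk N hN' (fun n => (F (n + s)).re)
    (fun n => (Complex.abs_re_le_norm _).trans (gc_norm_le hF _)) (fun p hp r hr hpr => by
      have h1 := hcor p hp r hr hpr F hF
      have h2 := hcor p hp r hr hpr _ (gc_conj hF)
      have e : ∑ m ∈ Icc 1 (N / r), (F (p * m + s)).re * (F (r * m + s)).re =
          ((∑ n ∈ Icc 1 (N / r), F (p * n + s) * F (r * n + s)).re +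
            (∑ n ∈ Icc 1 (N / r), F (p * n + s) * (starRingEnd ℂ) (F (r * n + s))).re) / 2 := by
        rw [Complex.re_sum, Complex.re_sum, ← sum_add_distrib, sum_div]
        refine sum_congr rfl fun m _ => ?_
        rw [Complex.mul_re, Complex.mul_re, Complex.conj_re, Complex.conj_im]
        ring
      rw [e, abs_div, abs_two, div_le_iff₀ two_pos]
      have h3 := Complex.abs_re_le_norm (∑ n ∈ Icc 1 (N / r), F (p * n + s) * F (r * n + s))
      have h4 := Complex.abs_re_le_norm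
        (∑ n ∈ Icc 1 (N / r), F (p * n + s) * (starRingEnd ℂ) (F (r * n + s)))
      have h5 := abs_add_le (∑ n ∈ Icc 1 (N / r), F (p * n + s) * F (r * n + s)).re
        (∑ n ∈ Icc 1 (N / r), F (p * n + s) * (starRingEnd ℂ) (F (r * n + s))).re
      linarith)
  have him := hk N hN' (fun n => (F (n + s)).im)
    (fun n => (Complex.abs_im_le_norm _).trans (gc_norm_le hF _)) (fun p hp r hr hpr => by
      have h1 := hcor p hp r hr hpr F hF
      have h2 := hcor p hp r hr hpr _ (gc_conj hF)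
      have e : ∑ m ∈ Icc 1 (N / r), (F (p * m + s)).im * (F (r * m + s)).im =
          ((∑ n ∈ Icc 1 (N / r), F (p * n + s) * (starRingEnd ℂ) (F (r * n + s))).re -
            (∑ n ∈ Icc 1 (N / r), F (p * n + s) * F (r * n + s)).re) / 2 := by
        rw [Complex.re_sum, Complex.re_sum, ← sum_sub_distrib, sum_div]
        refine sum_congr rfl fun m _ => ?_
        rw [Complex.mul_re, Complex.mul_re, Complex.conj_re, Complex.conj_im]
        ring
      rw [e, abs_div, abs_two, div_le_iff₀ two_pos]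
      have h3 := Complex.abs_re_le_norm (∑ n ∈ Icc 1 (N / r), F (p * n + s) * F (r * n + s))
      have h4 := Complex.abs_re_le_norm
        (∑ n ∈ Icc 1 (N / r), F (p * n + s) * (starRingEnd ℂ) (F (r * n + s)))
      have h5 := abs_sub (∑ n ∈ Icc 1 (N / r), F (p * n + s) * (starRingEnd ℂ) (F (r * n + s))).re
        (∑ n ∈ Icc 1 (N / r), F (p * n + s) * F (r * n + s)).re
      linarith)
  have er : (∑ n ∈ Icc 1 N, mc n * F (n + s)).re = ∑ n ∈ Icc 1 N, mu n * (F (n + s)).re := by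
    rw [Complex.re_sum]
    refine sum_congr rfl fun n _ => ?_
    rw [PI.Kat_mc, Complex.re_ofReal_mul]
  have ei : (∑ n ∈ Icc 1 N, mc n * F (n + s)).im = ∑ n ∈ Icc 1 N, mu n * (F (n + s)).im := by
    rw [Complex.im_sum]
    refine sum_congr rfl fun n _ => ?_
    rw [PI.Kat_mc, Complex.im_ofReal_mul]
  have hfin := Complex.norm_le_abs_re_add_abs_im (∑ n ∈ Icc 1 N, mc n * F (n + s))
  rw [er, ei] at hfin
  exact absurd (by linarith [hre, him, hfin]) hb

end Pool.Agent.Lib.MP_3e612f_nt.EM
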