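import Pool.Agent.Lib.MP_3e612f_nt.EM.GlobA
import Pool.Agent.Lib.MP_3e612f_nt.EM.GlobB
import Pool.Agent.Lib.MP_3e612f_nt.EM.GlobC

/-!
The global theorem: Moebius orthogonality for all functions `β * ee f`.
-/

set_option autoImplicit false

namespace Pool.Agent.Lib.MP_3e612f_nt.EM

open Finset
open Pool.Agent.Lib.MP_3e612f_nt.PI (ee mc)

theorem or_all {q d : ℕ} (hq : 2 ≤ q) (hd : 1 ≤ d) (h : PO q (d - 1)) (m' : ℕ) (hm' : m' ≠ 0) :
    OR q d m' := by
  induction m' using Nat.strong_induction_on with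
  | _ m' ih =>
    by_cases h1 : m' = 1
    · rw [h1]
      exact glob_one hd h
    · have hp : m'.minFac.Prime := Nat.minFac_prime h1
      have h2 : m'.minFac * (m' / m'.minFac) = m' := Nat.mul_div_cancel' (Nat.minFac_dvd m')
      have h3 : m' / m'.minFac ≠ 0 := by
        intro h4
        rw [h4, mul_zero] at h2
        exact hm' h2.symm
      have h4 : m' / m'.minFac < m' :=
        Nat.div_lt_self (Nat.pos_of_ne_zero hm') hp.one_lt
      rw [← h2]
      exact glob_step hq hd hp (ih _ h4 h3)

theorem po_all {q : ℕ} (hq : 2 ≤ q) (d : ℕ) : PO q d := by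
  induction d with
  | zero => exact glob_base hq
  | succ d ih => exact glob_trunc hq (Nat.succ_pos d) fun M hM => or_all hq (Nat.succ_pos d) ih M hM

end Pool.Agent.Lib.MP_3e612f_nt.EM
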