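import Pool.Agent.Lib.MP_3e612f_nt.EM.FinA
import Pool.Agent.Lib.MP_3e612f_nt.EM.Glob
import Pool.Agent.Lib.MP_3e612f_nt.EM.U.Result

/-!
The theorem for all windows modulo `m`, `m` arbitrary, and all finite abelian groups.
-/

set_option autoImplicit false

namespace Pool.Agent.Lib.MP_3e612f_nt.EM

theorem result_all (q m d : ℕ) (hq : 2 ≤ q) (hm : 1 ≤ m) (hd : 1 ≤ d) (A : Type) [AddCommGroup A]
    [Finite A] [UniformSpace A] [DiscreteUniformity A] :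
    let X : Set (ℕ → A) := {x | ∀ l : ℕ, ∃ (L s : ℕ) (F : (Fin d → Fin L) → (Fin d → ℕ) → A),
      ∀ i < l, x i = ∑ j : Fin d → Fin L, F j
        (fun a => (i + s) / q ^ (j a : ℕ) % m)}
    let T : (ℕ → A) → ℕ → A := fun x i => x (i + 1)
    X.Nonempty ∧ IsClosed X ∧ Set.MapsTo T X X ∧ Dynamics.coverEntropy T X = 0 ∧
      ∀ f : (ℕ → A) → ℂ, ContinuousOn f X → ∀ ε : ℝ, 0 < ε → ∃ N₀ : ℕ, ∀ N ≥ N₀, ∀ x ∈ X,
        ‖∑ n ∈ Finset.Icc 1 N, f (T^[n] x) * ((ArithmeticFunction.moebius n : ℤ) : ℂ)‖ ≤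
          ε * N :=
  result_of q m d hq hm hd (emain_of_PO hq hm (po_all hq d)) A

end Pool.Agent.Lib.MP_3e612f_nt.EM
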