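import Pool.Agent.Lib.MP_3e612f_nt.EM.Rew

/-!
Phases: elementary operations.

All pairs (position, window) are letters (`mem_ltr`, `FP_add`, `lt1`, `ltr_eq_image`, `isPL_level` are in
`EM/Rew.lean`). `DepL.factor`: a function of the windows at the positions of `I`. `isPL_of_dep`: the
function is the sum over the contents `c` of the windows at `P` of its value times the indicator of the
set of the letters `(i, c i)`.
-/

set_option autoImplicit false

namespace Pool.Agent.Lib.MP_3e612f_nt.EM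

open Finset
open Pool.Agent.Lib.MP_3e612f_nt.PI (ee mc)

variable {G : Type} [AddCommGroup G] {q m d L : ℕ}

theorem FP_eq (t : Finset (Lt m L) → G) (n : ℕ) :
    FP q m L t n = ∑ S : Finset (Lt m L), if S ⊆ ltr q m L n then t S else 0 := by
  unfold FP
  rw [← Finset.sum_filter]
  refine Finset.sum_congr ?_ fun _ _ => rfl
  ext S
  simp

theorem FP_map {G' : Type} [AddCommGroup G'] (φ : G →+ G') (t : Finset (Lt m L) → G) (n : ℕ) :
    FP q m L (fun S => φ (t S)) n = φ (FP q m L t n) := by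
  unfold FP
  rw [map_sum]

theorem IsPL.congr {f h : ℕ → G} (hf : IsPL q m d L f) (e : ∀ n, h n = f n) : IsPL q m d L h := by
  obtain ⟨t, ht, hf⟩ := hf
  exact ⟨t, ht, fun n => by rw [e, hf]⟩

theorem IsPL.mono_d {d' : ℕ} (hd : d ≤ d') {f : ℕ → G} (hf : IsPL q m d L f) :
    IsPL q m d' L f := by
  obtain ⟨t, ht, hf⟩ := hf
  exact ⟨t, fun S hS => ht S (by omega), hf⟩

theorem IsPL.add {f h : ℕ → G} (hf : IsPL q m d L f) (hh : IsPL q m d L h) :
    IsPL q m d L fun n => f n + h n := by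
  obtain ⟨t, ht, hf⟩ := hf
  obtain ⟨t', ht', hh⟩ := hh
  refine ⟨fun S => t S + t' S, fun S hS => ?_, fun n => ?_⟩
  · beta_reduce
    rw [ht S hS, ht' S hS, add_zero]
  · beta_reduce
    rw [FP_add, hf, hh]

theorem isPL_zero : IsPL q m d L fun _ => (0 : G) :=
  ⟨fun _ => 0, fun _ _ => rfl, fun n => by unfold FP; rw [Finset.sum_const_zero]⟩

theorem IsPL.sum {ι : Type} (S : Finset ι) {f : ι → ℕ → G} (hf : ∀ i ∈ S, IsPL q m d L (f i)) :
    IsPL q m d L fun n => ∑ i ∈ S, f i n := by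
  classical
  induction S using Finset.induction_on with
  | empty =>
    simp only [Finset.sum_empty]
    exact isPL_zero
  | insert a S ha ih =>
    have h1 := IsPL.add (hf a (mem_insert_self a S)) (ih fun i hi => hf i (mem_insert_of_mem hi))
    exact h1.congr fun n => by rw [Finset.sum_insert ha]

theorem IsPL.map {G' : Type} [AddCommGroup G'] (φ : G →+ G') {f : ℕ → G} (hf : IsPL q m d L f) :
    IsPL q m d L fun n => φ (f n) := by
  obtain ⟨t, ht, hf⟩ := hf
  refine ⟨fun S => φ (t S), fun S hS => ?_, fun n => ?_⟩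
  · beta_reduce
    rw [ht S hS, map_zero]
  · beta_reduce
    rw [FP_map, hf]

theorem IsPL.neg {f : ℕ → G} (hf : IsPL q m d L f) : IsPL q m d L fun n => -f n :=
  hf.map (-AddMonoidHom.id G)

theorem isPL_FP {t : Finset (Lt m L) → G} (ht : ∀ S, d < S.card → t S = 0) :
    IsPL q m d L (FP q m L t) := ⟨t, ht, fun _ => rfl⟩

/-- the function which is `y` if the letters of `S` occur -/
theorem isPL_letter (S : Finset (Lt m L)) (hS : S.card ≤ d) (y : G) :
    IsPL q m d L fun n => if S ⊆ ltr q m L n then y else 0 := by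
  refine ⟨fun S' => if S' = S then y else 0, fun S' hS' => if_neg ?_, fun n => ?_⟩
  · rintro rfl
    omega
  · rw [FP_eq]
    have h1 : ∀ S' : Finset (Lt m L), (if S' ⊆ ltr q m L n then (if S' = S then y else 0) else 0) =
        if S' = S then (if S ⊆ ltr q m L n then y else 0) else 0 := by
      intro S'
      by_cases h : S' = S
      · rw [if_pos h, if_pos h, h]
      · rw [if_neg h, if_neg h, ite_self]
    rw [Finset.sum_congr rfl fun S' _ => h1 S', Finset.sum_ite_eq', if_pos (mem_univ _)]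

/-- a function of the windows at the positions of `I` -/
theorem DepL.factor {I : Finset ℕ} {E : Type} {φ : ℕ → E} (h : DepL q m I φ) :
    ∃ Φ : (ℕ → ℕ) → E, (∀ u u' : ℕ → ℕ, (∀ i ∈ I, u i = u' i) → Φ u = Φ u') ∧
      ∀ n, φ n = Φ fun i => n / q ^ i % m := by
  classical
  have h0 : ∀ u : ℕ → ℕ, ∃ y : E, ∀ n, (∀ i ∈ I, n / q ^ i % m = u i) → φ n = y := by
    intro u
    by_cases h1 : ∃ n, ∀ i ∈ I, n / q ^ i % m = u i
    · obtain ⟨n0, hn0⟩ := h1
      exact ⟨φ n0, fun n hn => h n n0 fun i hi => by rw [hn i hi, hn0 i hi]⟩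
    · exact ⟨φ 0, fun n hn => absurd ⟨n, hn⟩ h1⟩
  refine ⟨fun u => if h1 : ∃ n, ∀ i ∈ I, n / q ^ i % m = u i then φ h1.choose else φ 0, ?_, ?_⟩
  · intro u u' huu
    beta_reduce
    by_cases h1 : ∃ n, ∀ i ∈ I, n / q ^ i % m = u i
    · have h2 : ∃ n, ∀ i ∈ I, n / q ^ i % m = u' i := by
        obtain ⟨n, hn⟩ := h1
        exact ⟨n, fun i hi => by rw [hn i hi, huu i hi]⟩
      rw [dif_pos h1, dif_pos h2]
      exact h _ _ fun i hi => by rw [h1.choose_spec i hi, h2.choose_spec i hi, huu i hi]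
    · have h2 : ¬ ∃ n, ∀ i ∈ I, n / q ^ i % m = u' i := by
        rintro ⟨n, hn⟩
        exact h1 ⟨n, fun i hi => by rw [hn i hi, huu i hi]⟩
      rw [dif_neg h1, dif_neg h2]
  · intro n
    have h1 : ∃ n', ∀ i ∈ I, n' / q ^ i % m = n / q ^ i % m := ⟨n, fun i _ => rfl⟩
    show φ n = if h1 : ∃ n', ∀ i ∈ I, n' / q ^ i % m = n / q ^ i % m then φ h1.choose else φ 0
    rw [dif_pos h1]
    exact h _ _ fun i hi => (h1.choose_spec i hi).symm

/-- a function of the windows at `≤ d` positions is a phase of degree `≤ d` -/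
theorem isPL_of_dep {P : Finset ℕ} (hP : P.card ≤ d) (hPL : ∀ i ∈ P, i < L) (hm : 0 < m)
    {φ : ℕ → G} (hφ : DepL q m P φ) : IsPL q m d L φ := by
  classical
  obtain ⟨Φ, hΦ, hφΦ⟩ := hφ.factor
  -- the set of letters with the contents `c`
  set Sc : (P → Fin m) → Finset (Lt m L) := fun c =>
    univ.image fun i : P => ((⟨i, hPL i i.2⟩ : Fin L), c i) with hSc
  set ext : (P → Fin m) → ℕ → ℕ := fun c i => if h : i ∈ P then c ⟨i, h⟩ else 0 with hext
  have h1 : ∀ c n, Sc c ⊆ ltr q m L n ↔ ∀ i : P, n / q ^ (i : ℕ) % m = c i := by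
    intro c n
    rw [hSc, Finset.image_subset_iff]
    constructor
    · intro h i
      exact mem_ltr.1 (h i (mem_univ i))
    · intro h i _
      exact mem_ltr.2 (h i)
  have h2 : ∀ n, φ n = ∑ c : P → Fin m, if Sc c ⊆ ltr q m L n then Φ (ext c) else 0 := by
    intro n
    rw [Finset.sum_eq_single (fun i : P => (⟨n / q ^ (i : ℕ) % m, Nat.mod_lt _ hm⟩ : Fin m))]
    · rw [if_pos ((h1 _ n).2 fun i => rfl), hφΦ n]
      refine hΦ _ _ fun i hi => ?_
      rw [hext]
      simp only [dif_pos hi]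
    · intro c _ hc
      refine if_neg fun h => hc (funext fun i => Fin.ext ?_)
      exact ((h1 c n).1 h i).symm
    · intro h
      exact absurd (mem_univ _) h
  refine (IsPL.sum univ fun c _ => isPL_letter (Sc c) ?_ (Φ (ext c))).congr h2
  refine Finset.card_image_le.trans ?_
  rw [Finset.card_univ, Fintype.card_coe]
  exact hP

theorem DepL.mono {E : Type} {m' : ℕ} (h : m ∣ m') {I I' : Finset ℕ} (hI : I ⊆ I') {β : ℕ → E}
    (hβ : DepL q m I β) : DepL q m' I' β := by
  intro n n' hn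
  refine hβ n n' fun i hi => ?_
  rw [← Nat.mod_mod_of_dvd _ h, hn i (hI hi), Nat.mod_mod_of_dvd _ h]

/-- the positions of a set of letters -/
theorem ph_mem_posn {S : Finset (Lt m L)} {i : ℕ} :
    i ∈ S.image (fun x => (x.1 : ℕ)) ↔ ∃ x ∈ S, (x.1 : ℕ) = i := by
  rw [Finset.mem_image]

theorem ph_dep_letters {E : Type} (S : Finset (Lt m L)) (y z : E) :
    DepL q m (S.image fun x => (x.1 : ℕ)) fun n => if S ⊆ ltr q m L n then y else z := by
  intro n n' h
  have h1 : S ⊆ ltr q m L n ↔ S ⊆ ltr q m L n' := by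
    constructor
    · intro h2 x hx
      rw [mem_ltr, ← h _ (ph_mem_posn.2 ⟨x, hx, rfl⟩)]
      exact mem_ltr.1 (h2 hx)
    · intro h2 x hx
      rw [mem_ltr, h _ (ph_mem_posn.2 ⟨x, hx, rfl⟩)]
      exact mem_ltr.1 (h2 hx)
  beta_reduce
  by_cases h2 : S ⊆ ltr q m L n
  · rw [if_pos h2, if_pos (h1.1 h2)]
  · rw [if_neg h2, if_neg fun h3 => h2 (h1.2 h3)]

/-- the indicator of a set of letters depends on the windows at its positions -/
theorem dep_letters (S : Finset (Lt m L)) (y : G) :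
    DepL q m (S.image fun x => (x.1 : ℕ)) fun n => if S ⊆ ltr q m L n then y else 0 :=
  ph_dep_letters S y 0

theorem IsPL.const (y : G) : IsPL q m d L fun _ => y := by
  refine (isPL_letter (q := q) (m := m) (d := d) (L := L) ∅ (by simp) y).congr fun n => ?_
  rw [if_pos (Finset.empty_subset _)]

theorem IsPL.mono_L {L' : ℕ} (hL : L ≤ L') {f : ℕ → G} (hf : IsPL q m d L f) :
    IsPL q m d L' f := by
  obtain ⟨t, ht, hf⟩ := hf
  have h1 : ∀ n, f n = ∑ S : Finset (Lt m L), if S ⊆ ltr q m L n then t S else 0 := fun n => by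
    rw [hf, FP_eq]
  refine (IsPL.sum univ fun S _ => ?_).congr h1
  rcases Nat.eq_zero_or_pos m with hm | hm
  · subst hm
    have h2 : S = ∅ := by
      rw [Finset.eq_empty_iff_forall_notMem]
      exact fun x _ => x.2.elim0
    rw [h2]
    simp only [Finset.empty_subset, if_true]
    exact IsPL.const _
  by_cases hS : S.card ≤ d
  · refine isPL_of_dep (Finset.card_image_le.trans hS) (fun i hi => ?_) hm (dep_letters S (t S))
    obtain ⟨x, _, rfl⟩ := ph_mem_posn.1 hi
    exact lt_of_lt_of_le x.1.2 hL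
  · rw [ht S (by omega)]
    simp only [ite_self]
    exact isPL_zero

end Pool.Agent.Lib.MP_3e612f_nt.EM
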