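import Pool.Agent.Lib.MP_3e612f_nt.EM.GlobD
import Pool.Agent.Lib.MP_3e612f_nt.EM.Ph
import Pool.Agent.Lib.MP_3e612f_nt.EM.U.Words

/-!
The theorem for one character and windows modulo `q m`, from `PO`.
-/

set_option autoImplicit false

namespace Pool.Agent.Lib.MP_3e612f_nt.EM

open Finset
open Pool.Agent.Lib.MP_3e612f_nt.PI (ee mc)

theorem isPL_phm {G : Type} [AddCommGroup G] {q m d L : ℕ} (hm : 0 < m)
    (F : (Fin d → ℕ) → (Fin d → ℕ) → G) : IsPL q m d L (phm q m d L F) := by
  classical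
  have h1 : phm q m d L F = fun n => ∑ j ∈ Fintype.piFinset (fun _ : Fin d => range L),
      F j (fun a => n / q ^ (j a) % m) := rfl
  rw [h1]
  refine IsPL.sum _ fun j hj => ?_
  rw [Fintype.mem_piFinset] at hj
  have h2 : (univ.image j).card ≤ d := by
    have h3 := card_image_le (s := (univ : Finset (Fin d))) (f := j)
    rwa [card_univ, Fintype.card_fin] at h3
  refine isPL_of_dep h2 (fun i hi => ?_) hm fun n n' h => ?_
  · obtain ⟨a, _, rfl⟩ := mem_image.1 hi
    exact mem_range.1 (hj a)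
  · have h3 : (fun a => n / q ^ (j a) % m) = fun a => n' / q ^ (j a) % m :=
      funext fun a => h _ (mem_image_of_mem _ (mem_univ a))
    show F j _ = F j _
    rw [h3]

theorem emain_of_PO {q m d : ℕ} (hq : 2 ≤ q) (hm : 0 < m) (h : PO q d) : EMain q (q * m) d := by
  intro M _ ε hε
  obtain ⟨N0, hN0⟩ := h m M 0 hm ε hε
  refine ⟨N0, fun N hN L s F => ?_⟩
  have h1 := hN0 N hN L s (fun n => ee (phm q (q * m) d L F n))
    ⟨∅, fun _ => 1, phm q (q * m) d L F, by simp, fun _ => by simp, fun _ _ _ => rfl,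
      isPL_phm (Nat.mul_pos (by omega) hm) F, fun n => (one_mul _).symm⟩
  exact h1

end Pool.Agent.Lib.MP_3e612f_nt.EM
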