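import Pool.Agent.Lib.MP_3e612f_nt.EM.GlobD
import Pool.Agent.Lib.MP_3e612f_nt.EM.Ph

/-!
Truncation.

PROOFS. `truncT`: for `i ≥ K1` and `n ≤ N ≤ q ^ K1` the number `(n + s) / q ^ K1` is `s / q ^ K1` or `s / q ^ K1 + 1` (as `n + s % q ^ K1 < 2 q ^ K1`), so `(n + s) / q ^ i = ((n + s) / q ^ K1) / q ^ (i - K1)` is a function of the window
`(n + s) / q ^ K1 % m` (`2 ≤ m`). So `[S ⊆ ltr q m L (n + s)] t S` is, for `n ≤ N`, a function of `n + s` which depends on the windows at the positions `min i K1`, `i` a position of `S` (at most `d` positions `≤ K1`): `isPL_of_dep`.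
`glob_trunc`: `F = β * ee f`; `truncT` with `K1 = Nat.clog q N` (`q ^ K1 ≤ q N` as in `PI/Main.lean`, for `N ≥ 1`); `β` is not changed; `f' = FP t + g`: the sets with `d` elements and the others (`q * T ≥ 2`); `ClsK` with `m' = M`, `w0 = 1`.
-/

set_option autoImplicit false

namespace Pool.Agent.Lib.MP_3e612f_nt.EM

open Finset
open Pool.Agent.Lib.MP_3e612f_nt.PI (ee mc)

/-- the window at the position `i`, computed from the one at `min i K1` -/
private def globA_w (q m K1 σ i n : ℕ) : ℕ :=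
  if i < K1 then n / q ^ i % m
  else (if n / q ^ K1 % m = σ % m then σ else σ + 1) / q ^ (i - K1) % m

private theorem globA_dep {q m K1 σ i n n' : ℕ}
    (h : n / q ^ (min i K1) % m = n' / q ^ (min i K1) % m) :
    globA_w q m K1 σ i n = globA_w q m K1 σ i n' := by
  unfold globA_w
  by_cases hi : i < K1
  · rw [min_eq_left hi.le] at h
    rw [if_pos hi, if_pos hi, h]
  · rw [min_eq_right (not_lt.1 hi)] at h
    rw [if_neg hi, if_neg hi, h]

private theorem globA_eq {q m K1 : ℕ} (hq : 2 ≤ q) (hm : 2 ≤ m) (s n i : ℕ)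
    (hn : n ≤ q ^ K1) :
    globA_w q m K1 (s / q ^ K1) i (n + s) = (n + s) / q ^ i % m := by
  unfold globA_w
  by_cases hi : i < K1
  · rw [if_pos hi]
  · rw [if_neg hi]
    have hpos : 0 < q ^ K1 := pow_pos (by omega) K1
    have h1 : (n + s) / q ^ K1 = s / q ^ K1 ∨ (n + s) / q ^ K1 = s / q ^ K1 + 1 := by
      have h2 : s / q ^ K1 ≤ (n + s) / q ^ K1 := Nat.div_le_div_right (Nat.le_add_left s n)
      have h3 : (n + s) / q ^ K1 < s / q ^ K1 + 2 := by
        rw [Nat.div_lt_iff_lt_mul hpos]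
        have h4 := Nat.div_add_mod s (q ^ K1)
        have h5 := Nat.mod_lt s hpos
        have h6 : (s / q ^ K1 + 2) * q ^ K1 = q ^ K1 * (s / q ^ K1) + 2 * q ^ K1 := by ring
        rw [h6]
        omega
      omega
    have h7 : (if (n + s) / q ^ K1 % m = s / q ^ K1 % m then s / q ^ K1 else s / q ^ K1 + 1) =
        (n + s) / q ^ K1 := by
      rcases h1 with h | h
      · rw [h, if_pos rfl]
      · rw [h, if_neg]
        intro h8
        have h9 : (s / q ^ K1 + 1) ≡ (s / q ^ K1 + 0) [MOD m] := by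
          rw [add_zero]
          exact h8
        have h10 := Nat.ModEq.add_left_cancel' _ h9
        have h11 : 1 % m = 0 % m := h10
        rw [Nat.mod_eq_of_lt (by omega), Nat.zero_mod] at h11
        omega
    rw [h7, Nat.div_div_eq_div_mul, ← pow_add, Nat.add_sub_cancel' (not_lt.1 hi)]

/-- a phase only needs the windows up to the length of the interval -/
theorem truncT {q m d L K1 : ℕ} (hq : 2 ≤ q) (hm : 2 ≤ m) {G : Type} [AddCommGroup G] (s N : ℕ)
    (hN : N ≤ q ^ K1) {f : ℕ → G} (hf : IsPL q m d L f) :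
    ∃ f' : ℕ → G, IsPL q m d (K1 + 1) f' ∧ ∀ n ≤ N, f (n + s) = f' (n + s) := by
  classical
  obtain ⟨t, ht, hft⟩ := hf
  refine ⟨fun n => ∑ S : Finset (Lt m L),
    if (∀ x ∈ S, globA_w q m K1 (s / q ^ K1) (x.1 : ℕ) n = x.2) then t S else 0, ?_, ?_⟩
  · refine IsPL.sum univ fun S _ => ?_
    by_cases hS : d < S.card
    · have h0 : (fun n => if (∀ x ∈ S, globA_w q m K1 (s / q ^ K1) (x.1 : ℕ) n = x.2)
          then t S else 0) = fun _ => (0 : G) := by
        funext n
        rw [ht S hS, ite_self]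
      rw [h0]
      exact IsPL.const 0
    · refine isPL_of_dep (P := S.image fun x => min (x.1 : ℕ) K1)
        (card_image_le.trans (not_lt.1 hS)) ?_ (by omega) ?_
      · intro i hi
        obtain ⟨x, -, rfl⟩ := mem_image.1 hi
        exact Nat.lt_succ_of_le (min_le_right _ _)
      · intro n n' h
        have h1 : (∀ x ∈ S, globA_w q m K1 (s / q ^ K1) (x.1 : ℕ) n = x.2) ↔
            (∀ x ∈ S, globA_w q m K1 (s / q ^ K1) (x.1 : ℕ) n' = x.2) := by
          refine forall₂_congr fun x hx => ?_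
          rw [globA_dep (h _ (mem_image.2 ⟨x, hx, rfl⟩))]
        simp only [h1]
  · intro n hn
    rw [hft, FP_eq]
    refine Finset.sum_congr rfl fun S _ => ?_
    have h1 : S ⊆ ltr q m L (n + s) ↔
        (∀ x ∈ S, globA_w q m K1 (s / q ^ K1) (x.1 : ℕ) (n + s) = x.2) := by
      refine forall₂_congr fun x hx => ?_
      rw [mem_ltr, globA_eq hq hm s n _ (hn.trans hN)]
    simp only [h1]

theorem glob_trunc {q d : ℕ} (hq : 2 ≤ q) (hd : 1 ≤ d) (h : ∀ M, M ≠ 0 → OR q d M) : PO q d := by
  intro T M B _ hT ε hε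
  obtain ⟨N0, hN0⟩ := h M (NeZero.ne M) T M B 1 hT dvd_rfl ε hε
  refine ⟨max N0 1, fun N hN L s F hF => ?_⟩
  have h0 : N0 ≤ N := le_trans (le_max_left _ _) hN
  have h1 : 1 ≤ N := le_trans (le_max_right _ _) hN
  have hNK : N ≤ q ^ Nat.clog q N := Nat.le_pow_clog (by omega) N
  have hKN : q ^ Nat.clog q N ≤ q * N := by
    rcases Nat.eq_or_lt_of_le h1 with h | h
    · subst h
      simp
      omega
    · have h2 : q ^ (Nat.clog q N).pred < N := Nat.pow_pred_clog_lt_self (by omega) h
      have h3 : 0 < Nat.clog q N := Nat.clog_pos (by omega) (by omega)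
      have h4 : q ^ Nat.clog q N = q * q ^ (Nat.clog q N).pred := by
        rw [← pow_succ']
        congr 1
        exact (Nat.succ_pred_eq_of_pos h3).symm
      rw [h4]
      exact Nat.mul_le_mul_left q h2.le
  obtain ⟨I, β, f, hI, hβ, hdep, hf, hFf⟩ := hF
  have hm : 2 ≤ q * T := le_trans hq (Nat.le_mul_of_pos_right q hT)
  obtain ⟨f', ⟨t0, ht0, hft⟩, hff⟩ := truncT (K1 := Nat.clog q N) hq hm s N hNK hf
  have hcls : ClsK q d M T M B (Nat.clog q N + 1) fun n => β n * ee (f' n) := by
    refine ⟨I, β, fun S => if S.card = d then t0 S else 0,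
      FP q (q * T) (Nat.clog q N + 1) (fun S => if S.card = d then 0 else t0 S), hI, hβ, hdep,
      ?_, ?_, ?_, ?_⟩
    · intro S
      rw [nsmul_eq_mul, ZMod.natCast_self, zero_mul]
    · intro S hS
      exact if_neg hS
    · refine ⟨_, ?_, fun n => rfl⟩
      intro S hS
      by_cases h2 : S.card = d
      · exact if_pos h2
      · simp only [if_neg h2]
        exact ht0 S (by omega)
    · intro n
      simp only []
      rw [hft n, ← FP_add]
      congr 3
      funext S
      by_cases h2 : S.card = d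
      · simp only [if_pos h2, add_zero]
      · simp only [if_neg h2, zero_add]
  have h5 := hN0 N h0 (Nat.clog q N) (Nat.clog q N + 1) s hNK hKN le_rfl _ hcls
  have h6 : ∑ n ∈ Icc 1 N, mc n * F (n + s) =
      ∑ n ∈ Icc 1 N, mc n * (β (n + s) * ee (f' (n + s))) := by
    refine Finset.sum_congr rfl fun n hn => ?_
    rw [hFf, hff n (mem_Icc.1 hn).2]
  rw [h6]
  exact h5

end Pool.Agent.Lib.MP_3e612f_nt.EM
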