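import Pool.Agent.Lib.MP_3e612f_nt.PI.Defs

/-!
EVERY MODULUS: the rigidity theorem `kl` of PI (files KLa, KLb, KLc) with an arbitrary step `T`
coprime to `p` in the place of `q ^ D` (in the application `T = Λ q^D`, `Λ` coprime to `q`).
The proofs are the ones of PI.
-/

set_option autoImplicit false

namespace Pool.Agent.Lib.MP_3e612f_nt.EM

private theorem klA_one {M T p r σp σr z : ℕ} (hp : 2 ≤ p) (hr : 0 < r) (hT : 0 < T)
    (h1 : 2 * p * r ≤ M) (h2 : 2 * p * T ≤ M) (h3 : 2 * r * T ≤ M) (hz : σp < z * M)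
    (hz2 : (z + 1) * M ≤ σp + (2 * T + 1) * M) :
    (∃ x, x < 3 * (M * T) ∧ (p * x + σp) / M = z ∧ (p * (x + T) + σp) / M = z + 1 ∧
      (r * (x + T) + σr) / M = (r * x + σr) / M) ∨
    ∃ Y w : ℕ, (z + 1) * M ≤ p * Y + σp ∧ p * Y + σp < (z + 1) * M + p ∧
      (w + 1) * M ≤ r * Y + σr ∧ r * Y + σr < (w + 1) * M + r := by
  have hM : 0 < M := lt_of_lt_of_le (by positivity) h1
  obtain ⟨A, hA⟩ : ∃ A, (z + 1) * M = σp + A := ⟨(z + 1) * M - σp, by
    have : z * M ≤ (z + 1) * M := Nat.mul_le_mul_right _ (Nat.le_succ z)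
    omega⟩
  have hAM : M < A := by
    have : (z + 1) * M = z * M + M := by ring
    omega
  set Y : ℕ := (A + p - 1) / p with hY
  have hp0 : 0 < p := by omega
  have hY1 : A ≤ p * Y := by
    have := Nat.div_add_mod (A + p - 1) p
    have h5 := Nat.mod_lt (A + p - 1) hp0
    rw [← hY] at this
    omega
  have hY2 : p * Y < A + p := by
    have := Nat.div_mul_le_self (A + p - 1) p
    rw [← hY, mul_comm] at this
    omega
  have hTY : T < Y := by
    by_contra hcon
    push Not at hcon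
    have h5 : p * Y ≤ p * T := Nat.mul_le_mul_left _ hcon
    have h6 : 2 * p * T = 2 * (p * T) := by ring
    have h7 : 0 < p * T := Nat.mul_pos hp0 hT
    omega
  obtain ⟨X, hX⟩ : ∃ X, X + T = Y := ⟨Y - T, by omega⟩
  have h2' : 2 * (p * T) ≤ M := by rw [← mul_assoc]; exact h2
  have h3' : 2 * (r * T) ≤ M := by rw [← mul_assoc]; exact h3
  have hTM : M ≤ M * T := Nat.le_mul_of_pos_right _ hT
  -- the values for `p`
  have hval : ∀ x, X ≤ x → x < Y → x < 3 * (M * T) ∧ (p * x + σp) / M = z ∧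
      (p * (x + T) + σp) / M = z + 1 := by
    intro x hx1 hx2
    have e1 : p * x + p ≤ p * Y := by
      have : p * (x + 1) ≤ p * Y := Nat.mul_le_mul_left _ hx2
      linarith [mul_add p x 1]
    have e2 : p * Y ≤ p * x + p * T := by
      rw [← mul_add]
      exact Nat.mul_le_mul_left _ (by omega)
    have e3 : (z + 1) * M = z * M + M := by ring
    have e4 : (z + 1 + 1) * M = z * M + M + M := by ring
    refine ⟨?_, ?_, ?_⟩
    · have e5 : 2 * x ≤ p * x := Nat.mul_le_mul_right _ hp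
      have e6 : A ≤ (2 * T + 1) * M := by omega
      have e7 : (2 * T + 1) * M = 2 * (M * T) + M := by ring
      omega
    · rw [Nat.div_eq_iff hM]
      rw [mul_comm z M] at e3 
      have e8 : z * M = M * z := mul_comm _ _
      constructor
      · omega
      · omega
    · rw [Nat.div_eq_iff hM]
      have e8 : p * (x + T) = p * x + p * T := by ring
      constructor
      · omega
      · omega
  by_cases hg1 : (r * (X + T) + σr) / M = (r * X + σr) / M
  · left
    obtain ⟨a1, a2, a3⟩ := hval X le_rfl (by omega)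
    exact ⟨X, a1, a2, a3, hg1⟩
  by_cases hg2 : (r * (Y - 1 + T) + σr) / M = (r * (Y - 1) + σr) / M
  · left
    obtain ⟨a1, a2, a3⟩ := hval (Y - 1) (by omega) (by omega)
    exact ⟨Y - 1, a1, a2, a3, hg2⟩
  right
  have hbad : ∀ x, (r * (x + T) + σr) / M ≠ (r * x + σr) / M →
      r * x + σr < ((r * x + σr) / M + 1) * M ∧
      ((r * x + σr) / M + 1) * M ≤ r * (x + T) + σr := by
    intro x hx
    constructor
    · exact Nat.lt_mul_of_div_lt (Nat.lt_succ_self _) hM
    · have h5 : (r * x + σr) / M ≤ (r * (x + T) + σr) / M :=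
        Nat.div_le_div_right (by
          have : r * x ≤ r * (x + T) := Nat.mul_le_mul_left _ (by omega)
          omega)
      have h6 : (r * x + σr) / M + 1 ≤ (r * (x + T) + σr) / M := by omega
      exact (Nat.le_div_iff_mul_le hM).1 h6
  obtain ⟨b1, b2⟩ := hbad X hg1
  obtain ⟨b3, b4⟩ := hbad (Y - 1) hg2
  set w : ℕ := (r * X + σr) / M with hw
  set w' : ℕ := (r * (Y - 1) + σr) / M with hw'
  have hrY : r * (Y - 1) + r = r * Y := by
    have : Y = (Y - 1) + 1 := by omega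
    conv_rhs => rw [this]
    ring
  have hrX : r * X + r * T = r * Y := by rw [← hX]; ring
  have hrYT : r * (Y - 1 + T) + r = r * Y + r * T := by
    have : r * (Y - 1 + T) + r = (r * (Y - 1) + r) + r * T := by ring
    rw [this, hrY]
  have hrM : r < M := by
    have : 2 * p * r = p * r + p * r := by ring
    have h6 : 2 * r ≤ p * r := Nat.mul_le_mul_right _ hp
    omega
  rw [hX] at b2
  have hww : w = w' := by
    rcases lt_trichotomy w w' with h5 | h5 | h5
    · exfalso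
      have h6 : (w + 1) * M + M ≤ (w' + 1) * M := by
        have : (w + 1 + 1) * M ≤ (w' + 1) * M := Nat.mul_le_mul_right _ (by omega)
        linarith [add_mul (w + 1) 1 M]
      omega
    · exact h5
    · exfalso
      have h6 : (w' + 1) * M + M ≤ (w + 1) * M := by
        have : (w' + 1 + 1) * M ≤ (w + 1) * M := Nat.mul_le_mul_right _ (by omega)
        linarith [add_mul (w' + 1) 1 M]
      omega
  refine ⟨Y, w, by omega, by omega, b2, ?_⟩
  rw [← hww] at b3
  omega

theorem exists_jumpT {p r M T : ℕ} (hp : p.Prime) (hpT : p.Coprime T) (hpr : p.Coprime r)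
    (hr : 0 < r) (hT : 0 < T) (hb1 : 2 * p * r ≤ M) (hb2 : 2 * p * T ≤ M) (hb3 : 2 * r * T ≤ M)
    (σp σr c : ℕ) (hc : c < T) :
    ∃ x z : ℕ, x < 3 * (M * T) ∧ z % T = c ∧ (p * x + σp) / M = z ∧
      (p * (x + T) + σp) / M = z + 1 ∧ (r * (x + T) + σr) / M = (r * x + σr) / M := by
  have hM : 0 < M := lt_of_lt_of_le (by have := hp.pos; positivity) hb1
  -- the first admissible `z`
  obtain ⟨z1, hz1, hz1', hz1c⟩ : ∃ z1, σp / M + 1 ≤ z1 ∧ z1 < σp / M + 1 + T ∧ z1 % T = c := by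
    set s0 := σp / M + 1 with hs0
    rcases le_or_gt (s0 % T) c with h | h
    · refine ⟨s0 + (c - s0 % T), by omega, by
        have := Nat.mod_lt s0 hT
        omega, ?_⟩
      have e : s0 + (c - s0 % T) = c + T * (s0 / T) := by
        have := Nat.mod_add_div s0 T
        omega
      rw [e, Nat.add_mul_mod_self_left, Nat.mod_eq_of_lt hc]
    · have hlt := Nat.mod_lt s0 hT
      refine ⟨s0 + (c + T - s0 % T), by omega, by omega, ?_⟩
      have e : s0 + (c + T - s0 % T) = c + T * (s0 / T + 1) := by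
        have := Nat.mod_add_div s0 T
        rw [mul_add, mul_one]
        omega
      rw [e, Nat.add_mul_mod_self_left, Nat.mod_eq_of_lt hc]
  have hmod := Nat.div_add_mod σp M
  have hmodlt := Nat.mod_lt σp hM
  have hdiv : σp / M * M ≤ σp := Nat.div_mul_le_self σp M
  have hsum : ∀ z, σp / M + 1 ≤ z → z ≤ σp / M + 2 * T →
      σp < z * M ∧ (z + 1) * M ≤ σp + (2 * T + 1) * M := by
    intro z h1 h2
    constructor
    · have h3 : (σp / M + 1) * M ≤ z * M := Nat.mul_le_mul_right _ h1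
      have h4 : (σp / M + 1) * M = M * (σp / M) + M := by ring
      omega
    · have h3 : (z + 1) * M ≤ (σp / M + 2 * T + 1) * M := Nat.mul_le_mul_right _ (by omega)
      have h4 : (σp / M + 2 * T + 1) * M = σp / M * M + (2 * T + 1) * M := by ring
      omega
  have hp2 := hp.two_le
  obtain ⟨a1, a2⟩ := hsum z1 hz1 (by omega)
  obtain ⟨a3, a4⟩ := hsum (z1 + T) (by omega) (by omega)
  rcases klA_one (σr := σr) hp2 hr hT hb1 hb2 hb3 a1 a2 with ⟨x, h1, h2, h3, h4⟩ | ⟨Y, w, c1, c2, c3, c4⟩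
  · exact ⟨x, z1, h1, hz1c, h2, h3, h4⟩
  rcases klA_one (σr := σr) hp2 hr hT hb1 hb2 hb3 a3 a4 with
    ⟨x, h1, h2, h3, h4⟩ | ⟨Y', w', d1, d2, d3, d4⟩
  · refine ⟨x, z1 + T, h1, ?_, h2, h3, h4⟩
    rw [Nat.add_mod_right]
    exact hz1c
  -- contradiction
  exfalso
  zify at c1 c2 c3 c4 d1 d2 d3 d4 hb1 hp2 hr
  have hpz : (0 : ℤ) < p := by omega
  have hrz : (0 : ℤ) < r := hr
  -- the combination for `z1`
  have k1 : (p : ℤ) * (r * Y + σr - (w + 1) * M) < p * r :=
    mul_lt_mul_of_pos_left (by linarith) hpz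
  have k2 : 0 ≤ (p : ℤ) * (r * Y + σr - (w + 1) * M) := mul_nonneg hpz.le (by linarith)
  have k3 : (r : ℤ) * (p * Y + σp - (z1 + 1) * M) < r * p :=
    mul_lt_mul_of_pos_left (by linarith) hrz
  have k4 : 0 ≤ (r : ℤ) * (p * Y + σp - (z1 + 1) * M) := mul_nonneg hrz.le (by linarith)
  have l1 : (p : ℤ) * (r * Y' + σr - (w' + 1) * M) < p * r :=
    mul_lt_mul_of_pos_left (by linarith) hpz
  have l2 : 0 ≤ (p : ℤ) * (r * Y' + σr - (w' + 1) * M) := mul_nonneg hpz.le (by linarith)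
  have l3 : (r : ℤ) * (p * Y' + σp - (z1 + T + 1) * M) < r * p :=
    mul_lt_mul_of_pos_left (by linarith) hrz
  have l4 : 0 ≤ (r : ℤ) * (p * Y' + σp - (z1 + T + 1) * M) := mul_nonneg hrz.le (by linarith)
  have hdiff : (M : ℤ) * (r * T - p * (w' - w)) =
      ((p : ℤ) * (r * Y' + σr - (w' + 1) * M) - r * (p * Y' + σp - (z1 + T + 1) * M)) -
      ((p : ℤ) * (r * Y + σr - (w + 1) * M) - r * (p * Y + σp - (z1 + 1) * M)) := by ring
  have hpr2 : (p : ℤ) * r = r * p := mul_comm _ _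
  have hb1' : 2 * ((p : ℤ) * r) ≤ M := by linarith
  have hlt1 : (M : ℤ) * (r * T - p * (w' - w)) < M := by linarith
  have hlt2 : -(M : ℤ) < (M : ℤ) * (r * T - p * (w' - w)) := by linarith
  have hMz : (0 : ℤ) < M := by exact_mod_cast hM
  have hzero : (r : ℤ) * T - p * (w' - w) = 0 := by
    have u1 : (r : ℤ) * T - p * (w' - w) < 1 := by
      by_contra hcon
      push Not at hcon
      nlinarith
    have u2 : -1 < (r : ℤ) * T - p * (w' - w) := by
      by_contra hcon
      push Not at hcon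
      nlinarith
    omega
  have hdvd : (p : ℤ) ∣ ((r * T : ℕ) : ℤ) := ⟨(w' : ℤ) - w, by push_cast; linarith⟩
  have hdvd' : p ∣ r * T := by exact_mod_cast hdvd
  rcases (Nat.Prime.dvd_mul hp).1 hdvd' with h | h
  · have := Nat.Coprime.eq_one_of_dvd hpr h
    omega
  · have := Nat.Coprime.eq_one_of_dvd hpT h
    omega


variable {G : Type} [AddCommGroup G]

/-- sums of functions of the windows `⌊u / q^i⌋ mod (q T)` -/
def SplitT (q T : ℕ) (L : ℕ → G) : Prop :=
  ∀ b : ℕ, ∃ A C : ℕ → G, ∀ u, L u = A (u % (q ^ b * T)) + C (u / q ^ b)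

theorem delta_shiftT {q p r T b : ℕ} (hq0 : 0 < q) {Lp Lr : ℕ → G} (hLp : SplitT q T Lp)
    (hLr : SplitT q T Lr) {σp σr H : ℕ}
    (hK : ∀ x < H, Lp (p * (x + T) + σp) + Lr (r * (x + T) + σr) =
      Lp (p * x + σp) + Lr (r * x + σr))
    {x z : ℕ} (h1 : (p * x + σp) / q ^ b = z) (h2 : (p * (x + T) + σp) / q ^ b = z + 1)
    (h3 : (r * (x + T) + σr) / q ^ b = (r * x + σr) / q ^ b)
    (i : ℕ) (hi : x + i * (q ^ b * T) < H) :
    Lp (q ^ b * (z + i * (p * T) + 1)) - Lp (q ^ b * (z + i * (p * T))) =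
      Lp (q ^ b * (z + 1)) - Lp (q ^ b * z) := by
  have hqb : 0 < q ^ b := pow_pos hq0 b
  obtain ⟨A, C, hA⟩ := hLp b
  obtain ⟨A', C', hA'⟩ := hLr b
  have hx := hK x (lt_of_le_of_lt (Nat.le_add_right _ _) hi)
  have hx' := hK _ hi
  have smod : ∀ t y : ℕ, (y + t * (i * (q ^ b * T))) % (q ^ b * T) = y % (q ^ b * T) := by
    intro t y
    rw [← mul_assoc, Nat.add_mul_mod_self_right]
  have sdiv : ∀ t y : ℕ, (y + t * (i * (q ^ b * T))) / q ^ b = y / q ^ b + i * (t * T) := by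
    intro t y
    have : t * (i * (q ^ b * T)) = i * (t * T) * q ^ b := by ring
    rw [this, Nat.add_mul_div_right _ _ hqb]
  have e1 : p * (x + i * (q ^ b * T) + T) + σp = (p * (x + T) + σp) + p * (i * (q ^ b * T)) := by
    ring
  have e2 : r * (x + i * (q ^ b * T) + T) + σr = (r * (x + T) + σr) + r * (i * (q ^ b * T)) := by
    ring
  have e3 : p * (x + i * (q ^ b * T)) + σp = (p * x + σp) + p * (i * (q ^ b * T)) := by ring
  have e4 : r * (x + i * (q ^ b * T)) + σr = (r * x + σr) + r * (i * (q ^ b * T)) := by ring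
  rw [e1, e2, e3, e4] at hx'
  rw [hA, hA', hA (p * x + σp), hA' (r * x + σr), h1, h2, h3] at hx
  rw [hA, hA', hA ((p * x + σp) + _), hA' ((r * x + σr) + _)] at hx'
  rw [smod, smod, smod, smod, sdiv, sdiv, sdiv, sdiv, h1, h2, h3] at hx'
  have key : C (z + 1 + i * (p * T)) - C (z + i * (p * T)) = C (z + 1) - C z := by
    have h5 := congrArg₂ (fun a b => a - b) hx' hx
    have h6 : C (z + 1 + i * (p * T)) - C (z + 1) = C (z + i * (p * T)) - C z := by
      have l1 : ∀ a c c' d e e' : G, a + c + (d + e) - (a + c' + (d + e')) = (c - c') + (e - e') := by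
        intro a c c' d e e'; abel
      rw [l1, l1] at h5
      exact add_right_cancel h5
    have : C (z + 1 + i * (p * T)) = C (z + i * (p * T)) - C z + C (z + 1) := by
      rw [← h6]; abel
    rw [this]; abel
  have m1 : ∀ w, Lp (q ^ b * w) = A (q ^ b * (w % T)) + C w := by
    intro w
    rw [hA, Nat.mul_mod_mul_left, Nat.mul_div_cancel_left _ hqb]
  have m2 : ∀ w, (w + i * (p * T)) % T = w % T := by
    intro w
    rw [← mul_assoc, Nat.add_mul_mod_self_right]
  have e5 : z + i * (p * T) + 1 = z + 1 + i * (p * T) := by ring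
  rw [e5, m1, m1, m1, m1, m2, m2]
  have : ∀ a b c d : G, a + c - (b + d) = (a - b) + (c - d) := by intro a b c d; abel
  rw [this, this, key]

theorem delta_localT {q T b : ℕ} (hq : 2 ≤ q) {L : ℕ → G} (hL : SplitT q T L) {j z z' : ℕ}
    (hz : (z + 1) / q ^ j = z / q ^ j)
    (hzz : z % (q ^ j * T) = z' % (q ^ j * T)) :
    L (q ^ b * (z + 1)) - L (q ^ b * z) = L (q ^ b * (z' + 1)) - L (q ^ b * z') := by
  have hq0 : 0 < q := by omega
  have hqb : 0 < q ^ b := pow_pos hq0 b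
  obtain ⟨A, C, hA⟩ := hL (b + j)
  have m1 : ∀ w, L (q ^ b * w) = A (q ^ b * (w % (q ^ j * T))) + C (w / q ^ j) := by
    intro w
    rw [hA, pow_add, mul_assoc, Nat.mul_mod_mul_left, Nat.mul_div_mul_left _ _ hqb]
  have hzz1 : (z + 1) % (q ^ j * T) = (z' + 1) % (q ^ j * T) :=
    Nat.ModEq.add_right 1 hzz
  have hmod : z % q ^ j = z' % q ^ j := by
    have hd : q ^ j ∣ q ^ j * T := Dvd.intro _ rfl
    exact Nat.ModEq.of_dvd hd hzz
  have hz' : (z' + 1) / q ^ j = z' / q ^ j := by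
    rw [Nat.succ_div] at hz ⊢
    have hn : ¬ q ^ j ∣ z + 1 := by
      intro h
      rw [if_pos h] at hz
      omega
    have hn' : ¬ q ^ j ∣ z' + 1 := by
      intro h
      apply hn
      have h1 : (z + 1) % q ^ j = (z' + 1) % q ^ j := Nat.ModEq.add_right 1 hmod
      exact Nat.dvd_of_mod_eq_zero (h1.trans (Nat.mod_eq_zero_of_dvd h))
    rw [if_neg hn']; rfl
  rw [m1, m1, m1, m1, hz, hz', hzz, hzz1]
  abel

private theorem klC_sum_shift (f : ℕ → G) {T : ℕ} (a : ℕ) :
    ∑ i ∈ Finset.range T, f ((a + i) % T) = ∑ i ∈ Finset.range T, f i := by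
  induction a with
  | zero =>
    apply Finset.sum_congr rfl
    intro i hi
    rw [Nat.zero_add, Nat.mod_eq_of_lt (Finset.mem_range.1 hi)]
  | succ a ih =>
    rw [← ih]
    have h1 := Finset.sum_range_succ (fun i => f ((a + i) % T)) T
    have h2 := Finset.sum_range_succ' (fun i => f ((a + i) % T)) T
    rw [h1] at h2
    simp only [Nat.add_mod_right, Nat.add_zero] at h2
    have h3 := add_right_cancel h2
    rw [h3]
    apply Finset.sum_congr rfl
    intro i _
    rw [show a + 1 + i = a + (i + 1) by ring]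

private theorem klC_sum_period (f : ℕ → G) {T : ℕ} (n a : ℕ) :
    ∑ i ∈ Finset.range (n * T), f ((a + i) % T) = n • ∑ i ∈ Finset.range T, f i := by
  induction n with
  | zero => simp
  | succ n ih =>
    rw [Nat.add_mul, Nat.one_mul, Finset.sum_range_add, ih, add_smul, one_smul]
    congr 1
    rw [← klC_sum_shift f a]
    apply Finset.sum_congr rfl
    intro i _
    rw [show a + (n * T + i) = a + i + n * T by ring, Nat.add_mul_mod_self_right]

private theorem klC_exists {p T N : ℕ} (hN : p.Coprime N) (hN0 : 0 < N) {z z' : ℕ}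
    (h : z' % T = z % T) :
    ∃ i < N, z % (N * T) = (z' + i * (p * T)) % (N * T) := by
  have hd : ((T : ℕ) : ℤ) ∣ (z : ℤ) - z' := by
    have := (Nat.modEq_iff_dvd (n := T) (a := z') (b := z)).1 h
    exact this
  obtain ⟨w, hw⟩ := hd
  have : NeZero N := ⟨hN0.ne'⟩
  refine ⟨((w : ZMod N) * ((p : ZMod N))⁻¹).val, ZMod.val_lt _, ?_⟩
  set i := ((w : ZMod N) * ((p : ZMod N))⁻¹).val with hi
  have h1 : ((i : ℕ) : ZMod N) = (w : ZMod N) * ((p : ZMod N))⁻¹ := by
    rw [hi, ZMod.natCast_zmod_val]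
  have h2 : ((i : ℕ) : ZMod N) * (p : ZMod N) = (w : ZMod N) := by
    rw [h1, mul_assoc, mul_comm (p : ZMod N)⁻¹, ZMod.coe_mul_inv_eq_one p hN, mul_one]
  have h3 : (N : ℤ) ∣ (i : ℤ) * p - w := by
    rw [← ZMod.intCast_zmod_eq_zero_iff_dvd]
    push_cast
    rw [h2, sub_self]
  have h4 : ((N * T : ℕ) : ℤ) ∣ ((z' + i * (p * T) : ℕ) : ℤ) - (z : ℤ) := by
    obtain ⟨m, hm⟩ := h3
    refine ⟨m, ?_⟩
    push_cast at hw ⊢
    have : (z : ℤ) = z' + T * w := by linarith
    rw [this]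
    linear_combination (T : ℤ) * hm
  exact (Nat.modEq_iff_dvd (n := N * T) (a := z) (b := z' + i * (p * T))).2 h4

/-- **Rigidity with step `T`.** No carry beyond `b + J` is allowed in the conclusion. -/
theorem klT {q p r T b κ h : ℕ} (hq : 2 ≤ q) (hp : p.Prime) (hpq : p.Coprime q)
    (hpT : p.Coprime T) (hpr : p.Coprime r) (hr : 0 < r) (hT : 0 < T) (hTh : T ≤ q ^ h)
    (hb1 : 2 * p * r ≤ q ^ b) (hb2 : 2 * p * T ≤ q ^ b) (hb3 : 2 * r * T ≤ q ^ b)
    {Lp Lr : ℕ → G} (hLp : SplitT q T Lp) (hLr : SplitT q T Lr)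
    {σp σr H : ℕ} (hH : q ^ (b + κ + 2 * h + 2) ≤ H)
    (hK : ∀ x < H, Lp (p * (x + T) + σp) + Lr (r * (x + T) + σr) =
      Lp (p * x + σp) + Lr (r * x + σr)) :
    ∃ g : G, ∀ B J : ℕ, J ≤ κ → ∀ u : ℕ,
      (u + q ^ b * (B * T)) / q ^ (b + J) = u / q ^ (b + J) →
      Lp (u + q ^ b * (B * T)) - Lp u = B • g := by
  classical
  have hq0 : 0 < q := by omega
  have hqb : 0 < q ^ b := pow_pos hq0 b
  choose! xc zcc hx hzc h1 h2 h3 using
    fun c (hc : c < T) => exists_jumpT hp hpT hpr hr hT hb1 hb2 hb3 σp σr c hc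
  set δ : ℕ → G := fun z => Lp (q ^ b * (z + 1)) - Lp (q ^ b * z) with hδ
  -- step one
  have step1 : ∀ j ≤ κ + h, ∀ z : ℕ, (z + 1) / q ^ j = z / q ^ j →
      δ z = δ (zcc (z % T)) := by
    intro j hj z hz
    have hc : z % T < T := Nat.mod_lt _ hT
    set c := z % T with hcdef
    have hcop : p.Coprime (q ^ j) := Nat.Coprime.pow_right _ hpq
    obtain ⟨i, hi, hmod⟩ := klC_exists (T := T) hcop (by positivity) (z := z) (z' := zcc c)
      (by rw [hzc c hc])
    have hloc := delta_localT (b := b) hq hLp hz hmod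
    have hiH : xc c + i * (q ^ b * T) < H := by
      have e1 : i + 1 ≤ q ^ (κ + h) :=
        le_trans hi (Nat.pow_le_pow_right hq0 (by omega))
      have e2 : 3 + q ^ (κ + h) ≤ q ^ (κ + h + 2) := by
        have : q ^ (κ + h + 2) = q ^ (κ + h) * (q * q) := by ring
        rw [this]
        have hqq : 4 ≤ q * q := Nat.mul_le_mul hq hq
        have h5 : 1 ≤ q ^ (κ + h) := Nat.one_le_pow _ _ hq0
        nlinarith
      have e3 : q ^ (b + κ + 2 * h + 2) = q ^ (κ + h + 2) * (q ^ b * q ^ h) := by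
        rw [← pow_add, ← pow_add]; congr 1; ring
      have e4 : 0 < q ^ b * T := by positivity
      have e5 := hx c hc
      have e6 : (3 + i) * (q ^ b * T) ≤ q ^ (κ + h + 2) * (q ^ b * q ^ h) :=
        Nat.mul_le_mul (by omega) (Nat.mul_le_mul_left _ hTh)
      have e7 : (3 + i) * (q ^ b * T) = 3 * (q ^ b * T) + i * (q ^ b * T) := by ring
      omega
    have hsh := delta_shiftT hq0 hLp hLr hK (h1 c hc) (h2 c hc) (h3 c hc) i hiH
    show Lp (q ^ b * (z + 1)) - Lp (q ^ b * z) =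
      Lp (q ^ b * (zcc c + 1)) - Lp (q ^ b * zcc c)
    rw [hloc, hsh]
  refine ⟨∑ c ∈ Finset.range T, δ (zcc c), ?_⟩
  intro B₀ J hJ u hu
  set z := u / q ^ b with hz
  set B := B₀ * T with hB
  have q1 : (z + B) / q ^ J = z / q ^ J := by
    rw [pow_add, ← Nat.div_div_eq_div_mul, ← Nat.div_div_eq_div_mul,
      Nat.add_mul_div_left _ _ hqb] at hu
    exact hu
  -- reduction to q^b z
  obtain ⟨A, C, hAC⟩ := hLp b
  have r1 : Lp (u + q ^ b * B) - Lp u = C (z + B) - C z := by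
    rw [hAC, hAC u]
    have e1 : (u + q ^ b * B) % (q ^ b * T) = u % (q ^ b * T) := by
      rw [show q ^ b * B = (q ^ b * T) * B₀ by rw [hB]; ring, Nat.add_mul_mod_self_left]
    have e2 : (u + q ^ b * B) / q ^ b = z + B := by
      rw [Nat.add_mul_div_left _ _ hqb]
    rw [e1, e2]
    abel
  have r2 : Lp (q ^ b * (z + B)) - Lp (q ^ b * z) = C (z + B) - C z := by
    rw [hAC, hAC (q ^ b * z)]
    have e1 : q ^ b * (z + B) % (q ^ b * T) = q ^ b * z % (q ^ b * T) := by
      rw [Nat.mul_mod_mul_left, Nat.mul_mod_mul_left]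
      congr 1
      rw [hB, Nat.add_mul_mod_self_right]
    rw [e1, Nat.mul_div_cancel_left _ hqb, Nat.mul_div_cancel_left _ hqb]
    abel
  -- reduction to z'
  set N := q ^ J * T with hN
  have hN0 : 0 < N := by positivity
  set z' := z % N with hz'
  have hz'N : z' < N := Nat.mod_lt _ hN0
  have hmodJ : z' % q ^ J = z % q ^ J := by
    rw [hz', hN]
    exact Nat.mod_mul_right_mod _ _ _
  have hqJ : 0 < q ^ J := pow_pos hq0 J
  -- no carry
  have hnc : ∀ w : ℕ, (w + B) / q ^ J = w / q ^ J ↔ w % q ^ J + B < q ^ J := by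
    intro w
    have e := Nat.div_add_mod w (q ^ J)
    constructor
    · intro h5
      have e1 := Nat.div_add_mod (w + B) (q ^ J)
      have e2 := Nat.mod_lt (w + B) hqJ
      rw [h5] at e1
      omega
    · intro h5
      have e1 : w + B = q ^ J * (w / q ^ J) + (w % q ^ J + B) := by omega
      rw [e1, Nat.mul_add_div hqJ, Nat.div_eq_of_lt h5, Nat.add_zero]
  have q2 : (z' + B) / q ^ J = z' / q ^ J := by
    rw [hnc, hmodJ, ← hnc]; exact q1
  have hover : z' + B < N := by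
    have e1 : (z' + B) / q ^ J < T := by
      rw [q2]
      exact Nat.div_lt_of_lt_mul hz'N
    rw [Nat.div_lt_iff_lt_mul hqJ] at e1
    rw [hN, mul_comm]
    exact e1
  obtain ⟨A', C', hAC'⟩ := hLp (b + J)
  have key : ∀ w : ℕ, Lp (q ^ b * w) = A' (q ^ b * (w % N)) + C' (w / q ^ J) := by
    intro w
    rw [hAC', pow_add, mul_assoc, Nat.mul_mod_mul_left, Nat.mul_div_mul_left _ _ hqb]
  have r3 : Lp (q ^ b * (z + B)) - Lp (q ^ b * z) = Lp (q ^ b * (z' + B)) - Lp (q ^ b * z') := by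
    rw [key (z + B), key z, key (z' + B), key z', q1, q2]
    have e1 : (z + B) % N = z' + B := by
      rw [← Nat.mod_add_mod, ← hz', Nat.mod_eq_of_lt hover]
    have e2 : (z' + B) % N = z' + B := Nat.mod_eq_of_lt hover
    have e3 : z' % N = z' := Nat.mod_eq_of_lt hz'N
    rw [e1, e2, e3, ← hz']
    abel
  -- telescoping
  have tele : ∀ n : ℕ, Lp (q ^ b * (z' + n)) - Lp (q ^ b * z') =
      ∑ i ∈ Finset.range n, δ (z' + i) := by
    intro n
    induction n with
    | zero => simp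
    | succ n ih =>
      rw [Finset.sum_range_succ, ← ih, hδ]
      simp only
      rw [show z' + (n + 1) = z' + n + 1 by ring]
      abel
  have hNk : N ≤ q ^ (κ + h) := by
    rw [pow_add]
    exact Nat.mul_le_mul (Nat.pow_le_pow_right hq0 hJ) hTh
  have hsum : ∑ i ∈ Finset.range B, δ (z' + i) =
      ∑ i ∈ Finset.range B, δ (zcc ((z' + i) % T)) := by
    apply Finset.sum_congr rfl
    intro i hi
    have hi' := Finset.mem_range.1 hi
    apply step1 (κ + h) le_rfl
    rw [Nat.div_eq_of_lt (by omega), Nat.div_eq_of_lt (by omega)]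
  rw [r1, ← r2, r3, tele, hsum, hB]
  exact klC_sum_period (fun c => δ (zcc c)) B₀ z'

/-- **The kernel.** In a group killed by `ℓ`, a content `c` at the digits `≥ b` may be replaced by
`c % (ℓ T)`. -/
theorem klT_mod {q p r T b κ h : ℕ} (hq : 2 ≤ q) (hp : p.Prime) (hpq : p.Coprime q)
    (hpT : p.Coprime T) (hpr : p.Coprime r) (hr : 0 < r) (hT : 0 < T) (hTh : T ≤ q ^ h)
    (hb1 : 2 * p * r ≤ q ^ b) (hb2 : 2 * p * T ≤ q ^ b) (hb3 : 2 * r * T ≤ q ^ b)
    {Lp Lr : ℕ → G} (hLp : SplitT q T Lp) (hLr : SplitT q T Lr)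
    {σp σr H : ℕ} (hH : q ^ (b + κ + 2 * h + 2) ≤ H)
    (hK : ∀ x < H, Lp (p * (x + T) + σp) + Lr (r * (x + T) + σr) =
      Lp (p * x + σp) + Lr (r * x + σr))
    {ℓ : ℕ} (hl : ∀ y : G, ℓ • y = 0) {c : ℕ} (hc : c < q ^ κ) :
    Lp (q ^ b * c) = Lp (q ^ b * (c % (ℓ * T))) := by
  obtain ⟨g, hg⟩ := klT hq hp hpq hpT hpr hr hT hTh hb1 hb2 hb3 hLp hLr hH hK
  have hq0 : 0 < q := by omega
  have hqb : 0 < q ^ b := pow_pos hq0 b
  have e : c % (ℓ * T) + (ℓ * (c / (ℓ * T))) * T = c := by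
    have := Nat.mod_add_div c (ℓ * T)
    calc c % (ℓ * T) + (ℓ * (c / (ℓ * T))) * T = c % (ℓ * T) + ℓ * T * (c / (ℓ * T)) := by ring
      _ = c := this
  have hle : c % (ℓ * T) ≤ c := Nat.mod_le _ _
  have h1 := hg (ℓ * (c / (ℓ * T))) κ le_rfl (q ^ b * (c % (ℓ * T))) (by
    rw [← mul_add, e, pow_add, Nat.mul_div_mul_left _ _ hqb, Nat.mul_div_mul_left _ _ hqb,
      Nat.div_eq_of_lt hc, Nat.div_eq_of_lt (lt_of_le_of_lt hle hc)])
  rw [← mul_add, e, mul_smul, hl, sub_eq_zero] at h1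
  exact h1

end Pool.Agent.Lib.MP_3e612f_nt.EM
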