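import Pool.Agent.Lib.MP_3e612f_nt.DI.Alt
import Pool.Agent.Lib.MP_3e612f_nt.DI.BMul
import Pool.Agent.Lib.MP_3e612f_nt.EM.Defs
import Pool.Agent.Lib.MP_3e612f_nt.EM.KL

/-!
Rigidity at level `T`, dual form (T-form of DI/G/Rig and of DI/Trf): for a letter `y` of level
`T' = ℓ T`, `(xi y, 0)` is in the span of the gadget vectors of level `T`, for EVERY prime `ℓ`
(OWNER helper31).

`blkV e U = ∑_{k < l} e (k, U / q ^ k % (q T))`. By `klT_mod` the classes of `blkV e (q ^ b c)` and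
`blkV e (q ^ b (c % (ℓ T)))` modulo the span of the gadget vectors are equal, and the difference of the
two is `xi y` (`y` at the position `b` of the block): the letters below `b` cancel.
-/

set_option autoImplicit false

namespace Pool.Agent.Lib.MP_3e612f_nt.EM

open Finset
open Pool.Agent.Lib.MP_3e612f_nt.PI (ee mc sg)
open Pool.Agent.Lib.MP_3e612f_nt.DI (MAdd mlt emb Tm pt av pr vec bi bi_restrict)

section
variable {V : Type} [AddCommGroup V]

/-- the sum of the vectors of the letters of the block content `U` -/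
def blkV (q T l : ℕ) (e : ℕ × ℕ → V) (U : ℕ) : V :=
  ∑ k ∈ range l, e (k, U / q ^ k % (q * T))

/-- the vector of the gadget `o` for `t * n + u` -/
def gvV (q T g l : ℕ) (z0 x0 : ℕ → ℕ → ℕ) (s s' u t : ℕ) (e : ℕ × ℕ → V) (o : ℕ × ℕ) : V :=
  blkV q T l e (uT q T g l z0 x0 s s' u t o + t * T) - blkV q T l e (uT q T g l z0 x0 s s' u t o)

theorem letter_mod {q T l k U : ℕ} (hk : k < l) :
    U / q ^ k % (q * T) = U % (q ^ l * T) / q ^ k % (q * T) := by
  have h := letter_cell (q := q) (T := T) (l := l) (A := 0) (k := k) (m := U) hk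
  rwa [zero_add, pow_zero, Nat.div_one] at h

/-- block vectors only depend on the content modulo `q ^ l * T` -/
theorem blkV_congr {q T l : ℕ} (e : ℕ × ℕ → V) {U U' : ℕ}
    (h : U % (q ^ l * T) = U' % (q ^ l * T)) : blkV q T l e U = blkV q T l e U' := by
  unfold blkV
  refine Finset.sum_congr rfl fun k hk => ?_
  rw [letter_mod (mem_range.1 hk), h, ← letter_mod (mem_range.1 hk)]

theorem SplitT.sum {G : Type} [AddCommGroup G] {q T : ℕ} {ι : Type} (s : Finset ι)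
    {f : ι → ℕ → G} (h : ∀ i ∈ s, SplitT q T (f i)) : SplitT q T fun u => ∑ i ∈ s, f i u := by
  intro b
  classical
  choose! A C hA using fun i (hi : i ∈ s) => h i hi b
  refine ⟨fun w => ∑ i ∈ s, A i w, fun w => ∑ i ∈ s, C i w, fun u => ?_⟩
  rw [← Finset.sum_add_distrib]
  exact Finset.sum_congr rfl fun i hi => hA i hi u

theorem splitT_letter {G : Type} [AddCommGroup G] {q T : ℕ} (k : ℕ) (F : ℕ → G) :
    SplitT q T fun u => F (u / q ^ k % (q * T)) := by
  intro b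
  rcases Nat.lt_or_ge k b with h | h
  · refine ⟨fun w => F (w / q ^ k % (q * T)), fun _ => 0, fun u => ?_⟩
    show F (u / q ^ k % (q * T)) = F (u % (q ^ b * T) / q ^ k % (q * T)) + 0
    rw [add_zero, ← letter_mod h]
  · obtain ⟨j, rfl⟩ := Nat.exists_eq_add_of_le h
    refine ⟨fun _ => 0, fun w => F (w / q ^ j % (q * T)), fun u => ?_⟩
    show F (u / q ^ (b + j) % (q * T)) = 0 + F (u / q ^ b / q ^ j % (q * T))
    rw [zero_add, Nat.div_div_eq_div_mul, ← pow_add]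

/-- block vectors are split functions of the content -/
theorem split_blkV {W : Type} [AddCommGroup W] {q T l : ℕ} (e : ℕ × ℕ → V) (f : V →+ W) :
    SplitT q T (fun u => f (blkV q T l e u)) := by
  have h := SplitT.sum (G := W) (q := q) (T := T) (range l)
    (f := fun k u => f (e (k, u / q ^ k % (q * T))))
    (fun k _ => splitT_letter k fun w => f (e (k, w)))
  have e1 : (fun u => f (blkV q T l e u)) = fun u =>
      ∑ k ∈ range l, f (e (k, u / q ^ k % (q * T))) := by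
    funext u
    unfold blkV
    rw [map_sum]
  rw [e1]
  exact h

/-- the class of the content `q ^ b * c` does not change if `c` is replaced by `c % (ℓ T)` -/
theorem rig_span {ℓ : ℕ} [Module (ZMod ℓ) V] {q p r T b κ h g l H : ℕ} {z0 x0 : ℕ → ℕ → ℕ}
    (hq : 2 ≤ q) (hp : p.Prime) (hpq : p.Coprime q) (hpT : p.Coprime T) (hpr : p.Coprime r)
    (hr : 0 < r) (hT : 0 < T) (hTh : T ≤ q ^ h)
    (hb1 : 2 * p * r ≤ q ^ b) (hb2 : 2 * p * T ≤ q ^ b) (hb3 : 2 * r * T ≤ q ^ b)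
    (hH : q ^ (b + κ + 2 * h + 2) ≤ H)
    (s s' a : ℕ) (e e' : ℕ × ℕ → V) {c : ℕ} (hc : c < q ^ κ) :
    blkV q T l e (q ^ b * c) - blkV q T l e (q ^ b * (c % (ℓ * T))) ∈
      Submodule.span (ZMod ℓ) (Set.range fun lam : Fin H =>
        gvV q T g l z0 x0 s s' s p e (a, lam) + gvV q T g l z0 x0 s s' s' r e' (a, lam)) := by
  set S := Submodule.span (ZMod ℓ) (Set.range fun lam : Fin H =>
        gvV q T g l z0 x0 s s' s p e (a, lam) + gvV q T g l z0 x0 s s' s' r e' (a, lam)) with hS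
  let π : V →+ V ⧸ S := S.mkQ.toAddMonoidHom
  have hπ : ∀ v ∈ S, π v = 0 := fun v hv => (Submodule.Quotient.mk_eq_zero S).2 hv
  have hπ' : ∀ v, π v = 0 → v ∈ S := fun v hv => (Submodule.Quotient.mk_eq_zero S).1 hv
  set X := x0 (sT q T g l s a) (sT q T g l s' a) with hX
  set Z := z0 (sT q T g l s a) (sT q T g l s' a) with hZ
  -- the contents
  have hu : ∀ (t u x : ℕ) (e : ℕ × ℕ → V),
      blkV q T l e (t * x + (t * X + sg q g t Z (sT q T g l u a))) =
        blkV q T l e (uT q T g l z0 x0 s s' u t (a, x)) := by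
    intro t u x e
    apply blkV_congr
    show _ = ((t * (X + x) + sg q g t Z (sT q T g l u a)) % (q ^ l * T)) % (q ^ l * T)
    rw [Nat.mod_mod]
    congr 1
    ring
  have hu' : ∀ (t u x : ℕ) (e : ℕ × ℕ → V),
      blkV q T l e (t * (x + T) + (t * X + sg q g t Z (sT q T g l u a))) =
        blkV q T l e (uT q T g l z0 x0 s s' u t (a, x) + t * T) := by
    intro t u x e
    apply blkV_congr
    show _ = ((t * (X + x) + sg q g t Z (sT q T g l u a)) % (q ^ l * T) + t * T) % (q ^ l * T)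
    rw [Nat.mod_add_mod]
    congr 1
    ring
  have hK : ∀ x < H,
      π (blkV q T l e (p * (x + T) + (p * X + sg q g p Z (sT q T g l s a)))) +
      π (blkV q T l e' (r * (x + T) + (r * X + sg q g r Z (sT q T g l s' a)))) =
      π (blkV q T l e (p * x + (p * X + sg q g p Z (sT q T g l s a)))) +
      π (blkV q T l e' (r * x + (r * X + sg q g r Z (sT q T g l s' a)))) := by
    intro x hx
    rw [hu', hu', hu, hu]
    have h1 : gvV q T g l z0 x0 s s' s p e (a, x) + gvV q T g l z0 x0 s s' s' r e' (a, x) ∈ S :=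
      Submodule.subset_span ⟨⟨x, hx⟩, rfl⟩
    have h2 := hπ _ h1
    unfold gvV at h2
    rw [map_add, map_sub, map_sub] at h2
    rw [← sub_eq_zero, ← h2]
    abel
  have hl0 : ∀ y : V ⧸ S, ℓ • y = 0 := by
    intro y
    have h1 : ℓ • y = ((ℓ : ℕ) : ZMod ℓ) • y := by rw [Nat.cast_smul_eq_nsmul]
    rw [h1, ZMod.natCast_self, zero_smul]
  have h1 := klT_mod hq hp hpq hpT hpr hr hT hTh hb1 hb2 hb3
    (split_blkV (l := l) e π) (split_blkV (l := l) e' π) hH hK hl0 hc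
  apply hπ'
  rw [map_sub, sub_eq_zero]
  exact h1

/-- the coefficients -/
theorem rig_coeff {ℓ : ℕ} [Module (ZMod ℓ) V] {q p r T b κ h g l H : ℕ} {z0 x0 : ℕ → ℕ → ℕ}
    (hq : 2 ≤ q) (hp : p.Prime) (hpq : p.Coprime q) (hpT : p.Coprime T) (hpr : p.Coprime r)
    (hr : 0 < r) (hT : 0 < T) (hTh : T ≤ q ^ h)
    (hb1 : 2 * p * r ≤ q ^ b) (hb2 : 2 * p * T ≤ q ^ b) (hb3 : 2 * r * T ≤ q ^ b)
    (hH : q ^ (b + κ + 2 * h + 2) ≤ H)
    (s s' a : ℕ) (e e' : ℕ × ℕ → V) {c : ℕ} (hc : c < q ^ κ) :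
    ∃ γ : Fin H → ZMod ℓ, ∑ lam : Fin H, γ lam •
      (gvV q T g l z0 x0 s s' s p e (a, lam) + gvV q T g l z0 x0 s s' s' r e' (a, lam)) =
        blkV q T l e (q ^ b * c) - blkV q T l e (q ^ b * (c % (ℓ * T))) :=
  (Submodule.mem_span_range_iff_exists_fun (ZMod ℓ)).1
    (rig_span hq hp hpq hpT hpr hr hT hTh hb1 hb2 hb3 hH s s' a e e' hc)

end

/-! ### The polynomial ring -/

/-- the letter of the block at `A` with the relative position `x.1` and the content `x.2` -/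
private noncomputable def emE (ℓ q T L A : ℕ) (x : ℕ × ℕ) : MvPolynomial (Lt (q * T) L) (ZMod ℓ) :=
  if h : A + x.1 < L ∧ x.2 < q * T then pt (⟨A + x.1, h.1⟩, ⟨x.2, h.2⟩) else 0

private theorem em_blk {ℓ q T l L A U : ℕ} (hq : 2 ≤ q) (hT : 0 < T) :
    blkV q T l (emE ℓ q T L A) U =
      ∑ x ∈ blk q T l L A U, (pt x : MvPolynomial (Lt (q * T) L) (ZMod ℓ)) := by
  classical
  have hlt : ∀ k, U / q ^ k % (q * T) < q * T := fun k => Nat.mod_lt _ (by positivity)
  set f : ℕ → MvPolynomial (Lt (q * T) L) (ZMod ℓ) := fun k =>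
    emE ℓ q T L A (k, U / q ^ k % (q * T)) with hf
  have hmem : ∀ x : Lt (q * T) L, x ∈ blk q T l L A U ↔ A ≤ (x.1 : ℕ) ∧ (x.1 : ℕ) < A + l ∧
      U / q ^ ((x.1 : ℕ) - A) % (q * T) = x.2 := by
    intro x
    unfold blk
    rw [mem_filter]
    simp only [mem_univ, true_and]
  have h1 : ∀ x ∈ blk q T l L A U, (pt x : MvPolynomial (Lt (q * T) L) (ZMod ℓ)) =
      f (x.1 - A) := by
    intro x hx
    obtain ⟨h2, h3, h4⟩ := (hmem x).1 hx
    have h6 : A + ((x.1 : ℕ) - A) = x.1 := by omega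
    have h7 : A + ((x.1 : ℕ) - A) < L ∧ U / q ^ ((x.1 : ℕ) - A) % (q * T) < q * T := by
      rw [h6]
      exact ⟨x.1.2, hlt _⟩
    rw [hf]
    simp only
    rw [emE, dif_pos h7]
    congr 1
    refine Prod.ext (Fin.ext ?_) (Fin.ext ?_)
    · exact h6.symm
    · exact h4.symm
  rw [Finset.sum_congr rfl h1]
  have hinj : Set.InjOn (fun x : Lt (q * T) L => (x.1 : ℕ) - A) (blk q T l L A U) := by
    intro x hx y hy hxy
    obtain ⟨h2, h3, h4⟩ := (hmem x).1 hx
    obtain ⟨h2', h3', h4'⟩ := (hmem y).1 hy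
    have h6 : (x.1 : ℕ) - A = y.1 - A := hxy
    refine Prod.ext (Fin.ext (by omega)) (Fin.ext ?_)
    rw [← h4, ← h4', h6]
  rw [← Finset.sum_image (f := f) hinj]
  symm
  refine Finset.sum_subset ?_ ?_
  · intro i hi
    obtain ⟨x, hx, rfl⟩ := mem_image.1 hi
    obtain ⟨h2, h3, h4⟩ := (hmem x).1 hx
    rw [mem_range]
    omega
  · intro i hi hi'
    rw [mem_range] at hi
    rw [hf]
    simp only
    by_cases hL : A + i < L
    · exfalso
      apply hi'
      refine mem_image.2 ⟨(⟨A + i, hL⟩, ⟨U / q ^ i % (q * T), hlt i⟩), (hmem _).2 ⟨?_, ?_, ?_⟩, ?_⟩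
      · show A ≤ A + i
        omega
      · show A + i < A + l
        omega
      · show U / q ^ (A + i - A) % (q * T) = U / q ^ i % (q * T)
        rw [Nat.add_sub_cancel_left]
      · show A + i - A = i
        omega
    · rw [emE, dif_neg (fun h => hL h.1)]

private theorem em_map {V V' : Type} [AddCommGroup V] [AddCommGroup V'] (φ : V →+ V')
    (q T l : ℕ) (e : ℕ × ℕ → V) (U : ℕ) :
    blkV q T l (fun y => φ (e y)) U = φ (blkV q T l e U) := by
  unfold blkV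
  rw [map_sum]

private theorem em_bv {ℓ q T l L A U U' : ℕ} (hq : 2 ≤ q) (hT : 0 < T) :
    ∑ x : Lt (q * T) L, ((bv q T l L A U U' x : ℤ) : ZMod ℓ) •
      (pt x : MvPolynomial (Lt (q * T) L) (ZMod ℓ)) =
    blkV q T l (emE ℓ q T L A) U' - blkV q T l (emE ℓ q T L A) U := by
  rw [em_blk hq hT, em_blk hq hT]
  unfold bv
  simp only [Int.cast_sub, Int.cast_ite, Int.cast_one, Int.cast_zero, sub_smul, ite_smul, one_smul,
    zero_smul, Finset.sum_sub_distrib, Finset.sum_ite_mem, Finset.univ_inter]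

/-- the letter `y` of level `T'` as a difference of blocks -/
private theorem em_xi {ℓ q T T' l b κ L A : ℕ} (hq : 2 ≤ q) (hT : 0 < T) (hTT : T ∣ T')
    (hκ : q * T' ≤ q ^ κ) (hl : b + κ ≤ l) (y : Lt (q * T') L) (hy : (y.1 : ℕ) = A + b) :
    blkV q T l (emE ℓ q T L A) (q ^ b * y.2) -
      blkV q T l (emE ℓ q T L A) (q ^ b * ((y.2 : ℕ) % T')) = xi ℓ q T T' L y := by
  have hq0 : 0 < q := by omega
  rw [← em_bv hq hT]
  unfold xi
  refine Finset.sum_congr rfl fun x _ => ?_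
  congr 2
  have hmem : ∀ U, x ∈ blk q T l L A U ↔ A ≤ (x.1 : ℕ) ∧ (x.1 : ℕ) < A + l ∧
      U / q ^ ((x.1 : ℕ) - A) % (q * T) = x.2 := by
    intro U
    unfold blk
    rw [mem_filter]
    simp only [mem_univ, true_and]
  have hc : (y.2 : ℕ) < q ^ κ := lt_of_lt_of_le y.2.2 hκ
  have hc' : (y.2 : ℕ) % T' < q ^ κ := lt_of_le_of_lt (Nat.mod_le _ _) hc
  unfold bv dl
  simp only [hmem]
  by_cases h1 : (y.1 : ℕ) ≤ x.1
  · rw [if_pos h1]
    by_cases h2 : (x.1 : ℕ) < A + l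
    · -- inside the block
      have e1 : ∀ c : ℕ, q ^ b * c / q ^ ((x.1 : ℕ) - A) = c / q ^ ((x.1 : ℕ) - y.1) := by
        intro c
        have : (x.1 : ℕ) - A = b + ((x.1 : ℕ) - y.1) := by omega
        rw [this, pow_add, Nat.mul_div_mul_left _ _ (pow_pos hq0 b)]
      have h3 : A ≤ (x.1 : ℕ) := by omega
      simp only [h3, h2, true_and, e1]
    · -- above the block both contents are zero
      have e1 : ∀ c : ℕ, c < q ^ κ → c / q ^ ((x.1 : ℕ) - y.1) = 0 := by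
        intro c h3
        apply Nat.div_eq_of_lt
        exact lt_of_lt_of_le h3 (Nat.pow_le_pow_right hq0 (by omega))
      simp only [h2, false_and, and_false, if_false, e1 _ hc, e1 _ hc', sub_self]
  · rw [if_neg h1]
    -- below the letter
    by_cases h3 : A ≤ (x.1 : ℕ)
    · have h4 : (x.1 : ℕ) < A + l := by omega
      have e1 : q ^ b * (y.2 : ℕ) / q ^ ((x.1 : ℕ) - A) % (q * T) =
          q ^ b * ((y.2 : ℕ) % T') / q ^ ((x.1 : ℕ) - A) % (q * T) := by
        obtain ⟨k, hk⟩ : ∃ k, b = ((x.1 : ℕ) - A) + (k + 1) := ⟨b - ((x.1 : ℕ) - A) - 1, by omega⟩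
        obtain ⟨m, hm⟩ := hTT
        have e2 : ∀ c, q ^ b * c / q ^ ((x.1 : ℕ) - A) = q ^ (k + 1) * c := by
          intro c
          rw [hk, pow_add, mul_assoc, Nat.mul_div_cancel_left _ (pow_pos hq0 _)]
        rw [e2, e2]
        have e3 := Nat.mod_add_div (y.2 : ℕ) T'
        have e4 : q ^ (k + 1) * (y.2 : ℕ) = q ^ (k + 1) * ((y.2 : ℕ) % T') +
            q * T * (q ^ k * (m * ((y.2 : ℕ) / T'))) := by
          calc q ^ (k + 1) * (y.2 : ℕ) = q ^ (k + 1) * ((y.2 : ℕ) % T' +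
                T' * ((y.2 : ℕ) / T')) := by rw [e3]
            _ = q ^ (k + 1) * ((y.2 : ℕ) % T') + q ^ (k + 1) * (T' * ((y.2 : ℕ) / T')) := by ring
            _ = q ^ (k + 1) * ((y.2 : ℕ) % T') + q ^ (k + 1) * (T * m * ((y.2 : ℕ) / T')) := by
                rw [← hm]
            _ = _ := by ring
        rw [e4, Nat.add_mul_mod_self_left]
      simp only [e1, sub_self]
    · simp only [h3, false_and, if_false, sub_self]

/-- **Rigidity.** For a letter `y` of level `ℓ T`, `(xi y, 0)` is a linear combination of the vectors of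
the gadgets at one position. -/
theorem Gv_rig {ℓ q p r T b κ h g l H P L : ℕ} [NeZero ℓ] {z0 x0 : ℕ → ℕ → ℕ} (hq : 2 ≤ q)
    (hp : p.Prime) (hpq : p.Coprime q) (hpT : p.Coprime T) (hpr : p.Coprime r) (hr : 0 < r)
    (hT : 0 < T) (hTh : T ≤ q ^ h) (hb1 : 2 * p * r ≤ q ^ b) (hb2 : 2 * p * T ≤ q ^ b)
    (hb3 : 2 * r * T ≤ q ^ b) (hH : q ^ (b + κ + 2 * h + 2) ≤ H) (hκ : q * (ℓ * T) ≤ q ^ κ)
    (hl : b + κ ≤ l) (s s' : ℕ) (y : Lt (q * (ℓ * T)) L) (a : Fin P)
    (hy : (y.1 : ℕ) = a + (g + b)) :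
    ∃ γ : Fin H → ZMod ℓ, ∑ lam, γ lam • Gv q T g l L z0 x0 s s' p r ℓ (a, lam) =
      (xi ℓ q T (ℓ * T) L y, 0) := by
  have hc : (y.2 : ℕ) < q ^ κ := lt_of_lt_of_le y.2.2 hκ
  obtain ⟨γ, hγ⟩ := rig_coeff (ℓ := ℓ) (l := l) (g := g) (z0 := z0) (x0 := x0)
    (V := MvPolynomial (Lt (q * T) L) (ZMod ℓ) × MvPolynomial (Lt (q * T) L) (ZMod ℓ))
    hq hp hpq hpT hpr hr hT hTh hb1 hb2 hb3 hH s s' a
    (fun x => AddMonoidHom.inl _ _ (emE ℓ q T L (a + g) x))
    (fun x => AddMonoidHom.inr _ _ (emE ℓ q T L (a + g) x)) hc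
  refine ⟨γ, ?_⟩
  have h1 : ∀ lam : Fin H, Gv q T g l L z0 x0 s s' p r ℓ (a, lam) =
      gvV q T g l z0 x0 s s' s p (fun x => AddMonoidHom.inl _ _ (emE ℓ q T L (a + g) x))
        ((a : ℕ), (lam : ℕ)) +
      gvV q T g l z0 x0 s s' s' r (fun x => AddMonoidHom.inr _ _ (emE ℓ q T L (a + g) x))
        ((a : ℕ), (lam : ℕ)) := by
    intro lam
    unfold Gv gv gvV
    rw [em_bv hq hT, em_bv hq hT, em_map, em_map, em_map, em_map]
    simp only [AddMonoidHom.inl_apply, AddMonoidHom.inr_apply]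
    ext1 <;> simp
  simp only [h1]
  rw [hγ, em_map, em_map, ← map_sub, em_xi hq hT (Dvd.intro_left ℓ rfl) hκ hl y (by omega),
    AddMonoidHom.inl_apply]

/-- a witness for the tensor of `f` on the letters of level `ℓ T` gives a witness for the form of the
gadgets of level `T`; the second tensor is arbitrary -/
theorem transfer {ℓ q p r T b κ h g l H P L d : ℕ} [NeZero ℓ] {z0 x0 : ℕ → ℕ → ℕ} (hq : 2 ≤ q)
    (hp : p.Prime) (hpq : p.Coprime q) (hpT : p.Coprime T) (hpr : p.Coprime r) (hr : 0 < r)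
    (hT : 0 < T) (hTh : T ≤ q ^ h) (hb1 : 2 * p * r ≤ q ^ b) (hb2 : 2 * p * T ≤ q ^ b)
    (hb3 : 2 * r * T ≤ q ^ b) (hH : q ^ (b + κ + 2 * h + 2) ≤ H) (hκ : q * (ℓ * T) ≤ q ^ κ)
    (hl : b + κ ≤ l) (s s' : ℕ) (hd : 0 < d)
    (τ τ' : MvPolynomial (Lt (q * T) L) (ZMod ℓ) →+ ZMod ℓ)
    (W : Fin d → Finset (Lt (q * (ℓ * T)) L))
    (hW : ∀ j, ∀ y ∈ W j, g + b ≤ (y.1 : ℕ) ∧ (y.1 : ℕ) - (g + b) < P) :
    ∃ V : Fin d → Finset (Fin P × Fin H), (∀ j, (V j).card ≤ (W j).card * H) ∧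
      (∀ j, ∀ v ∈ V j, ∃ y ∈ W j, (y.1 : ℕ) = v.1 + (g + b)) ∧
      bi (T2 τ τ') univ (fun j => vec (ℓ := ℓ) (Gv q T g l L z0 x0 s s' p r ℓ) (V j)) ≤
        bi τ univ fun j => vec (ℓ := ℓ) (xi ℓ q T (ℓ * T) L) (W j) := by
  classical
  set t0 := g + b with ht0
  have hex : ∀ y : Lt (q * (ℓ * T)) L, ∃ γ : Fin H → ZMod ℓ, (∃ j, y ∈ W j) →
      ∀ a : Fin P, (y.1 : ℕ) = a + t0 →
        ∑ lam, γ lam • Gv q T g l L z0 x0 s s' p r ℓ (a, lam) = (xi ℓ q T (ℓ * T) L y, 0) := by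
    intro y
    by_cases hj : ∃ j, y ∈ W j
    · obtain ⟨j, hj⟩ := hj
      obtain ⟨h1, h2⟩ := hW j y hj
      have hy : (y.1 : ℕ) = (⟨(y.1 : ℕ) - t0, h2⟩ : Fin P) + t0 := by
        show (y.1 : ℕ) = (y.1 : ℕ) - t0 + t0
        omega
      obtain ⟨γ, hγ⟩ := Gv_rig (z0 := z0) (x0 := x0) hq hp hpq hpT hpr hr hT hTh hb1 hb2 hb3 hH hκ
        hl s s' y (⟨(y.1 : ℕ) - t0, h2⟩ : Fin P) hy
      refine ⟨γ, fun _ a ha => ?_⟩
      have : a = (⟨(y.1 : ℕ) - t0, h2⟩ : Fin P) := by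
        apply Fin.ext
        show (a : ℕ) = (y.1 : ℕ) - t0
        omega
      rw [this]
      exact hγ
    · exact ⟨0, fun h' => absurd h' hj⟩
  choose γ hγ using hex
  let V : Fin d → Finset (Fin P × Fin H) := fun j =>
    univ.filter fun v => ∃ y ∈ W j, (y.1 : ℕ) = v.1 + t0
  have hVmem : ∀ j v, v ∈ V j ↔ ∃ y ∈ W j, (y.1 : ℕ) = v.1 + t0 := by
    intro j v
    show v ∈ univ.filter _ ↔ _
    rw [mem_filter]
    exact ⟨fun h => h.2, fun h => ⟨mem_univ _, h⟩⟩
  refine ⟨V, ?_, fun j v hv => (hVmem j v).1 hv, ?_⟩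
  · intro j
    have h1 : (V j).card ≤ (W j ×ˢ (univ : Finset (Fin H))).card := by
      have h2 : ∀ v ∈ V j, ∃ y, y ∈ W j ∧ (y.1 : ℕ) = v.1 + t0 := by
        intro v hv
        obtain ⟨y, hy, h3⟩ := (hVmem j v).1 hv
        exact ⟨y, hy, h3⟩
      rcases (V j).eq_empty_or_nonempty with h0 | ⟨v, hv⟩
      · rw [h0, card_empty]
        exact Nat.zero_le _
      · have : Nonempty (Lt (q * (ℓ * T)) L) := ⟨(h2 v hv).choose⟩
        choose! yf hyf using h2
        refine Finset.card_le_card_of_injOn (fun v => (yf v, v.2)) ?_ ?_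
        · intro v hv
          exact mem_product.2 ⟨(hyf v hv).1, mem_univ _⟩
        · intro v hv w hw hvw
          have h3 := (hyf v hv).2
          have h4 := (hyf w hw).2
          have hvw' : (yf v, v.2) = (yf w, w.2) := hvw
          have h5 : yf v = yf w := (Prod.mk.inj hvw').1
          have h6 : v.2 = w.2 := (Prod.mk.inj hvw').2
          rw [h5] at h3
          exact Prod.ext (Fin.ext (by omega)) h6
    rw [card_product, card_univ, Fintype.card_fin] at h1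
    exact h1
  · have hne : (univ : Finset (Fin d)).Nonempty := ⟨⟨0, hd⟩, mem_univ _⟩
    let α : Fin d → (Lt (q * (ℓ * T)) L → ZMod ℓ) →+ (Fin P × Fin H → ZMod ℓ) := fun j =>
      { toFun := fun f v => ∑ y ∈ W j, if (y.1 : ℕ) = v.1 + t0 then f y * γ y v.2 else 0
        map_zero' := by
          funext v
          simp
        map_add' := by
          intro f f'
          funext v
          show _ = (∑ y ∈ W j, if (y.1 : ℕ) = v.1 + t0 then f y * γ y v.2 else 0) +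
            ∑ y ∈ W j, if (y.1 : ℕ) = v.1 + t0 then f' y * γ y v.2 else 0
          rw [← Finset.sum_add_distrib]
          refine Finset.sum_congr rfl fun x _ => ?_
          split_ifs
          · rw [Pi.add_apply, add_mul]
          · rw [add_zero] }
    have hα : ∀ j f v, α j f v =
        ∑ y ∈ W j, if (y.1 : ℕ) = v.1 + t0 then f y * γ y v.2 else 0 := fun _ _ _ => rfl
    have hvec : ∀ j (f : Lt (q * (ℓ * T)) L → ZMod ℓ),
        vec (ℓ := ℓ) (Gv q T g l L z0 x0 s s' p r ℓ) (V j) (α j f) =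
          (vec (ℓ := ℓ) (xi ℓ q T (ℓ * T) L) (W j) f, 0) := by
      intro j f
      show ∑ v ∈ V j, α j f v • Gv q T g l L z0 x0 s s' p r ℓ v =
        (∑ y ∈ W j, f y • xi ℓ q T (ℓ * T) L y, 0)
      have h1 : ∑ v ∈ V j, α j f v • Gv q T g l L z0 x0 s s' p r ℓ v =
          ∑ v, α j f v • Gv q T g l L z0 x0 s s' p r ℓ v := by
        refine Finset.sum_subset (subset_univ _) fun v _ hv => ?_
        have h2 : α j f v = 0 := by
          rw [hα]
          refine Finset.sum_eq_zero fun y hy => ?_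
          rw [if_neg]
          intro h3
          exact hv ((hVmem j v).2 ⟨y, hy, h3⟩)
        rw [h2, zero_smul]
      rw [h1]
      simp only [hα, Finset.sum_smul]
      rw [Finset.sum_comm]
      have h3 : ∀ y ∈ W j, ∑ v : Fin P × Fin H,
          (if (y.1 : ℕ) = v.1 + t0 then f y * γ y v.2 else 0) •
            Gv q T g l L z0 x0 s s' p r ℓ v = f y • (xi ℓ q T (ℓ * T) L y,
              (0 : MvPolynomial (Lt (q * T) L) (ZMod ℓ))) := by
        intro y hy
        obtain ⟨h4, h5⟩ := hW j y hy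
        rw [Fintype.sum_prod_type, Finset.sum_eq_single (⟨(y.1 : ℕ) - t0, h5⟩ : Fin P)]
        · have h6 : (y.1 : ℕ) = ((⟨(y.1 : ℕ) - t0, h5⟩ : Fin P) : ℕ) + t0 := by
            show (y.1 : ℕ) = (y.1 : ℕ) - t0 + t0
            omega
          rw [← hγ y ⟨j, hy⟩ _ h6, Finset.smul_sum]
          refine Finset.sum_congr rfl fun lam _ => ?_
          rw [if_pos h6, mul_smul]
        · intro a _ ha
          refine Finset.sum_eq_zero fun lam _ => ?_
          rw [if_neg, zero_smul]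
          intro h6
          have h9 : (y.1 : ℕ) = (a : ℕ) + t0 := h6
          apply ha
          apply Fin.ext
          show (a : ℕ) = (y.1 : ℕ) - t0
          omega
        · intro h
          exact absurd (mem_univ _) h
      rw [Finset.sum_congr rfl h3]
      refine Prod.ext ?_ ?_
      · rw [Prod.fst_sum]
        rfl
      · rw [Prod.snd_sum]
        refine Finset.sum_eq_zero fun y _ => ?_
        show f y • (0 : MvPolynomial (Lt (q * T) L) (ZMod ℓ)) = 0
        rw [smul_zero]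
    refine (bi_restrict hne (T2 τ τ')
      (fun j => vec (ℓ := ℓ) (Gv q T g l L z0 x0 s s' p r ℓ) (V j)) α).trans (le_of_eq ?_)
    unfold bi
    congr 2
    funext f
    congr 1
    have h7 : ∏ j, ((vec (ℓ := ℓ) (Gv q T g l L z0 x0 s s' p r ℓ) (V j)).comp (α j)) (f j) =
        (∏ j, vec (ℓ := ℓ) (xi ℓ q T (ℓ * T) L) (W j) (f j), 0) := by
      have h8 : ∀ j, ((vec (ℓ := ℓ) (Gv q T g l L z0 x0 s s' p r ℓ) (V j)).comp (α j)) (f j) =
          (vec (ℓ := ℓ) (xi ℓ q T (ℓ * T) L) (W j) (f j), 0) := fun j => hvec j (f j)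
      rw [Finset.prod_congr rfl fun j _ => h8 j]
      refine Prod.ext ?_ ?_
      · rw [Prod.fst_prod]
      · rw [Prod.snd_prod]
        exact Finset.prod_eq_zero (mem_univ ⟨0, hd⟩) rfl
    rw [h7]
    show τ (∏ j, vec (ℓ := ℓ) (xi ℓ q T (ℓ * T) L) (W j) (f j)) + τ' 0 = _
    rw [map_zero, add_zero]

end Pool.Agent.Lib.MP_3e612f_nt.EM
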