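import Pool.Agent.Lib.MP_3e612f_nt.EM.Rig
import Pool.Agent.Lib.MP_3e612f_nt.DI.BMul

/-!
A witness of level `ℓ T` for one tensor gives a witness for the form of the gadgets.

PROOF. `EM/Rig.lean`, theorem `transfer`, with the exponents chosen minimal.
`class_sel` of `DI/Trf.lean` is used as it is.
-/

set_option autoImplicit false

namespace Pool.Agent.Lib.MP_3e612f_nt.EM

open Finset
open Pool.Agent.Lib.MP_3e612f_nt.PI (ee mc)
open Pool.Agent.Lib.MP_3e612f_nt.DI (pt vec bi)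

theorem trf_exp {q : ℕ} (hq : 2 ≤ q) {x : ℕ} (hx : 0 < x) :
    ∃ h, x ≤ q ^ h ∧ q ^ h ≤ q * x ∧ ∀ k, x ≤ q ^ k → h ≤ k := by
  classical
  have hex : ∃ h, x ≤ q ^ h := ⟨x, (Nat.lt_pow_self (by omega)).le⟩
  refine ⟨Nat.find hex, Nat.find_spec hex, ?_, fun k hk => Nat.find_min' hex hk⟩
  rcases Nat.eq_zero_or_pos (Nat.find hex) with h0 | h0
  · rw [h0, pow_zero]
    nlinarith
  · obtain ⟨k, hk⟩ : ∃ k, Nat.find hex = k + 1 := ⟨Nat.find hex - 1, by omega⟩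
    have hlt : ¬ x ≤ q ^ k := Nat.find_min hex (by omega)
    rw [hk, pow_succ, mul_comm]
    exact Nat.mul_le_mul_left _ (by omega)

/-- (the hypothesis on `H` has the factor `q ^ (b + 5) * T ^ 2`) -/
theorem transferT {ℓ q p r T b g l H P L d : ℕ} [NeZero ℓ] {z0 x0 : ℕ → ℕ → ℕ} (hq : 2 ≤ q)
    (hT : 0 < T) (hp : p.Prime) (hpq : p.Coprime q) (hpT : p.Coprime T) (hpr : p.Coprime r)
    (hr : 0 < r) (hb1 : 2 * p * r ≤ q ^ b) (hb2 : 2 * p * T ≤ q ^ b) (hb3 : 2 * r * T ≤ q ^ b)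
    (hH : q ^ (b + 5) * T ^ 2 * (q * (ℓ * T)) ≤ H) (hl : q ^ b * (q * (ℓ * T)) ≤ q ^ l)
    (s s' : ℕ) (hd : 0 < d)
    (T0 T0' : MvPolynomial (Lt (q * T) L) (ZMod ℓ) →+ ZMod ℓ)
    (V : Fin d → Finset (Lt (q * (ℓ * T)) L))
    (hV : ∀ j, ∀ y ∈ V j, g + b ≤ (y.1 : ℕ) ∧ (y.1 : ℕ) - (g + b) < P) :
    ∃ V1 : Fin d → Finset (Fin P × Fin H), (∀ j, (V1 j).card ≤ (V j).card * H) ∧
      (∀ j, ∀ v ∈ V1 j, ∃ y ∈ V j, (y.1 : ℕ) = v.1 + (g + b)) ∧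
      bi (T2 T0 T0') univ (fun j => vec (ℓ := ℓ) (Gv q T g l L z0 x0 s s' p r ℓ) (V1 j)) ≤
        bi T0 univ fun j => vec (ℓ := ℓ) (xi ℓ q T (ℓ * T) L) (V j) := by
  have hℓ : 0 < ℓ := Nat.pos_of_ne_zero (NeZero.ne ℓ)
  have hX : 0 < q * (ℓ * T) := by positivity
  obtain ⟨h, hh1, hh2, -⟩ := trf_exp hq hT
  obtain ⟨κ, hκ1, hκ2, hκ3⟩ := trf_exp hq hX
  have hbl : b ≤ l := by
    by_contra hlt
    have h1 : q ^ l < q ^ b := Nat.pow_lt_pow_right (by omega) (by omega)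
    have h2 : q ^ b * 1 ≤ q ^ b * (q * (ℓ * T)) := Nat.mul_le_mul_left _ hX
    omega
  refine transfer (κ := κ) (h := h) hq hp hpq hpT hpr hr hT hh1 hb1 hb2 hb3 (le_trans ?_ hH) hκ1
    ?_ s s' hd T0 T0' V hV
  · calc q ^ (b + κ + 2 * h + 2) = q ^ (b + 2) * (q ^ κ * (q ^ h * q ^ h)) := by
          rw [← pow_add, ← pow_add, ← pow_add]; congr 1; omega
      _ ≤ q ^ (b + 2) * ((q * (q * (ℓ * T))) * ((q * T) * (q * T))) := by gcongr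
      _ = q ^ (b + 5) * T ^ 2 * (q * (ℓ * T)) := by
          rw [show b + 5 = (b + 2) + 3 by omega, pow_add]; ring
  · have h1 : κ ≤ l - b := by
      apply hκ3
      have h2 : q ^ b * (q * (ℓ * T)) ≤ q ^ b * q ^ (l - b) := by
        rw [← pow_add, Nat.add_sub_cancel' hbl]; exact hl
      exact Nat.le_of_mul_le_mul_left h2 (by positivity)
    omega

end Pool.Agent.Lib.MP_3e612f_nt.EM
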